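import Mathlib

/-! Algebra: the two ternary cubic forms attached to a commutative rank three algebra. -/

namespace Pool.Agent.H945R2

section ring
variable {R : Type*} [CommRing R]

/-- `p`, `q`, `r`: constant terms of the structure constants. -/
def pp (x : Fin 6 → R) : R := x 2 ^ 2 - x 1 * x 2 + x 0 * x 3 - x 0 * x 5
def qq (x : Fin 6 → R) : R := x 0 * x 4 - x 2 * x 3
def rr (x : Fin 6 → R) : R := x 3 ^ 2 - x 5 * x 3 + x 4 * x 2 - x 1 * x 4

/-- coefficients of the first cubic form. -/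
def cf (x : Fin 6 → R) : Fin 10 → R :=
  ![1, x 1 + x 2, x 3 + x 5,
    x 1 * x 2 - x 0 * x 3 - pp x,
    x 1 * x 5 - x 0 * x 4 - 2 * qq x,
    x 3 * x 5 - x 4 * x 2 - rr x,
    x 0 * qq x - pp x * x 2,
    pp x * x 3 - pp x * x 5 - qq x * x 1 + rr x * x 0,
    pp x * x 4 - qq x * x 5 + rr x * x 2 - rr x * x 1,
    x 4 * qq x - rr x * x 3]

/-- coefficients of the second cubic form. -/
def cg (x : Fin 6 → R) : Fin 10 → R :=
  ![pp x * rr x - qq x ^ 2,
    pp x * x 4 + x 1 * rr x - 2 * (qq x * x 3),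
    pp x * x 5 + x 0 * rr x - 2 * (qq x * x 2),
    x 1 * x 4 - x 3 ^ 2 - rr x,
    x 1 * x 5 + x 0 * x 4 - 2 * (x 2 * x 3) + 2 * qq x,
    x 0 * x 5 - x 2 ^ 2 - pp x,
    -x 4, 2 * x 3 - x 5, 2 * x 2 - x 1, -x 0]

/-- the ternary cubic form with coefficient vector `c`. -/
def cub (c : Fin 10 → R) (y : Fin 3 → R) : R :=
  c 0 * y 0 ^ 3 + c 1 * (y 0 ^ 2 * y 1) + c 2 * (y 0 ^ 2 * y 2) + c 3 * (y 0 * y 1 ^ 2)
    + c 4 * (y 0 * y 1 * y 2) + c 5 * (y 0 * y 2 ^ 2) + c 6 * y 1 ^ 3 + c 7 * (y 1 ^ 2 * y 2)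
    + c 8 * (y 1 * y 2 ^ 2) + c 9 * y 2 ^ 3

/-- multiplication operators. -/
def M2 (x : Fin 6 → R) : Matrix (Fin 3) (Fin 3) R :=
  !![0, pp x, qq x; 1, x 1, x 3; 0, x 0, x 2]
def M3 (x : Fin 6 → R) : Matrix (Fin 3) (Fin 3) R :=
  !![0, qq x, rr x; 0, x 3, x 4; 1, x 2, x 5]

lemma cub_cf (x : Fin 6 → R) (y : Fin 3 → R) :
    cub (cf x) y = (Matrix.det (y 0 • (1 : Matrix (Fin 3) (Fin 3) R) + y 1 • M2 x + y 2 • M3 x)) := by
  simp only [cub, cf, M2, M3, Matrix.det_fin_three, Matrix.add_apply, Matrix.smul_apply,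
    smul_eq_mul, Matrix.one_apply, Matrix.of_apply, Matrix.cons_val]
  simp
  ring

/-- permutation of coefficients for the exchange of the first two variables -/
def sw : Fin 10 → Fin 10 := ![6, 3, 7, 1, 4, 8, 0, 2, 5, 9]

end ring

variable {K : Type*} [Field K]

/-- the move exchanging the unit `e_1` and `e_2`; `N` is the norm of `e_2`. -/
def mS (x : Fin 6 → K) (N : K) : Fin 6 → K :=
  ![x 0 / N, (x 1 * x 2 - x 0 * x 3) / N, -pp x / N,
    (pp x * x 3 - qq x * x 1) / N, (qq x ^ 2 - pp x * rr x) / N,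
    (rr x * x 0 - x 5 * pp x) / N]

section mS
variable (x : Fin 6 → K) (N : K) (h : N ≠ 0) (hN : N = x 0 * qq x - pp x * x 2)
include h hN

lemma pp_mS : pp (mS x N) = -x 2 / N := by
  simp only [pp, mS, Matrix.cons_val]
  field_simp
  rw [hN]
  simp only [pp, qq, rr]
  ring

lemma qq_mS : qq (mS x N) = qq x / N := by
  simp only [qq, mS, Matrix.cons_val]
  field_simp
  rw [hN]
  simp only [pp, qq, rr]
  ring

lemma rr_mS : rr (mS x N) = (x 5 * qq x - rr x * x 2) / N := by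
  simp only [rr, mS, Matrix.cons_val]
  field_simp
  rw [hN]
  simp only [pp, qq, rr]
  ring


lemma cf_mS (j : Fin 10) : N * cf (mS x N) j = cf x (sw j) := by
  have e1 := pp_mS x N h hN
  have e2 := qq_mS x N h hN
  have e3 := rr_mS x N h hN
  fin_cases j
  all_goals
    simp only [cf, sw, e1, e2, e3, Matrix.cons_val, Fin.zero_eta, Fin.mk_one, Fin.reduceFinMk]
    (try simp only [mS, Matrix.cons_val])
    first
      | (rw [hN]; ring1)
      | (field_simp; ring1)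
      | (field_simp; rw [hN]; ring1)
      | (field_simp; simp only [pp, qq, rr]; ring1)
      | (field_simp; rw [hN]; simp only [pp, qq, rr]; ring1)

lemma cg_mS (j : Fin 10) : N * cg (mS x N) j = cg x (sw j) := by
  have e1 := pp_mS x N h hN
  have e2 := qq_mS x N h hN
  have e3 := rr_mS x N h hN
  fin_cases j
  all_goals
    simp only [cg, sw, e1, e2, e3, Matrix.cons_val, Fin.zero_eta, Fin.mk_one, Fin.reduceFinMk]
    (try simp only [mS, Matrix.cons_val])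
    first
      | (field_simp; done)
      | (field_simp; ring1)
      | (field_simp; rw [hN]; ring1)
      | (field_simp; simp only [pp, qq, rr]; ring1)
      | (field_simp; rw [hN]; simp only [pp, qq, rr]; ring1)

lemma cub_cf_mS (y : Fin 3 → K) : N * cub (cf (mS x N)) y = cub (cf x) ![y 1, y 0, y 2] := by
  have H := cf_mS x N h hN
  have h0 := H 0
  have h1 := H 1
  have h2 := H 2
  have h3 := H 3
  have h4 := H 4
  have h5 := H 5
  have h6 := H 6
  have h7 := H 7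
  have h8 := H 8
  have h9 := H 9
  simp only [sw, Matrix.cons_val] at h0 h1 h2 h3 h4 h5 h6 h7 h8 h9
  simp only [cub, Matrix.cons_val]
  rw [← h0, ← h1, ← h2, ← h3, ← h4, ← h5, ← h6, ← h7, ← h8, ← h9]
  ring

lemma cub_cg_mS (y : Fin 3 → K) : N * cub (cg (mS x N)) y = cub (cg x) ![y 1, y 0, y 2] := by
  have H := cg_mS x N h hN
  have h0 := H 0
  have h1 := H 1
  have h2 := H 2
  have h3 := H 3
  have h4 := H 4
  have h5 := H 5
  have h6 := H 6
  have h7 := H 7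
  have h8 := H 8
  have h9 := H 9
  simp only [sw, Matrix.cons_val] at h0 h1 h2 h3 h4 h5 h6 h7 h8 h9
  simp only [cub, Matrix.cons_val]
  rw [← h0, ← h1, ← h2, ← h3, ← h4, ← h5, ← h6, ← h7, ← h8, ← h9]
  ring

end mS

/-- the move exchanging `e_2` and `e_3`. -/
def mP (x : Fin 6 → K) : Fin 6 → K := ![x 4, x 5, x 3, x 2, x 0, x 1]

lemma cub_cf_mP (x : Fin 6 → K) (y : Fin 3 → K) :
    cub (cf (mP x)) y = cub (cf x) ![y 0, y 2, y 1] := by
  simp only [cub, cf, mP, pp, qq, rr, Matrix.cons_val]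
  ring

lemma cub_cg_mP (x : Fin 6 → K) (y : Fin 3 → K) :
    cub (cg (mP x)) y = cub (cg x) ![y 0, y 2, y 1] := by
  simp only [cub, cg, mP, pp, qq, rr, Matrix.cons_val]
  ring

/-- the move replacing `e_2` by `v_0 e_1 + v_1 e_2 + v_2 e_3`. -/
def mT (x : Fin 6 → K) (v : Fin 3 → K) : Fin 6 → K :=
  ![v 1 ^ 2 * x 0 + 2 * v 1 * v 2 * x 2 + v 2 ^ 2 * x 5 + 2 * v 0 * v 2
      - v 2 * (v 1 * x 1 + 2 * v 2 * x 3 + v 2 ^ 2 * x 4 / v 1 + 2 * v 0),
    v 1 * x 1 + 2 * v 2 * x 3 + v 2 ^ 2 * x 4 / v 1 + 2 * v 0,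
    v 0 + v 1 * x 2 + v 2 * x 5 - v 2 * (x 3 + v 2 * x 4 / v 1),
    x 3 + v 2 * x 4 / v 1, x 4 / v 1, x 5 - v 2 * x 4 / v 1]

lemma cub_cf_mT (x : Fin 6 → K) (v : Fin 3 → K) (hv : v 1 ≠ 0) (y : Fin 3 → K) :
    cub (cf (mT x v)) y = cub (cf x) ![y 0 + y 1 * v 0, y 1 * v 1, y 1 * v 2 + y 2] := by
  simp only [cub, cf, mT, pp, qq, rr, Matrix.cons_val]
  field_simp
  ring

lemma cub_cg_mT (x : Fin 6 → K) (v : Fin 3 → K) (hv : v 1 ≠ 0) (y : Fin 3 → K) :
    cub (cg (mT x v)) ![y 0, v 0 * y 0 + v 1 * y 1 + v 2 * y 2, y 2] =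
      v 1 ^ 2 * cub (cg x) y := by
  simp only [cub, cg, mT, pp, qq, rr, Matrix.cons_val]
  field_simp
  ring

/-- the dual move. -/
def mD (x : Fin 6 → K) : Fin 6 → K :=
  ![1 / x 0, (x 1 - x 2) / x 0, -x 2 / x 0, pp x / x 0, qq x - x 2 * pp x / x 0,
    x 2 ^ 2 / x 0 - x 5]

section mD
variable (x : Fin 6 → K) (h : x 0 ≠ 0)
include h

lemma pp_mD : pp (mD x) = x 3 / x 0 := by
  simp only [pp, mD, Matrix.cons_val]
  field_simp
  (try simp only [qq])
  ring

lemma qq_mD : qq (mD x) = qq x / x 0 := by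
  simp only [qq, mD, Matrix.cons_val]
  field_simp
  simp only [pp]
  ring

lemma rr_mD : rr (mD x) = rr x - x 2 * qq x / x 0 := by
  simp only [rr, mD, Matrix.cons_val]
  field_simp
  (try simp only [pp, qq, rr])
  ring

lemma cub_cf_mD (y : Fin 3 → K) :
    -x 0 * cub (cf (mD x)) y = cub (cg x) ![y 2, y 1, y 0] := by
  have e1 := pp_mD x h
  have e2 := qq_mD x h
  have e3 := rr_mD x h
  simp only [cub, cf, cg, e1, e2, e3, Matrix.cons_val]
  simp only [mD, Matrix.cons_val]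
  field_simp
  simp only [pp, qq, rr]
  ring

lemma cub_cg_mD (y : Fin 3 → K) :
    -x 0 * cub (cg (mD x)) y = cub (cf x) ![y 2, y 1, y 0] := by
  have e1 := pp_mD x h
  have e2 := qq_mD x h
  have e3 := rr_mD x h
  simp only [cub, cf, cg, e1, e2, e3, Matrix.cons_val]
  simp only [mD, Matrix.cons_val]
  field_simp
  simp only [pp, qq, rr]
  ring

end mD

end Pool.Agent.H945R2
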