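import Mathlib

/-!
# Fano manifolds, Picard groups, projective embeddings and normal bundles of linear subspaces

Complex algebraic varieties are given in the classical language of function fields (Zariski, Weil):
a variety is a function field `K` together with finitely many affine charts, which are
finitely generated subalgebras of `K` with fraction field `K`.
-/

noncomputable section

namespace Pool.Agent.H945R2

/-- The local ring of the affine variety `Spec R` (with `R` a subalgebra of the function field `K`)
at the prime ideal `p`, as a subset of `K`: all fractions `a / s` with `a, s ∈ R`, `s ∉ p`. -/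
def locRing {K : Type} [Field K] [Algebra ℂ K] (R : Subalgebra ℂ K) (p : Ideal R) : Set K :=
  {z | ∃ a s : R, s ∉ p ∧ z * (s : K) = (a : K)}

/-- The local ring of `Spec R` at the centre of the valuation ring `V` (meant for `R ≤ V`):
all fractions `a / s` with `a, s ∈ R` and `s` a unit of `V`. -/
def locAtCentre {K : Type} [Field K] [Algebra ℂ K] (R : Subalgebra ℂ K)
    (V : ValuationSubring K) : Set K :=
  {z | ∃ a ∈ R, ∃ s ∈ R, s ≠ 0 ∧ s⁻¹ ∈ V ∧ z * s = a}

/-- A smooth complete (= proper) irreducible complex variety `X` of dimension `dim`, given by its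
function field `K` and by finitely many affine charts `Spec (chart i)`, where `chart i` is a finitely
generated (part of `Algebra.Smooth`) subalgebra of `K` with fraction field `K`.
`separated`: if a valuation ring of `K` has a centre on two charts, the two local rings at the centres
are the same subring of `K` (so the charts glue to a separated variety, whose points are the
local rings of the charts).
`complete`: the valuative criterion of properness: every valuation ring of `K / ℂ` has a centre
on some chart.
`der` is a basis of the `K`-vector space of `ℂ`-derivations of `K` (its cardinality is the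
transcendence degree of `K` over `ℂ`, i.e. the dimension); it trivialises the
one-dimensional space of rational top differential forms by
`dg_1 ∧ ... ∧ dg_dim ↦ det (der i (g_j))`. -/
structure Variety where
  /-- dimension -/
  dim : ℕ
  /-- function field -/
  K : Type
  [fld : Field K]
  [alg : Algebra ℂ K]
  /-- index set of the charts -/
  ι : Type
  [fin : Finite ι]
  /-- coordinate rings of the affine charts -/
  chart : ι → Subalgebra ℂ K
  frac : ∀ i, IsFractionRing (chart i) K
  smooth : ∀ i, Algebra.Smooth ℂ (chart i)
  separated : ∀ (i j : ι) (V : ValuationSubring K), (∀ f ∈ chart i, f ∈ V) →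
    (∀ f ∈ chart j, f ∈ V) → locAtCentre (chart i) V = locAtCentre (chart j) V
  complete : ∀ V : ValuationSubring K, (∀ c : ℂ, algebraMap ℂ K c ∈ V) →
    ∃ i, ∀ f ∈ chart i, f ∈ V
  /-- a basis of the derivations of the function field -/
  der : Module.Basis (Fin dim) K (Derivation ℂ K K)

attribute [instance] Variety.fld Variety.alg Variety.fin

namespace Variety

variable (X : Variety)

/-- The points of the variety `X`, each represented by its local ring in the function field. -/
def points : Set (Set X.K) :=
  {A | ∃ (i : X.ι) (p : Ideal (X.chart i)), p.IsPrime ∧ A = locRing (X.chart i) p}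

/-- The coordinate ring of the chart `i`. -/
def Coord (i : X.ι) : Type := X.chart i

instance (i : X.ι) : CommRing (X.Coord i) := (X.chart i).toCommRing

instance (i : X.ι) : Algebra ℂ (X.Coord i) := (X.chart i).algebra

/-- An element of the coordinate ring of a chart, as a rational function. -/
def toK {i : X.ι} (f : X.Coord i) : X.K := f.1

/-- The coordinate ring of the intersection of the charts `i` and `j`: as the variety is separated,
the intersection is the affine variety whose coordinate ring is generated by the coordinate rings
of the two charts. -/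
def Coord₂ (i j : X.ι) : Type := (X.chart i ⊔ X.chart j : Subalgebra ℂ X.K)

instance (i j : X.ι) : CommRing (X.Coord₂ i j) :=
  (X.chart i ⊔ X.chart j : Subalgebra ℂ X.K).toCommRing

/-- Restriction of functions from the chart `i` to the intersection of the charts `i` and `j`. -/
def resL (i j : X.ι) : X.Coord i →+* X.Coord₂ i j :=
  (Subalgebra.inclusion (le_sup_left : X.chart i ≤ X.chart i ⊔ X.chart j)).toRingHom

/-- Restriction of functions from the chart `j` to the intersection of the charts `i` and `j`. -/
def resR (i j : X.ι) : X.Coord j →+* X.Coord₂ i j :=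
  (Subalgebra.inclusion (le_sup_right : X.chart j ≤ X.chart i ⊔ X.chart j)).toRingHom

/-! ### The anticanonical bundle and the Fano condition -/

/-- The rational function `det (der i (g j))` which represents the rational top form
`dg_1 ∧ ... ∧ dg_dim`. -/
def jac (g : Fin X.dim → X.K) : X.K :=
  Matrix.det (Matrix.of fun i j => X.der i (g j))

/-- The top forms `dg_1 ∧ ... ∧ dg_dim` with all `g_j` in `A`. If `A` is the coordinate ring of a
chart (or a local ring of `X`), they generate the canonical module `ω_A`. -/
def forms (A : Set X.K) : Set X.K :=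
  {a | ∃ g : Fin X.dim → X.K, (∀ j, g j ∈ A) ∧ a = X.jac g}

/-- `H⁰(X, -m K_X)`: the rational functions `s` such that the rational `m`-fold polyvector field
`s · ω₀^(-m)` (where `ω₀` is the rational form dual to `der`) is regular on every chart, i.e. maps
`ω^m` into the coordinate ring of the chart. -/
def antican (m : ℕ) : Set X.K :=
  {s | ∀ (i : X.ι) (a : Fin m → X.K), (∀ k, a k ∈ X.forms (X.chart i : Set X.K)) →
    s * ∏ k, a k ∈ X.chart i}

/-- The section `s` of `-m K_X` does not vanish at the point with local ring `A`. -/
def NonvanishingAt (m : ℕ) (s : X.K) (A : Set X.K) : Prop :=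
  ∃ a : Fin m → X.K, (∀ k, a k ∈ X.forms A) ∧ ∃ b ∈ A, s * (∏ k, a k) * b = 1

/-- `-K_X` is ample: every point `A` of `X` lies in the non-vanishing locus `X_s` of a section `s` of
`-m K_X` for some `m ≥ 1`, such that `X_s` is an affine variety `Spec R`
(Stacks project, Definition 01PS). A smooth complete variety with this property is a
Fano manifold (it is projective because it carries an ample line bundle). -/
def IsFano : Prop :=
  ∀ A ∈ X.points, ∃ m : ℕ, 1 ≤ m ∧ ∃ s ∈ X.antican m, X.NonvanishingAt m s A ∧
    ∃ R : Subalgebra ℂ X.K, R.FG ∧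
      {A' | A' ∈ X.points ∧ X.NonvanishingAt m s A'} =
        {A' | ∃ p : Ideal R, p.IsPrime ∧ A' = locRing R p}

/-! ### Divisors and the Picard group -/

/-- A prime divisor of `X`, given by its local ring: a point of `X` whose local ring is a discrete
valuation ring (`X` is smooth, so these are exactly the points of codimension one, i.e. the
generic points of the irreducible closed subvarieties of codimension one). -/
structure PrimeDivisor where
  /-- the local ring of the prime divisor -/
  O : ValuationSubring X.K
  isPoint : (O : Set X.K) ∈ X.points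
  dvr : IsDiscreteValuationRing O

variable {X}

/-- The rational function `f` has order `n` along the prime divisor `D`: it is a unit of the local
ring of `D` times the `n`-th power of a uniformizer. -/
def PrimeDivisor.HasOrder (D : X.PrimeDivisor) (f : X.K) (n : ℤ) : Prop :=
  ∃ (π : D.O) (u : (D.O)ˣ), Irreducible π ∧ f = ((u : D.O) : X.K) * (π : X.K) ^ n

lemma PrimeDivisor.HasOrder.mul {D : X.PrimeDivisor} {f g : X.K} {m n : ℤ} (hf : D.HasOrder f m)
    (hg : D.HasOrder g n) : D.HasOrder (f * g) (m + n) := by
  obtain ⟨π, u, hπ, rfl⟩ := hf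
  obtain ⟨π', u', hπ', rfl⟩ := hg
  have := D.dvr
  obtain ⟨w, hw⟩ := IsDiscreteValuationRing.associated_of_irreducible D.O hπ hπ'
  have h0 : (π : X.K) ≠ 0 := fun h => hπ.ne_zero (Subtype.ext h)
  refine ⟨π, u * u' * w ^ n, hπ, ?_⟩
  have h1 : (π' : X.K) = (π : X.K) * ((w : D.O) : X.K) := by rw [← hw]; rfl
  have h2 : (((w ^ n : (D.O)ˣ) : D.O) : X.K) = ((w : D.O) : X.K) ^ n := by
    have h3 := congrArg Units.val (map_zpow (Units.map (D.O.subtype : D.O →* X.K)) w n)
    rw [Units.val_zpow_eq_zpow_val] at h3
    exact h3
  rw [h1, mul_zpow, zpow_add₀ h0]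
  push_cast
  rw [h2]
  ring

lemma PrimeDivisor.HasOrder.inv {D : X.PrimeDivisor} {f : X.K} {m : ℤ} (hf : D.HasOrder f m) :
    D.HasOrder f⁻¹ (-m) := by
  obtain ⟨π, u, hπ, rfl⟩ := hf
  refine ⟨π, u⁻¹, hπ, ?_⟩
  have h1 : (((u⁻¹ : (D.O)ˣ) : D.O) : X.K) = (((u : D.O) : X.K))⁻¹ := by
    have h3 := congrArg Units.val (map_inv (Units.map (D.O.subtype : D.O →* X.K)) u)
    rw [Units.val_inv_eq_inv_val] at h3
    exact h3
  rw [h1, mul_inv, zpow_neg]

lemma PrimeDivisor.hasOrder_one (D : X.PrimeDivisor) : D.HasOrder 1 0 := by
  have := D.dvr
  obtain ⟨π, hπ⟩ := IsDiscreteValuationRing.exists_irreducible D.O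
  exact ⟨π, 1, hπ, by simp⟩

variable (X)

/-- The group of principal divisors: the divisors `div f = ∑ ord_D(f) D` of the nonzero rational
functions `f`, inside the group `X.PrimeDivisor →₀ ℤ` of all (Weil) divisors. -/
def principal : AddSubgroup (X.PrimeDivisor →₀ ℤ) where
  carrier := {Z | ∃ f : X.K, f ≠ 0 ∧ ∀ D : X.PrimeDivisor, D.HasOrder f (Z D)}
  add_mem' := by
    rintro Z W ⟨f, hf, h⟩ ⟨g, hg, h'⟩
    exact ⟨f * g, mul_ne_zero hf hg, fun D => (h D).mul (h' D)⟩
  zero_mem' := ⟨1, one_ne_zero, fun D => D.hasOrder_one⟩
  neg_mem' := by
    rintro Z ⟨f, hf, h⟩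
    exact ⟨f⁻¹, inv_ne_zero hf, fun D => (h D).inv⟩

/-- The Picard group of `X`: as `X` is smooth, this is the group of divisors modulo the
principal divisors. -/
abbrev Pic : Type := (X.PrimeDivisor →₀ ℤ) ⧸ X.principal

/-! ### Projective embeddings, linear subspaces and normal bundles -/

/-- A closed embedding of `X` into the projective space `ℙ^N`, given by the homogeneous coordinates
`s_0, ..., s_N` of its generic point. At every point `A` of `X` some `s_i` generates the `s_j`, so
that `A ↦ (s_0 : ... : s_N)` is a morphism, and the local ring `A` is the local ring at the image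
point of the affine variety with coordinate ring `ℂ[s_0/s_i, ..., s_N/s_i]`, which is the part
`x_i ≠ 0` of the closure of the image. (Since `X` is complete, the morphism maps `X`
isomorphically onto this closure.) -/
structure Embedding (N : ℕ) where
  /-- homogeneous coordinates -/
  s : Fin (N + 1) → X.K
  closed : ∀ A ∈ X.points, ∃ i, s i ≠ 0 ∧ (∀ j, s j / s i ∈ A) ∧
    ∀ f ∈ A, ∃ a ∈ Algebra.adjoin ℂ (Set.range fun j => s j / s i),
      ∃ b ∈ Algebra.adjoin ℂ (Set.range fun j => s j / s i), b ≠ 0 ∧ b⁻¹ ∈ A ∧ f = a / b

namespace Embedding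

variable {X} {N : ℕ} (e : X.Embedding N)

/-- The linear subspace `ℙ(V)` of `ℙ^N` is contained in (the image of) `X`: every homogeneous
polynomial which vanishes on `X`, i.e. at the generic point `(s_0 : ... : s_N)` of `X`, vanishes
on `V`. -/
def ContainsLinear (V : Submodule ℂ (Fin (N + 1) → ℂ)) : Prop :=
  ∀ (F : MvPolynomial (Fin (N + 1)) ℂ) (d : ℕ), F.IsHomogeneous d →
    MvPolynomial.aeval e.s F = 0 → ∀ v ∈ V, MvPolynomial.eval v F = 0

/-- The closed point `y` of the chart `i` (a homomorphism `y` from the coordinate ring of the
chart to `ℂ`, the evaluation of functions at the point) is mapped to the point of `ℙ^N` with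
homogeneous coordinates `v`. -/
def IsImage {i : X.ι} (y : X.Coord i →ₐ[ℂ] ℂ) (v : Fin (N + 1) → ℂ) : Prop :=
  ∃ k, v k ≠ 0 ∧ ∀ j, ∃ a b : X.Coord i, y b ≠ 0 ∧ e.s j * X.toK b = X.toK a * e.s k ∧
    v j * y b = y a * v k

/-- The ideal, in the coordinate ring of the chart `i`, of the linear subspace `ℙ(V)` (contained in
`X`): all functions which vanish at all closed points of the chart lying on `ℙ(V)`. -/
def linIdeal (V : Submodule ℂ (Fin (N + 1) → ℂ)) (i : X.ι) : Ideal (X.Coord i) :=
  sInf {m | ∃ y : X.Coord i →ₐ[ℂ] ℂ, (∃ v ∈ V, e.IsImage y v) ∧ m = RingHom.ker y}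

end Embedding

/-- Let `I` be the ideal sheaf of a smooth closed subvariety `Λ` of codimension `r` in `X`, given by
its ideals `I i` in the charts. The conormal bundle `I / I²` of `Λ` in `X` (a vector bundle of
rank `r` on `Λ`), equivalently its dual, the normal bundle, is trivial: there are `r` global
sections of `I / I²` which generate it (and hence form a basis). A global section is a
family of elements of the modules `I i / (I i)²`, represented by `g i k`, which agree on the
intersections of two charts. -/
def TrivialConormal (I : ∀ i, Ideal (X.Coord i)) (r : ℕ) : Prop :=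
  ∃ g : ∀ i, Fin r → X.Coord i,
    (∀ i k, g i k ∈ I i) ∧
    (∀ i, I i ≤ Ideal.span (Set.range (g i)) ⊔ (I i) ^ 2) ∧
    ∀ i j k, X.resL i j (g i k) - X.resR i j (g j k) ∈ ((I i).map (X.resL i j)) ^ 2

variable {X}

/-- The linear subspace `ℙ(V)`, contained in `X`, has trivial normal bundle in `X`. Its codimension
in `X` is `dim X - (dim V - 1)`. -/
def Embedding.TrivialNormalBundle {N : ℕ} (e : X.Embedding N)
    (V : Submodule ℂ (Fin (N + 1) → ℂ)) : Prop :=
  X.TrivialConormal (e.linIdeal V) (X.dim - (Module.finrank ℂ V - 1))

end Variety

end Pool.Agent.H945R2
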