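import Mathlib
import Pool.Agent.H945R2.Defs

/-! Local rings of affine charts. -/

namespace Pool.Agent.H945R2

variable {K : Type} [Field K] [Algebra ℂ K]

/-- the maximal ideal of the local ring. -/
def locMax (R : Subalgebra ℂ K) (p : Ideal R) : Set K :=
  {z | ∃ a s : R, a ∈ p ∧ s ∉ p ∧ z * (s : K) = (a : K)}

section
variable {R : Subalgebra ℂ K} {p : Ideal R} [hp : p.IsPrime]

omit hp in
lemma ne_zero_of_not_mem {s : R} (hs : s ∉ p) : (s : K) ≠ 0 := by
  intro h
  apply hs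
  have : s = 0 := Subtype.ext h
  rw [this]
  exact p.zero_mem

lemma one_not_mem : (1 : R) ∉ p := (Ideal.ne_top_iff_one p).1 hp.ne_top

lemma coe_mem_loc (a : R) : (a : K) ∈ locRing R p := ⟨a, 1, one_not_mem, by simp⟩

lemma loc_add {x y : K} (hx : x ∈ locRing R p) (hy : y ∈ locRing R p) : x + y ∈ locRing R p := by
  obtain ⟨a, s, hs, h⟩ := hx
  obtain ⟨b, t, ht, h'⟩ := hy
  refine ⟨a * t + b * s, s * t, fun h => (hp.mem_or_mem h).elim hs ht, ?_⟩
  push_cast
  rw [← h, ← h']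
  ring

lemma loc_mul {x y : K} (hx : x ∈ locRing R p) (hy : y ∈ locRing R p) : x * y ∈ locRing R p := by
  obtain ⟨a, s, hs, h⟩ := hx
  obtain ⟨b, t, ht, h'⟩ := hy
  refine ⟨a * b, s * t, fun h => (hp.mem_or_mem h).elim hs ht, ?_⟩
  push_cast
  rw [← h, ← h']
  ring

variable (R p) in
/-- The local ring as a subalgebra. -/
def locSub : Subalgebra ℂ K where
  carrier := locRing R p
  mul_mem' := loc_mul
  add_mem' := loc_add
  algebraMap_mem' c := coe_mem_loc (algebraMap ℂ R c)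

@[simp] lemma mem_locSub {z : K} : z ∈ locSub R p ↔ z ∈ locRing R p := Iff.rfl

lemma loc_inv {a : R} (ha : a ∉ p) : (a : K)⁻¹ ∈ locRing R p :=
  ⟨1, a, ha, by rw [inv_mul_cancel₀ (ne_zero_of_not_mem ha)]; simp⟩

omit hp in
lemma locMax_sub {z : K} (hz : z ∈ locMax R p) : z ∈ locRing R p := by
  obtain ⟨a, s, _, hs, h⟩ := hz
  exact ⟨a, s, hs, h⟩

lemma locMax_add {x y : K} (hx : x ∈ locMax R p) (hy : y ∈ locMax R p) : x + y ∈ locMax R p := by
  obtain ⟨a, s, ha, hs, h⟩ := hx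
  obtain ⟨b, t, hb, ht, h'⟩ := hy
  refine ⟨a * t + b * s, s * t, p.add_mem (p.mul_mem_right _ ha) (p.mul_mem_right _ hb),
    fun h => (hp.mem_or_mem h).elim hs ht, ?_⟩
  push_cast
  rw [← h, ← h']
  ring

lemma locMax_mul {x y : K} (hx : x ∈ locRing R p) (hy : y ∈ locMax R p) : x * y ∈ locMax R p := by
  obtain ⟨a, s, hs, h⟩ := hx
  obtain ⟨b, t, hb, ht, h'⟩ := hy
  refine ⟨a * b, s * t, p.mul_mem_left _ hb, fun h => (hp.mem_or_mem h).elim hs ht, ?_⟩
  push_cast
  rw [← h, ← h']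
  ring

lemma coe_mem_locMax (a : R) : (a : K) ∈ locMax R p ↔ a ∈ p := by
  constructor
  · rintro ⟨b, s, hb, hs, h⟩
    have h1 : a * s = b := Subtype.ext (by push_cast; exact h)
    rw [← h1] at hb
    exact (hp.mem_or_mem hb).resolve_right hs
  · intro ha
    exact ⟨a, 1, ha, one_not_mem, by simp⟩

lemma one_not_mem_locMax : (1 : K) ∉ locMax R p := by
  intro h
  have : ((1 : R) : K) ∈ locMax R p := by simpa using h
  exact one_not_mem ((coe_mem_locMax 1).1 this)

/-- an element of the local ring is in the maximal ideal or a unit -/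
lemma locMax_or_unit {z : K} (hz : z ∈ locRing R p) : z ∈ locMax R p ∨ (z ≠ 0 ∧ z⁻¹ ∈ locRing R p) := by
  obtain ⟨a, s, hs, h⟩ := hz
  by_cases ha : a ∈ p
  · exact Or.inl ⟨a, s, ha, hs, h⟩
  · right
    have ha0 := ne_zero_of_not_mem ha
    have hz0 : z ≠ 0 := by
      rintro rfl
      rw [zero_mul] at h
      exact ha0 h.symm
    refine ⟨hz0, s, a, ha, ?_⟩
    rw [← h, inv_mul_cancel_left₀ hz0]

lemma unit_not_mem {z : K} (h0 : z ≠ 0) (hz : z⁻¹ ∈ locRing R p) : z ∉ locMax R p := by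
  intro h
  have := locMax_mul hz h
  rw [inv_mul_cancel₀ h0] at this
  exact one_not_mem_locMax this

lemma not_locMax_mul {x y : K} (hx : x ∈ locRing R p) (hy : y ∈ locRing R p)
    (hx' : x ∉ locMax R p) (hy' : y ∉ locMax R p) : x * y ∉ locMax R p := by
  have h1 := (locMax_or_unit hx).resolve_left hx'
  have h2 := (locMax_or_unit hy).resolve_left hy'
  refine unit_not_mem (mul_ne_zero h1.1 h2.1) ?_
  rw [mul_inv]
  exact loc_mul h1.2 h2.2

/-- Change of chart: description of the same point by another coordinate ring. -/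
lemma loc_transfer {R' : Subalgebra ℂ K} (h1 : ∀ z ∈ R', z ∈ locRing R p)
    (h2 : ∀ z ∈ R, ∃ b ∈ R', ∃ s ∈ R', s ≠ 0 ∧ s⁻¹ ∈ locRing R p ∧ z * s = b) :
    ∃ p' : Ideal R', p'.IsPrime ∧ locRing R p = locRing R' p' ∧
      ∀ b : R', b ∈ p' ↔ (b : K) ∈ locMax R p := by
  let p' : Ideal R' :=
    { carrier := {b | (b : K) ∈ locMax R p}
      add_mem' := fun {a b} ha hb => by
        show ((a + b : R') : K) ∈ locMax R p
        push_cast
        exact locMax_add ha hb
      zero_mem' := by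
        show ((0 : R') : K) ∈ locMax R p
        exact ⟨0, 1, p.zero_mem, one_not_mem, by simp⟩
      smul_mem' := fun c a ha => by
        show ((c * a : R') : K) ∈ locMax R p
        push_cast
        exact locMax_mul (h1 _ c.2) ha }
  have hmem : ∀ b : R', b ∈ p' ↔ (b : K) ∈ locMax R p := fun b => Iff.rfl
  have hprime : p'.IsPrime := by
    constructor
    · rw [Ideal.ne_top_iff_one, hmem]
      simpa using one_not_mem_locMax (R := R) (p := p)
    · intro a b hab
      rw [hmem, hmem]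
      by_contra hcon
      push Not at hcon
      rw [hmem] at hab
      push_cast at hab
      exact not_locMax_mul (h1 _ a.2) (h1 _ b.2) hcon.1 hcon.2 hab
  refine ⟨p', hprime, ?_, hmem⟩
  apply Set.Subset.antisymm
  · rintro z ⟨a, s, hs, h⟩
    obtain ⟨b1, hb1, s1, hs1, hs10, hs1i, e1⟩ := h2 a a.2
    obtain ⟨b2, hb2, s2, hs2, hs20, hs2i, e2⟩ := h2 s s.2
    have hs0 := ne_zero_of_not_mem hs
    refine ⟨⟨b1 * s2, R'.mul_mem hb1 hs2⟩, ⟨s1 * b2, R'.mul_mem hs1 hb2⟩, ?_, ?_⟩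
    · rw [hmem]
      show s1 * b2 ∉ locMax R p
      rw [← e2]
      refine unit_not_mem (mul_ne_zero hs10 (mul_ne_zero hs0 hs20)) ?_
      rw [mul_inv, mul_inv]
      exact loc_mul hs1i (loc_mul (loc_inv hs) hs2i)
    · show z * (s1 * b2) = b1 * s2
      rw [← e1, ← e2, ← h]
      ring
  · rintro z ⟨b, s, hs, h⟩
    rw [hmem] at hs
    obtain ⟨h0, hi⟩ := (locMax_or_unit (h1 _ s.2)).resolve_left hs
    have : z = (b : K) * (s : K)⁻¹ := by
      rw [← h, mul_inv_cancel_right₀ h0]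
    rw [this]
    exact loc_mul (h1 _ b.2) hi

end

end Pool.Agent.H945R2
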