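import Mathlib
import Pool.Agent.H945R2.Loc

/-! Discrete valuation rings attached to prime elements of factorial charts. -/

namespace Pool.Agent.H945R2

variable {K : Type} [Field K] [Algebra ℂ K]

lemma span_prime {R : Subalgebra ℂ K} {π : R} (hπ : Prime π) : (Ideal.span {π}).IsPrime :=
  (Ideal.span_singleton_prime hπ.ne_zero).2 hπ

/-- If the local ring of a factorial chart at `p` is a discrete valuation ring, then `p` is
generated by any prime element in it. -/
lemma dvr_unique {R : Subalgebra ℂ K} {p : Ideal R} [hp : p.IsPrime] (O : ValuationSubring K)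
    (hd : IsDiscreteValuationRing O) (hO : (O : Set K) = locRing R p) {π : R} (hπ : Prime π)
    (hπp : π ∈ p) : p = Ideal.span {π} := by
  apply le_antisymm
  · intro f hf
    rw [Ideal.mem_span_singleton]
    by_cases hf0 : f = 0
    · rw [hf0]; exact dvd_zero _
    obtain ⟨ϖ, hϖ⟩ := IsDiscreteValuationRing.exists_irreducible O
    have hmem : ∀ g : R, (g : K) ∈ O := fun g => by
      rw [← SetLike.mem_coe, hO]
      exact coe_mem_loc g
    have hunit : ∀ (g : R) (hg : g ∈ p), ¬ IsUnit (⟨(g : K), hmem g⟩ : O) := by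
      intro g hg hu
      obtain ⟨w, hw⟩ := hu.exists_right_inv
      have h1 : (g : K) * (w : K) = 1 := congrArg Subtype.val hw
      have hw' : (w : K) ∈ locRing R p := by
        rw [← hO]; exact w.2
      have h2 := locMax_mul hw' ((coe_mem_locMax g).2 hg)
      rw [mul_comm, h1] at h2
      exact one_not_mem_locMax h2
    have hne : ∀ g : R, g ≠ 0 → (⟨(g : K), hmem g⟩ : O) ≠ 0 := by
      intro g hg h
      apply hg
      have : (g : K) = 0 := congrArg Subtype.val h
      exact Subtype.ext this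
    obtain ⟨a, u, hu⟩ := IsDiscreteValuationRing.eq_unit_mul_pow_irreducible (hne f hf0) hϖ
    obtain ⟨b, v, hv⟩ := IsDiscreteValuationRing.eq_unit_mul_pow_irreducible (hne π hπ.ne_zero) hϖ
    have ha : a ≠ 0 := by
      rintro rfl
      apply hunit f hf
      rw [hu, pow_zero, mul_one]
      exact u.isUnit
    have hb : b ≠ 0 := by
      rintro rfl
      apply hunit π hπp
      rw [hv, pow_zero, mul_one]
      exact v.isUnit
    have h1 : (⟨(f : K), hmem f⟩ : O) ^ b = (⟨(π : K), hmem π⟩ : O) ^ a * ((u ^ b * (v ^ a)⁻¹ : Oˣ) : O) := by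
      rw [hu, hv]
      have : ((v ^ a * (v ^ a)⁻¹ : Oˣ) : O) = 1 := by simp
      calc ((u : O) * ϖ ^ a) ^ b = (u : O) ^ b * ϖ ^ (a * b) * ((v ^ a * (v ^ a)⁻¹ : Oˣ) : O) := by
            rw [this]; ring
        _ = ((v : O) * ϖ ^ b) ^ a * ((u ^ b * (v ^ a)⁻¹ : Oˣ) : O) := by
            push_cast; ring
    obtain ⟨c, s, hs, hcs⟩ : (((u ^ b * (v ^ a)⁻¹ : Oˣ) : O) : K) ∈ locRing R p := by
      rw [← hO]; exact Subtype.property _
    have h2 : f ^ b * s = π ^ a * c := by
      apply Subtype.ext
      have h3 := congrArg (Subtype.val : O → K) h1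
      push_cast at h3 ⊢
      rw [← hcs]
      have h4 : (f : K) ^ b = (π : K) ^ a * (((u ^ b * (v ^ a)⁻¹ : Oˣ) : O) : K) := by
        simpa using h3
      rw [h4]
      ring
    have h3 : π ∣ f ^ b * s := by
      rw [h2]
      exact (dvd_pow_self π ha).mul_right c
    rcases hπ.dvd_or_dvd h3 with h4 | h4
    · exact hπ.dvd_of_dvd_pow h4
    · exfalso
      obtain ⟨w, hw⟩ := h4
      apply hs
      rw [hw]
      exact p.mul_mem_right _ hπp
  · rw [Ideal.span_singleton_le_iff_mem]
    exact hπp

section mk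

variable {R : Subalgebra ℂ K} [UniqueFactorizationMonoid R] {π : R} (hπ : Prime π)
  (hfrac : ∀ z : K, ∃ a b : R, b ≠ 0 ∧ z * b = a)
include hπ hfrac

lemma exists_order {z : K} (hz : z ≠ 0) : ∃ (n : ℤ) (a b : R), ¬ π ∣ a ∧ ¬ π ∣ b ∧
    z * b = a * (π : K) ^ n := by
  obtain ⟨a, b, hb, h⟩ := hfrac z
  have ha : a ≠ 0 := by
    rintro rfl
    rw [ZeroMemClass.coe_zero, mul_eq_zero] at h
    rcases h with h | h
    · exact hz h
    · exact hb (Subtype.ext h)
  have hπ0 : (π : K) ≠ 0 := fun h => hπ.ne_zero (Subtype.ext h)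
  obtain ⟨a', ha', ha''⟩ := (FiniteMultiplicity.of_prime_left hπ ha).exists_eq_pow_mul_and_not_dvd
  obtain ⟨b', hb', hb''⟩ := (FiniteMultiplicity.of_prime_left hπ hb).exists_eq_pow_mul_and_not_dvd
  refine ⟨(multiplicity π a : ℤ) - multiplicity π b, a', b', ha'', hb'', ?_⟩
  have h1 : (a : K) = (π : K) ^ (multiplicity π a) * a' := by
    have := congrArg (Subtype.val : R → K) ha'
    simpa using this
  have h2 : (b : K) = (π : K) ^ (multiplicity π b) * b' := by
    have := congrArg (Subtype.val : R → K) hb'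
    simpa using this
  rw [h1, h2] at h
  rw [zpow_sub₀ hπ0, zpow_natCast, zpow_natCast]
  have h3 : (π : K) ^ (multiplicity π b) ≠ 0 := pow_ne_zero _ hπ0
  rw [mul_div_assoc', eq_div_iff h3]
  linear_combination h

omit [UniqueFactorizationMonoid R] hπ hfrac in
lemma mem_loc_of_order {z : K} {n : ℕ} {a b : R} (hb : ¬ π ∣ b) (h : z * b = a * (π : K) ^ n) :
    z ∈ locRing R (Ideal.span {π}) := by
  refine ⟨a * π ^ n, b, ?_, ?_⟩
  · rwa [Ideal.mem_span_singleton]
  · push_cast
    exact h

/-- The valuation ring of a prime element. -/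
def mkO : ValuationSubring K where
  carrier := locRing R (Ideal.span {π})
  mul_mem' := by
    have := span_prime hπ
    intro a b ha hb
    exact loc_mul (p := Ideal.span {π}) ha hb
  one_mem' := by
    have := span_prime hπ
    have h1 := coe_mem_loc (p := Ideal.span {π}) (1 : R)
    simpa using h1
  add_mem' := by
    have := span_prime hπ
    intro a b ha hb
    exact loc_add (p := Ideal.span {π}) ha hb
  zero_mem' := by
    have := span_prime hπ
    have := coe_mem_loc (p := Ideal.span {π}) (0 : R)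
    simpa using this
  neg_mem' := by
    rintro z ⟨a, s, hs, h⟩
    exact ⟨-a, s, hs, by push_cast; rw [← h]; ring⟩
  mem_or_inv_mem' := by
    intro z
    by_cases hz : z = 0
    · left
      rw [hz]
      have := span_prime hπ
      have := coe_mem_loc (p := Ideal.span {π}) (0 : R)
      simpa using this
    have hπ0 : (π : K) ≠ 0 := fun h => hπ.ne_zero (Subtype.ext h)
    obtain ⟨n, a, b, ha, hb, h⟩ := exists_order hπ hfrac hz
    rcases le_total 0 n with hn | hn
    · left
      obtain ⟨m, rfl⟩ := Int.eq_ofNat_of_zero_le hn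
      exact mem_loc_of_order hb (by simpa using h)
    · right
      obtain ⟨m, hm⟩ := Int.eq_ofNat_of_zero_le (neg_nonneg.2 hn)
      refine mem_loc_of_order (n := m) (a := b) ha ?_
      have h1 : (π : K) ^ m = (π : K) ^ (-n) := by rw [hm]; simp
      have h2 : (π : K) ^ n ≠ 0 := zpow_ne_zero _ hπ0
      rw [h1, zpow_neg, ← div_eq_mul_inv, eq_div_iff h2, mul_assoc, ← h, inv_mul_cancel_left₀ hz]

lemma coe_mkO : (mkO hπ hfrac : Set K) = locRing R (Ideal.span {π}) := rfl

lemma mem_mkO {z : K} : z ∈ mkO hπ hfrac ↔ z ∈ locRing R (Ideal.span {π}) := Iff.rfl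

lemma mkO_dvr : IsDiscreteValuationRing (mkO hπ hfrac) := by
  have hpr := span_prime hπ
  have hπ0 : (π : K) ≠ 0 := fun h => hπ.ne_zero (Subtype.ext h)
  let ϖ : mkO hπ hfrac := ⟨(π : K), coe_mem_loc (p := Ideal.span {π}) π⟩
  have hunit : ∀ z : mkO hπ hfrac, (z : K) ∉ locMax R (Ideal.span {π}) → IsUnit z := by
    intro z hz
    obtain ⟨h0, hi⟩ := (locMax_or_unit z.2).resolve_left hz
    exact IsUnit.of_mul_eq_one ⟨(z : K)⁻¹, hi⟩ (Subtype.ext (mul_inv_cancel₀ h0))
  have hnu : ∀ z : mkO hπ hfrac, IsUnit z → (z : K) ∉ locMax R (Ideal.span {π}) := by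
    intro z hz
    obtain ⟨w, hw⟩ := hz.exists_right_inv
    have h1 : (z : K) * (w : K) = 1 := congrArg Subtype.val hw
    intro h2
    have h3 := locMax_mul w.2 h2
    rw [mul_comm, h1] at h3
    exact one_not_mem_locMax h3
  have hϖm : (ϖ : K) ∈ locMax R (Ideal.span {π}) :=
    (coe_mem_locMax π).2 (Ideal.mem_span_singleton_self π)
  have key : ∀ {x : mkO hπ hfrac}, x ≠ 0 → ∃ n : ℕ, Associated (ϖ ^ n) x := by
    intro x hx
    have hx0 : (x : K) ≠ 0 := fun h => hx (Subtype.ext h)
    obtain ⟨n, a, b, ha, hb, h⟩ := exists_order hπ hfrac hx0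
    have hn : 0 ≤ n := by
      by_contra hn
      push Not at hn
      obtain ⟨m, hm⟩ := Int.eq_ofNat_of_zero_le (neg_nonneg.2 hn.le)
      have h1 : (x : K) * b * (π : K) ^ m = a := by
        have : (π : K) ^ m = (π : K) ^ (-n) := by rw [hm]; simp
        rw [this, h, mul_assoc, ← zpow_add₀ hπ0, add_neg_cancel, zpow_zero, mul_one]
      have h2 : (a : K) ∈ locMax R (Ideal.span {π}) := by
        rw [← h1]
        refine locMax_mul (loc_mul x.2 (coe_mem_loc b)) ?_
        obtain ⟨k, rfl⟩ : ∃ k, m = k + 1 := ⟨m - 1, by omega⟩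
        rw [pow_succ]
        refine locMax_mul ?_ hϖm
        have := coe_mem_loc (p := Ideal.span {π}) (π ^ k)
        simpa using this
      rw [coe_mem_locMax, Ideal.mem_span_singleton] at h2
      exact ha h2
    obtain ⟨m, rfl⟩ := Int.eq_ofNat_of_zero_le hn
    have hb' : b ∉ Ideal.span {π} := by rwa [Ideal.mem_span_singleton]
    have ha' : a ∉ Ideal.span {π} := by rwa [Ideal.mem_span_singleton]
    have hb0 := ne_zero_of_not_mem hb'
    have ha0 := ne_zero_of_not_mem ha'
    let w : mkO hπ hfrac := ⟨(a : K) * (b : K)⁻¹, loc_mul (coe_mem_loc a) (loc_inv hb')⟩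
    have hw : IsUnit w := by
      refine IsUnit.of_mul_eq_one ⟨(a : K)⁻¹ * (b : K), loc_mul (loc_inv ha') (coe_mem_loc b)⟩
        (Subtype.ext ?_)
      show (a : K) * (b : K)⁻¹ * ((a : K)⁻¹ * (b : K)) = 1
      field_simp
    refine ⟨m, hw.unit, Subtype.ext ?_⟩
    show (π : K) ^ m * ((a : K) * (b : K)⁻¹) = x
    rw [zpow_natCast] at h
    field_simp
    linear_combination -h
  have hirr : Irreducible ϖ := by
    constructor
    · intro hu
      exact hnu ϖ hu hϖm
    · intro x y hxy
      by_contra hcon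
      push Not at hcon
      have hx : (x : K) ∈ locMax R (Ideal.span {π}) := by
        by_contra h
        exact hcon.1 (hunit x h)
      have hy : (y : K) ∈ locMax R (Ideal.span {π}) := by
        by_contra h
        exact hcon.2 (hunit y h)
      obtain ⟨a, s, ha, hs, h⟩ := hx
      obtain ⟨b, t, hb, ht, h'⟩ := hy
      have hxy' : (π : K) = x * y := congrArg Subtype.val hxy
      have h1 : π * (s * t) = a * b := by
        apply Subtype.ext
        push_cast
        rw [← h, ← h', hxy']
        ring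
      rw [Ideal.mem_span_singleton] at ha hb
      obtain ⟨a', rfl⟩ := ha
      obtain ⟨b', rfl⟩ := hb
      have h2 : s * t = π * (a' * b') := by
        apply mul_left_cancel₀ hπ.ne_zero
        rw [h1]; ring
      have h3 : s * t ∈ Ideal.span {π} := by
        rw [Ideal.mem_span_singleton]
        exact ⟨_, h2⟩
      exact (hpr.mem_or_mem h3).elim hs ht
  exact IsDiscreteValuationRing.ofHasUnitMulPowIrreducibleFactorization ⟨ϖ, hirr, key⟩

end mk

end Pool.Agent.H945R2
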