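import Mathlib
import Pool.Agent.H945R2.Alg

/-! Jacobian determinants of the moves. -/

namespace Pool.Agent.H945R2

variable {K : Type} [Field K] [Algebra ℂ K] (der : Fin 6 → Derivation ℂ K K)

/-- the Jacobian of `t` with respect to the vector fields `der`. -/
noncomputable def jacD (t : Fin 6 → K) : K := Matrix.det (Matrix.of fun i j => der i (t j))

lemma jac_step (t t' : Fin 6 → K) (j : Fin 6) (c : Fin 6 → K) (h1 : ∀ k, k ≠ j → t' k = t k)
    (h2 : ∀ D : Derivation ℂ K K, D (t' j) = ∑ k, c k * D (t k)) :
    jacD der t' = c j * jacD der t := by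
  have h3 : (Matrix.of fun i k => der i (t' k)) =
      (Matrix.of fun i k => der i (t k)).updateCol j
        (fun i => ∑ k, c k • (Matrix.of fun i k => der i (t k)) i k) := by
    ext i k
    by_cases hk : k = j
    · subst hk
      simp [h2]
    · rw [Matrix.updateCol_ne hk]
      simp [h1 k hk]
  rw [jacD, h3, Matrix.det_updateCol_sum]
  rfl

lemma jac_perm (t : Fin 6 → K) (σ : Equiv.Perm (Fin 6)) :
    jacD der (fun k => t (σ k)) = ((Equiv.Perm.sign σ : ℤ) : K) * jacD der t := by
  have := Matrix.det_permute' σ (Matrix.of fun i k => der i (t k))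
  rw [jacD, jacD, ← this]
  rfl

end Pool.Agent.H945R2
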