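import Mathlib
import Pool.Agent.H945R2.Jac
namespace Pool.Agent.H945R2
variable {K : Type} [Field K] [Algebra ℂ K] (der : Fin 6 → Derivation ℂ K K)

lemma D_pp (D : Derivation ℂ K K) (x : Fin 6 → K) : D (pp x) =
    (x 3 - x 5) * D (x 0) + (-x 2) * D (x 1) + (2 * x 2 - x 1) * D (x 2) + x 0 * D (x 3)
      + (-x 0) * D (x 5) := by
  simp only [pp, map_sub, map_add, Derivation.leibniz, Derivation.leibniz_pow, smul_eq_mul,
    nsmul_eq_mul]
  push_cast
  ring

lemma D_qq (D : Derivation ℂ K K) (x : Fin 6 → K) : D (qq x) =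
    x 4 * D (x 0) + (-x 3) * D (x 2) + (-x 2) * D (x 3) + x 0 * D (x 4) := by
  simp only [qq, map_sub, map_add, Derivation.leibniz, Derivation.leibniz_pow, smul_eq_mul,
    nsmul_eq_mul]
  ring

lemma jac_mD (x : Fin 6 → K) (h : x 0 ≠ 0) : jacD der (mD x) = -(1 / x 0 ^ 3) * jacD der x := by
  have s1 := jac_step der x ![x 0, x 1, x 2, x 3, qq x - x 2 * pp x / x 0, x 5] 4
    ![x 4 - x 2 * ((x 3 - x 5) * x 0 - pp x) / x 0 ^ 2, x 2 ^ 2 / x 0,
      -x 3 - (pp x + x 2 * (2 * x 2 - x 1)) / x 0, -2 * x 2, x 0, x 2]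
    (by intro k hk; fin_cases k <;> simp_all)
    (by
      intro D
      simp only [Matrix.cons_val, Fin.sum_univ_six, map_sub, Derivation.leibniz_div, Derivation.leibniz,
        D_pp, D_qq, smul_eq_mul]
      field_simp
      ring)
  have s2 := jac_step der ![x 0, x 1, x 2, x 3, qq x - x 2 * pp x / x 0, x 5]
    ![x 0, x 1, x 2, pp x / x 0, qq x - x 2 * pp x / x 0, x 5] 3
    ![((x 3 - x 5) * x 0 - pp x) / x 0 ^ 2, -x 2 / x 0, (2 * x 2 - x 1) / x 0, 1, 0, -1]
    (by intro k hk; fin_cases k <;> simp_all)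
    (by
      intro D
      simp only [Matrix.cons_val, Fin.sum_univ_six, map_sub, Derivation.leibniz_div, Derivation.leibniz,
        D_pp, D_qq, smul_eq_mul]
      field_simp
      ring)
  have s3 := jac_step der ![x 0, x 1, x 2, pp x / x 0, qq x - x 2 * pp x / x 0, x 5]
    ![x 0, x 1, x 2, pp x / x 0, qq x - x 2 * pp x / x 0, x 2 ^ 2 / x 0 - x 5] 5
    ![-x 2 ^ 2 / x 0 ^ 2, 0, 2 * x 2 / x 0, 0, 0, -1]
    (by intro k hk; fin_cases k <;> simp_all)
    (by
      intro D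
      simp only [Matrix.cons_val, Fin.sum_univ_six, map_sub, Derivation.leibniz_div, Derivation.leibniz,
        Derivation.leibniz_pow, D_pp, D_qq, smul_eq_mul, nsmul_eq_mul]
      field_simp
      push_cast
      ring)
  have s4 := jac_step der ![x 0, x 1, x 2, pp x / x 0, qq x - x 2 * pp x / x 0, x 2 ^ 2 / x 0 - x 5]
    ![x 0, (x 1 - x 2) / x 0, x 2, pp x / x 0, qq x - x 2 * pp x / x 0, x 2 ^ 2 / x 0 - x 5] 1
    ![-(x 1 - x 2) / x 0 ^ 2, 1 / x 0, -1 / x 0, 0, 0, 0]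
    (by intro k hk; fin_cases k <;> simp_all)
    (by
      intro D
      simp only [Matrix.cons_val, Fin.sum_univ_six, map_sub, Derivation.leibniz_div, Derivation.leibniz,
        Derivation.leibniz_pow, D_pp, D_qq, smul_eq_mul, nsmul_eq_mul]
      field_simp
      ring)
  have s5 := jac_step der
    ![x 0, (x 1 - x 2) / x 0, x 2, pp x / x 0, qq x - x 2 * pp x / x 0, x 2 ^ 2 / x 0 - x 5]
    ![x 0, (x 1 - x 2) / x 0, -x 2 / x 0, pp x / x 0, qq x - x 2 * pp x / x 0, x 2 ^ 2 / x 0 - x 5] 2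
    ![x 2 / x 0 ^ 2, 0, -1 / x 0, 0, 0, 0]
    (by intro k hk; fin_cases k <;> simp_all)
    (by
      intro D
      simp only [Matrix.cons_val, Fin.sum_univ_six, map_sub, map_neg, Derivation.leibniz_div, Derivation.leibniz,
        Derivation.leibniz_pow, D_pp, D_qq, smul_eq_mul, nsmul_eq_mul]
      field_simp
      ring)
  have s6 := jac_step der
    ![x 0, (x 1 - x 2) / x 0, -x 2 / x 0, pp x / x 0, qq x - x 2 * pp x / x 0, x 2 ^ 2 / x 0 - x 5]
    (mD x) 0 ![-1 / x 0 ^ 2, 0, 0, 0, 0, 0]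
    (by intro k hk; fin_cases k <;> simp_all [mD])
    (by
      intro D
      simp only [mD, Matrix.cons_val, Fin.sum_univ_six, map_sub, map_neg, Derivation.leibniz_div, Derivation.leibniz,
        Derivation.map_one_eq_zero, smul_eq_mul, nsmul_eq_mul]
      field_simp
      ring)
  rw [s6, s5, s4, s3, s2, s1]
  simp only [Matrix.cons_val]
  field_simp

/-- auxiliary coordinates. -/
def mC (x : Fin 6 → K) : Fin 6 → K :=
  ![1 / x 0, -x 1 / x 0, x 1 + x 2, x 1 * x 2 - x 0 * x 3 - pp x, x 0 * qq x - pp x * x 2,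
    -pp x / x 0]

lemma jac_mC (x : Fin 6 → K) (h : x 0 ≠ 0) : jacD der (mC x) = -jacD der x := by
  have s1 := jac_step der x ![x 0, x 1, x 2, x 3, x 4, pp x] 5
    ![x 3 - x 5, -x 2, 2 * x 2 - x 1, x 0, 0, -x 0]
    (by intro k hk; fin_cases k <;> simp_all)
    (by
      intro D
      simp only [Matrix.cons_val, Fin.sum_univ_six, D_pp]
      ring)
  have s2 := jac_step der ![x 0, x 1, x 2, x 3, x 4, pp x]
    ![x 0, x 1, x 2, x 3, x 0 * qq x - pp x * x 2, pp x] 4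
    ![qq x + x 0 * x 4, 0, -x 0 * x 3 - pp x, -x 0 * x 2, x 0 ^ 2, -x 2]
    (by intro k hk; fin_cases k <;> simp_all)
    (by
      intro D
      simp only [Matrix.cons_val, Fin.sum_univ_six, map_sub, Derivation.leibniz, D_qq, smul_eq_mul]
      ring)
  have s3 := jac_step der ![x 0, x 1, x 2, x 3, x 0 * qq x - pp x * x 2, pp x]
    ![x 0, x 1, x 2, x 1 * x 2 - x 0 * x 3 - pp x, x 0 * qq x - pp x * x 2, pp x] 3
    ![-x 3, x 2, x 1, -x 0, 0, -1]
    (by intro k hk; fin_cases k <;> simp_all)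
    (by
      intro D
      simp only [Matrix.cons_val, Fin.sum_univ_six, map_sub, Derivation.leibniz, smul_eq_mul]
      ring)
  have s4 := jac_step der
    ![x 0, x 1, x 2, x 1 * x 2 - x 0 * x 3 - pp x, x 0 * qq x - pp x * x 2, pp x]
    ![x 0, x 1, x 1 + x 2, x 1 * x 2 - x 0 * x 3 - pp x, x 0 * qq x - pp x * x 2, pp x] 2
    ![0, 1, 1, 0, 0, 0]
    (by intro k hk; fin_cases k <;> simp_all)
    (by
      intro D
      simp only [Matrix.cons_val, Fin.sum_univ_six, map_add]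
      ring)
  have s5 := jac_step der
    ![x 0, x 1, x 1 + x 2, x 1 * x 2 - x 0 * x 3 - pp x, x 0 * qq x - pp x * x 2, pp x]
    ![x 0, x 1, x 1 + x 2, x 1 * x 2 - x 0 * x 3 - pp x, x 0 * qq x - pp x * x 2, -pp x / x 0] 5
    ![pp x / x 0 ^ 2, 0, 0, 0, 0, -1 / x 0]
    (by intro k hk; fin_cases k <;> simp_all)
    (by
      intro D
      simp only [Matrix.cons_val, Fin.sum_univ_six, map_neg, Derivation.leibniz_div, smul_eq_mul]
      field_simp
      ring)
  have s6 := jac_step der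
    ![x 0, x 1, x 1 + x 2, x 1 * x 2 - x 0 * x 3 - pp x, x 0 * qq x - pp x * x 2, -pp x / x 0]
    ![x 0, -x 1 / x 0, x 1 + x 2, x 1 * x 2 - x 0 * x 3 - pp x, x 0 * qq x - pp x * x 2,
      -pp x / x 0] 1
    ![x 1 / x 0 ^ 2, -1 / x 0, 0, 0, 0, 0]
    (by intro k hk; fin_cases k <;> simp_all)
    (by
      intro D
      simp only [Matrix.cons_val, Fin.sum_univ_six, map_neg, Derivation.leibniz_div, smul_eq_mul]
      field_simp
      ring)
  have s7 := jac_step der
    ![x 0, -x 1 / x 0, x 1 + x 2, x 1 * x 2 - x 0 * x 3 - pp x, x 0 * qq x - pp x * x 2,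
      -pp x / x 0]
    (mC x) 0
    ![-1 / x 0 ^ 2, 0, 0, 0, 0, 0]
    (by intro k hk; fin_cases k <;> simp_all [mC])
    (by
      intro D
      simp only [mC, Matrix.cons_val, Fin.sum_univ_six, Derivation.leibniz_div,
        Derivation.map_one_eq_zero, smul_eq_mul]
      field_simp
      ring)
  rw [s7, s6, s5, s4, s3, s2, s1]
  simp only [Matrix.cons_val]
  field_simp

/-- auxiliary rational map. -/
def mE (u : Fin 6 → K) : Fin 6 → K :=
  ![u 4 * u 0, u 5 - u 3 * u 0, u 3 / u 4, u 2 / u 4, 1 / u 4, u 1 + u 2 * u 0]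

lemma jac_mE (u : Fin 6 → K) (h : u 4 ≠ 0) : jacD der (mE u) = -(1 / u 4 ^ 3) * jacD der u := by
  have s1 := jac_step der u ![u 0, u 1, u 2, u 3, u 4, u 5 - u 3 * u 0] 5
    ![-u 3, 0, 0, -u 0, 0, 1]
    (by intro k hk; fin_cases k <;> simp_all)
    (by
      intro D
      simp only [Matrix.cons_val, Fin.sum_univ_six, map_sub, Derivation.leibniz, smul_eq_mul]
      ring)
  have s2 := jac_step der ![u 0, u 1, u 2, u 3, u 4, u 5 - u 3 * u 0]
    ![u 0, u 1 + u 2 * u 0, u 2, u 3, u 4, u 5 - u 3 * u 0] 1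
    ![u 2, 1, u 0, 0, 0, 0]
    (by intro k hk; fin_cases k <;> simp_all)
    (by
      intro D
      simp only [Matrix.cons_val, Fin.sum_univ_six, map_add, Derivation.leibniz, smul_eq_mul]
      ring)
  have s3 := jac_step der ![u 0, u 1 + u 2 * u 0, u 2, u 3, u 4, u 5 - u 3 * u 0]
    ![u 4 * u 0, u 1 + u 2 * u 0, u 2, u 3, u 4, u 5 - u 3 * u 0] 0
    ![u 4, 0, 0, 0, u 0, 0]
    (by intro k hk; fin_cases k <;> simp_all)
    (by
      intro D
      simp only [Matrix.cons_val, Fin.sum_univ_six, Derivation.leibniz, smul_eq_mul]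
      ring)
  have s4 := jac_step der ![u 4 * u 0, u 1 + u 2 * u 0, u 2, u 3, u 4, u 5 - u 3 * u 0]
    ![u 4 * u 0, u 1 + u 2 * u 0, u 2 / u 4, u 3, u 4, u 5 - u 3 * u 0] 2
    ![0, 0, 1 / u 4, 0, -u 2 / u 4 ^ 2, 0]
    (by intro k hk; fin_cases k <;> simp_all)
    (by
      intro D
      simp only [Matrix.cons_val, Fin.sum_univ_six, Derivation.leibniz_div, smul_eq_mul]
      field_simp
      ring)
  have s5 := jac_step der ![u 4 * u 0, u 1 + u 2 * u 0, u 2 / u 4, u 3, u 4, u 5 - u 3 * u 0]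
    ![u 4 * u 0, u 1 + u 2 * u 0, u 2 / u 4, u 3 / u 4, u 4, u 5 - u 3 * u 0] 3
    ![0, 0, 0, 1 / u 4, -u 3 / u 4 ^ 2, 0]
    (by intro k hk; fin_cases k <;> simp_all)
    (by
      intro D
      simp only [Matrix.cons_val, Fin.sum_univ_six, Derivation.leibniz_div, smul_eq_mul]
      field_simp
      ring)
  have s6 := jac_step der ![u 4 * u 0, u 1 + u 2 * u 0, u 2 / u 4, u 3 / u 4, u 4, u 5 - u 3 * u 0]
    ![u 4 * u 0, u 1 + u 2 * u 0, u 2 / u 4, u 3 / u 4, 1 / u 4, u 5 - u 3 * u 0] 4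
    ![0, 0, 0, 0, -1 / u 4 ^ 2, 0]
    (by intro k hk; fin_cases k <;> simp_all)
    (by
      intro D
      simp only [Matrix.cons_val, Fin.sum_univ_six, Derivation.leibniz_div,
        Derivation.map_one_eq_zero, smul_eq_mul]
      field_simp
      ring)
  have s7 := jac_perm der ![u 4 * u 0, u 1 + u 2 * u 0, u 2 / u 4, u 3 / u 4, 1 / u 4, u 5 - u 3 * u 0]
    (Equiv.swap 1 5 * Equiv.swap 2 3)
  have s8 : (fun k => (![u 4 * u 0, u 1 + u 2 * u 0, u 2 / u 4, u 3 / u 4, 1 / u 4, u 5 - u 3 * u 0] :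
      Fin 6 → K) ((Equiv.swap 1 5 * Equiv.swap 2 3 : Equiv.Perm (Fin 6)) k)) = mE u := by
    funext k
    fin_cases k <;> rfl
  have s9 : Equiv.Perm.sign (Equiv.swap 1 5 * Equiv.swap 2 3 : Equiv.Perm (Fin 6)) = 1 := by
    decide
  rw [s8, s9] at s7
  rw [s7, s6, s5, s4, s3, s2, s1]
  simp only [Matrix.cons_val]
  push_cast
  field_simp

lemma mC_mS (x : Fin 6 → K) (N : K) (h0 : x 0 ≠ 0) (h : N ≠ 0)
    (hN : N = x 0 * qq x - pp x * x 2) : mC (mS x N) = mE (mC x) := by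
  have e1 := pp_mS x N h hN
  have e2 := qq_mS x N h hN
  have e3 := rr_mS x N h hN
  have e4 := cf_mS x N h hN 6
  have e5 := cf_mS x N h hN 3
  have e6 := cf_mS x N h hN 1
  simp only [cf, sw, Matrix.cons_val] at e4 e5 e6
  have e4' : (mS x N) 0 * qq (mS x N) - pp (mS x N) * (mS x N) 2 = 1 / N := by
    rw [eq_div_iff h, ← e4]; ring
  have e5' : (mS x N) 1 * (mS x N) 2 - (mS x N) 0 * (mS x N) 3 - pp (mS x N) = (x 1 + x 2) / N := by
    rw [eq_div_iff h, ← e5]; ring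
  have e6' : (mS x N) 1 + (mS x N) 2 = (x 1 * x 2 - x 0 * x 3 - pp x) / N := by
    rw [eq_div_iff h, ← e6]; ring
  unfold mE
  funext k
  fin_cases k
  · simp only [mC, mS, Matrix.cons_val, Fin.zero_eta]
    rw [← hN]
    field_simp
  · simp only [mC, mS, Matrix.cons_val, Fin.mk_one]
    field_simp
    ring
  · simp only [mC, Matrix.cons_val, Fin.reduceFinMk]
    rw [e6', ← hN]
  · simp only [mC, Matrix.cons_val, Fin.reduceFinMk]
    rw [e5', ← hN]
  · simp only [mC, Matrix.cons_val, Fin.reduceFinMk]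
    rw [e4', ← hN]
  · simp only [mC, Matrix.cons_val, Fin.reduceFinMk]
    rw [e1]
    simp only [mS, Matrix.cons_val]
    field_simp
    ring

lemma jac_mS (x : Fin 6 → K) (N : K) (h0 : x 0 ≠ 0) (h : N ≠ 0)
    (hN : N = x 0 * qq x - pp x * x 2) : jacD der (mS x N) = -(1 / N ^ 3) * jacD der x := by
  have h1 : (mS x N) 0 ≠ 0 := by
    simp only [mS, Matrix.cons_val]
    exact div_ne_zero h0 h
  have h2 := jac_mC der (mS x N) h1
  have h3 := jac_mE der (mC x) (by simp only [mC, Matrix.cons_val]; rw [← hN]; exact h)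
  have h4 := jac_mC der x h0
  rw [mC_mS x N h0 h hN, h3, h4] at h2
  simp only [mC, Matrix.cons_val] at h2
  rw [← hN] at h2
  linear_combination h2

lemma jac_mP (x : Fin 6 → K) : ∃ κ : ℂ, κ ≠ 0 ∧ jacD der (mP x) = algebraMap ℂ K κ * jacD der x := by
  have h1 := jac_perm der x (Equiv.swap 0 4 * Equiv.swap 1 5 * Equiv.swap 2 3)
  have h2 : (fun k => x ((Equiv.swap 0 4 * Equiv.swap 1 5 * Equiv.swap 2 3 :
      Equiv.Perm (Fin 6)) k)) = mP x := by
    funext k
    fin_cases k <;> rfl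
  rw [h2] at h1
  rcases Int.units_eq_one_or (Equiv.Perm.sign (Equiv.swap 0 4 * Equiv.swap 1 5 * Equiv.swap 2 3 :
    Equiv.Perm (Fin 6))) with h | h <;> rw [h] at h1
  · exact ⟨1, one_ne_zero, by simpa using h1⟩
  · exact ⟨-1, neg_ne_zero.2 one_ne_zero, by simpa using h1⟩

lemma jac_mT (x : Fin 6 → K) (v : Fin 3 → ℂ) (hv : v 1 ≠ 0) :
    jacD der (mT x fun i => algebraMap ℂ K (v i)) = algebraMap ℂ K (v 1 ^ 3) * jacD der x := by
  obtain ⟨a, ha⟩ : ∃ a, a = algebraMap ℂ K (v 0) := ⟨_, rfl⟩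
  obtain ⟨b, hb⟩ : ∃ b, b = algebraMap ℂ K (v 1) := ⟨_, rfl⟩
  obtain ⟨c, hc⟩ : ∃ c, c = algebraMap ℂ K (v 2) := ⟨_, rfl⟩
  have hb0 : b ≠ 0 := by
    rw [hb]
    exact (map_ne_zero _).2 hv
  have Da : ∀ D : Derivation ℂ K K, D a = 0 := fun D => by rw [ha]; exact D.map_algebraMap _
  have Db : ∀ D : Derivation ℂ K K, D b = 0 := fun D => by rw [hb]; exact D.map_algebraMap _
  have Dc : ∀ D : Derivation ℂ K K, D c = 0 := fun D => by rw [hc]; exact D.map_algebraMap _
  have D2 : ∀ D : Derivation ℂ K K, D 2 = 0 := fun D => by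
    have := D.map_natCast 2
    simpa using this
  have s1 := jac_step der x ![x 0, x 1, x 2, x 3, x 4 / b, x 5] 4
    ![0, 0, 0, 0, 1 / b, 0]
    (by intro k hk; fin_cases k <;> simp_all)
    (by
      intro D
      simp only [Matrix.cons_val, Fin.sum_univ_six, Derivation.leibniz_div, smul_eq_mul, Db]
      field_simp
      ring)
  have s2 := jac_step der ![x 0, x 1, x 2, x 3, x 4 / b, x 5]
    ![x 0, x 1, x 2, x 3, x 4 / b, x 5 - c * x 4 / b] 5
    ![0, 0, 0, 0, -c, 1]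
    (by intro k hk; fin_cases k <;> simp_all)
    (by
      intro D
      simp only [Matrix.cons_val, Fin.sum_univ_six, Derivation.leibniz_div, Derivation.leibniz, map_sub,
        smul_eq_mul, Db, Dc]
      field_simp
      ring)
  have s3 := jac_step der ![x 0, x 1, x 2, x 3, x 4 / b, x 5 - c * x 4 / b]
    ![x 0, x 1, x 2, x 3 + c * x 4 / b, x 4 / b, x 5 - c * x 4 / b] 3
    ![0, 0, 0, 1, c, 0]
    (by intro k hk; fin_cases k <;> simp_all)
    (by
      intro D
      simp only [Matrix.cons_val, Fin.sum_univ_six, Derivation.leibniz_div, Derivation.leibniz, map_add,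
        smul_eq_mul, Db, Dc]
      field_simp
      ring)
  have s4 := jac_step der ![x 0, x 1, x 2, x 3 + c * x 4 / b, x 4 / b, x 5 - c * x 4 / b]
    ![x 0, x 1, a + b * x 2 + c * x 5 - c * (x 3 + c * x 4 / b), x 3 + c * x 4 / b, x 4 / b,
      x 5 - c * x 4 / b] 2
    ![0, 0, b, -c, c ^ 2, c]
    (by intro k hk; fin_cases k <;> simp_all)
    (by
      intro D
      simp only [Matrix.cons_val, Fin.sum_univ_six, Derivation.leibniz_div, Derivation.leibniz, map_add,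
        map_sub, smul_eq_mul, Da, Db, Dc]
      field_simp
      ring)
  have s5 := jac_step der ![x 0, x 1, a + b * x 2 + c * x 5 - c * (x 3 + c * x 4 / b),
      x 3 + c * x 4 / b, x 4 / b, x 5 - c * x 4 / b]
    ![x 0, b * x 1 + 2 * c * x 3 + c ^ 2 * x 4 / b + 2 * a,
      a + b * x 2 + c * x 5 - c * (x 3 + c * x 4 / b), x 3 + c * x 4 / b, x 4 / b,
      x 5 - c * x 4 / b] 1
    ![0, b, 0, 2 * c, -c ^ 2, 0]
    (by intro k hk; fin_cases k <;> simp_all)
    (by
      intro D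
      simp only [Matrix.cons_val, Fin.sum_univ_six, Derivation.leibniz_div, Derivation.leibniz,
        Derivation.leibniz_pow, map_add, map_sub, smul_eq_mul, nsmul_eq_mul, Da, Db, Dc, D2]
      field_simp
      ring)
  have s6 := jac_step der ![x 0, b * x 1 + 2 * c * x 3 + c ^ 2 * x 4 / b + 2 * a,
      a + b * x 2 + c * x 5 - c * (x 3 + c * x 4 / b), x 3 + c * x 4 / b, x 4 / b,
      x 5 - c * x 4 / b]
    ![b ^ 2 * x 0 + 2 * b * c * x 2 + c ^ 2 * x 5 + 2 * a * c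
        - c * (b * x 1 + 2 * c * x 3 + c ^ 2 * x 4 / b + 2 * a),
      b * x 1 + 2 * c * x 3 + c ^ 2 * x 4 / b + 2 * a,
      a + b * x 2 + c * x 5 - c * (x 3 + c * x 4 / b), x 3 + c * x 4 / b, x 4 / b,
      x 5 - c * x 4 / b] 0
    ![b ^ 2, -c, 2 * c, 2 * c ^ 2, -c ^ 3, -c ^ 2]
    (by intro k hk; fin_cases k <;> simp_all)
    (by
      intro D
      simp only [Matrix.cons_val, Fin.sum_univ_six, Derivation.leibniz_div, Derivation.leibniz,
        Derivation.leibniz_pow, map_add, map_sub, smul_eq_mul, nsmul_eq_mul, Da, Db, Dc, D2]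
      field_simp
      ring)
  have e : mT x (fun i => algebraMap ℂ K (v i)) =
      ![b ^ 2 * x 0 + 2 * b * c * x 2 + c ^ 2 * x 5 + 2 * a * c
        - c * (b * x 1 + 2 * c * x 3 + c ^ 2 * x 4 / b + 2 * a),
      b * x 1 + 2 * c * x 3 + c ^ 2 * x 4 / b + 2 * a,
      a + b * x 2 + c * x 5 - c * (x 3 + c * x 4 / b), x 3 + c * x 4 / b, x 4 / b,
      x 5 - c * x 4 / b] := by
    simp only [mT, ← ha, ← hb, ← hc]
  rw [e, s6, s5, s4, s3, s2, s1, map_pow, ← hb]
  simp only [Matrix.cons_val]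
  field_simp

end Pool.Agent.H945R2
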