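import Mathlib
import Pool.Agent.H945R2.Jac2

/-! A nonzero Jacobian implies algebraic independence. -/

namespace Pool.Agent.H945R2

open MvPolynomial

variable {K : Type} [Field K] [Algebra ℂ K]

lemma D_aeval (D : Derivation ℂ K K) (x : Fin 6 → K) (P : MvPolynomial (Fin 6) ℂ) :
    D (aeval x P) = ∑ k, aeval x (pderiv k P) * D (x k) := by
  induction P using MvPolynomial.induction_on with
  | C a => simp
  | add p q hp hq =>
    simp only [map_add, hp, hq, add_mul, Finset.sum_add_distrib]
  | mul_X p i hp =>
    have h1 : ∀ k, aeval x (pderiv k (p * X i)) * D (x k) =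
        x i * (aeval x (pderiv k p) * D (x k)) + (if k = i then aeval x p * D (x k) else 0) := by
      intro k
      rw [pderiv_mul, map_add, map_mul, map_mul, aeval_X]
      split_ifs with hk
      · subst hk
        rw [pderiv_X_self, map_one]
        ring
      · rw [pderiv_X_of_ne (Ne.symm hk), map_zero]
        ring
    rw [Finset.sum_congr rfl fun k _ => h1 k, Finset.sum_add_distrib, ← Finset.mul_sum, ← hp,
      Finset.sum_ite_eq' Finset.univ i, if_pos (Finset.mem_univ i), map_mul, aeval_X,
      Derivation.leibniz, smul_eq_mul, smul_eq_mul]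
    ring

lemma totalDegree_pderiv_lt (P : MvPolynomial (Fin 6) ℂ) (k : Fin 6) (h : pderiv k P ≠ 0) :
    (pderiv k P).totalDegree < P.totalDegree := by
  obtain ⟨m, hm, hm'⟩ : ∃ m ∈ (pderiv k P).support, m.degree = (pderiv k P).totalDegree := by
    have h1 : (pderiv k P).support.Nonempty := by
      rwa [Finset.nonempty_iff_ne_empty, Ne, support_eq_empty]
    obtain ⟨m, hm, h2⟩ := Finset.exists_mem_eq_sup _ h1 (fun s : Fin 6 →₀ ℕ => s.sum fun _ e => e)
    exact ⟨m, hm, h2.symm⟩
  have h3 : coeff (m + Finsupp.single k 1) P ≠ 0 := by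
    intro h4
    rw [mem_support_iff, coeff_pderiv, h4] at hm
    simp at hm
  have h5 : (m + Finsupp.single k 1).degree ≤ P.totalDegree := le_totalDegree (mem_support_iff.2 h3)
  rw [map_add, Finsupp.degree_single, hm'] at h5
  omega

lemma eq_C_of_pderiv (P : MvPolynomial (Fin 6) ℂ) (h : ∀ k, pderiv k P = 0) :
    P = C (coeff 0 P) := by
  ext m
  rw [coeff_C]
  split_ifs with hm
  · rw [← hm]
  · obtain ⟨k, hk⟩ : ∃ k, m k ≠ 0 := by
      by_contra h1
      push Not at h1
      exact hm (Finsupp.ext fun k => (h1 k).symm)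
    have h2 := congrArg (coeff (m - Finsupp.single k 1)) (h k)
    rw [coeff_pderiv, coeff_zero] at h2
    have h3 : m - Finsupp.single k 1 + Finsupp.single k 1 = m := by
      apply tsub_add_cancel_of_le
      rw [Finsupp.single_le_iff]
      omega
    rw [h3] at h2
    rcases mul_eq_zero.1 h2 with h4 | h4
    · exact h4
    · exfalso
      exact Nat.cast_add_one_ne_zero _ h4

theorem algInd_of_jac (der : Fin 6 → Derivation ℂ K K) (x : Fin 6 → K) (h : jacD der x ≠ 0) :
    AlgebraicIndependent ℂ x := by
  rw [algebraicIndependent_iff]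
  intro P
  induction hn : P.totalDegree using Nat.strong_induction_on generalizing P with
  | _ n ih =>
    intro hP
    have h1 : ∀ k, aeval x (pderiv k P) = 0 := by
      have h2 : Matrix.mulVec (Matrix.of fun i j => der i (x j)) (fun k => aeval x (pderiv k P)) = 0 := by
        funext i
        have h3 := D_aeval (der i) x P
        rw [hP, map_zero] at h3
        simp only [Matrix.mulVec, dotProduct, Matrix.of_apply, Pi.zero_apply]
        rw [h3]
        exact Finset.sum_congr rfl fun k _ => mul_comm _ _
      have h4 := Matrix.eq_zero_of_mulVec_eq_zero h h2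
      intro k
      exact congrFun h4 k
    have h5 : ∀ k, pderiv k P = 0 := by
      intro k
      by_contra h6
      have h7 := totalDegree_pderiv_lt P k h6
      exact h6 (ih _ (hn ▸ h7) _ rfl (h1 k))
    rw [eq_C_of_pderiv P h5] at hP ⊢
    rw [aeval_C, map_eq_zero] at hP
    rw [hP, C_0]

end Pool.Agent.H945R2
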