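import Mathlib
import Pool.Agent.H945R2.Indep
import Pool.Agent.Helper419.KS.Tor

/-! Presentations of the function field by structure constants. -/

noncomputable section

namespace Pool.Agent.H945R2

open FanoFib.Tor

/-- the function field. -/
abbrev K6 : Type := KK (Fin 6)

/-- the variables. -/
def X6 : Fin 6 → K6 := xx

/-- the coordinate vector fields. -/
def der6 : Module.Basis (Fin 6) K6 (Derivation ℂ K6 K6) := frame0

lemma jac_X6 : jacD (fun i => der6 i) X6 = 1 := by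
  have : (Matrix.of fun i j => der6 i (X6 j)) = (1 : Matrix (Fin 6) (Fin 6) K6) := by
    ext i j
    rw [Matrix.of_apply, der6, X6, frame0_xx, Matrix.one_apply]
    simp [eq_comm]
  rw [jacD, this, Matrix.det_one]

section ring
variable {R : Type*} [CommRing R]
/-- the twenty homogeneous coordinates. -/
def hc (x : Fin 6 → R) : Fin 20 → R := Fin.append (m := 10) (n := 10) (cf x) (cg x)

lemma hc_left (x : Fin 6 → R) (j : Fin 10) : hc x (Fin.castAdd 10 j) = cf x j :=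
  Fin.append_left (m := 10) (n := 10) _ _ _

lemma hc_right (x : Fin 6 → R) (j : Fin 10) : hc x (Fin.natAdd 10 j) = cg x j :=
  Fin.append_right (m := 10) (n := 10) _ _ _

lemma hc_ind {p : R → Prop} {x : Fin 6 → R} (h1 : ∀ j, p (cf x j))
    (h2 : ∀ j, p (cg x j)) (j : Fin 20) : p (hc x j) := by
  refine Fin.addCases (m := 10) (n := 10) (motive := fun j => p (hc x j)) (fun i => ?_)
    (fun i => ?_) j
  · rw [hc_left]; exact h1 i
  · rw [hc_right]; exact h2 i
end ring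

/-- the span of the homogeneous coordinates. -/
def E6 : Submodule ℂ K6 := Submodule.span ℂ (Set.range (hc X6))

/-- constants. -/
def cst (y : Fin 3 → ℂ) : Fin 3 → K6 := fun i => algebraMap ℂ K6 (y i)

lemma vec_eta (y : Fin 3 → ℂ) : ![y 0, y 1, y 2] = y := by
  funext i
  fin_cases i <;> rfl

lemma cst_vec (a b c : ℂ) : cst ![a, b, c] = ![algebraMap ℂ K6 a, algebraMap ℂ K6 b, algebraMap ℂ K6 c] := by
  funext i
  fin_cases i <;> rfl

lemma cub_smul (c : Fin 10 → K6) (y : Fin 3 → ℂ) : cub c (cst y) =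
    (y 0 ^ 3) • c 0 + (y 0 ^ 2 * y 1) • c 1 + (y 0 ^ 2 * y 2) • c 2 + (y 0 * y 1 ^ 2) • c 3
    + (y 0 * y 1 * y 2) • c 4 + (y 0 * y 2 ^ 2) • c 5 + (y 1 ^ 3) • c 6 + (y 1 ^ 2 * y 2) • c 7
    + (y 1 * y 2 ^ 2) • c 8 + (y 2 ^ 3) • c 9 := by
  simp only [cub, cst, Algebra.smul_def, map_mul, map_pow]
  ring

lemma cub_mem {S : Submodule ℂ K6} {c : Fin 10 → K6} (h : ∀ j, c j ∈ S) (y : Fin 3 → ℂ) :
    cub c (cst y) ∈ S := by
  rw [cub_smul]
  refine S.add_mem (S.add_mem (S.add_mem (S.add_mem (S.add_mem (S.add_mem (S.add_mem (S.add_mem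
    (S.add_mem ?_ ?_) ?_) ?_) ?_) ?_) ?_) ?_) ?_) ?_ <;> exact S.smul_mem _ (h _)

/-- extraction of coefficients of a ternary cubic form. -/
lemma coef_mem {S : Submodule ℂ K6} {c : Fin 10 → K6} (h : ∀ y, cub c (cst y) ∈ S) (j : Fin 10) :
    c j ∈ S := by
  have e := fun y => cub_smul c y
  have h100 := h ![1, 0, 0]
  have h010 := h ![0, 1, 0]
  have h001 := h ![0, 0, 1]
  have h110 := h ![1, 1, 0]
  have h110' := h ![1, -1, 0]
  have h101 := h ![1, 0, 1]
  have h101' := h ![1, 0, -1]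
  have h011 := h ![0, 1, 1]
  have h011' := h ![0, 1, -1]
  have h111 := h ![1, 1, 1]
  rw [cub_smul] at h100 h010 h001 h110 h110' h101 h101' h011 h011' h111
  simp only [Matrix.cons_val] at h100 h010 h001 h110 h110' h101 h101' h011 h011' h111
  norm_num at h100 h010 h001 h110 h110' h101 h101' h011 h011' h111
  have c1 : c 1 ∈ S := by
    have := S.sub_mem (S.smul_mem (1 / 2 : ℂ) (S.sub_mem h110 h110')) h010
    convert this using 1
    module
  have c3 : c 3 ∈ S := by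
    have := S.sub_mem (S.smul_mem (1 / 2 : ℂ) (S.add_mem h110 h110')) h100
    convert this using 1
    module
  have c2 : c 2 ∈ S := by
    have := S.sub_mem (S.smul_mem (1 / 2 : ℂ) (S.sub_mem h101 h101')) h001
    convert this using 1
    module
  have c5 : c 5 ∈ S := by
    have := S.sub_mem (S.smul_mem (1 / 2 : ℂ) (S.add_mem h101 h101')) h100
    convert this using 1
    module
  have c7 : c 7 ∈ S := by
    have := S.sub_mem (S.smul_mem (1 / 2 : ℂ) (S.sub_mem h011 h011')) h001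
    convert this using 1
    module
  have c8 : c 8 ∈ S := by
    have := S.sub_mem (S.smul_mem (1 / 2 : ℂ) (S.add_mem h011 h011')) h010
    convert this using 1
    module
  have c4 : c 4 ∈ S := by
    have := S.sub_mem (S.sub_mem (S.sub_mem (S.sub_mem (S.sub_mem (S.sub_mem (S.sub_mem (S.sub_mem
      (S.sub_mem h111 h100) h010) h001) c1) c3) c2) c5) c7) c8
    convert this using 1
    module
  fin_cases j <;> assumption

/-- A presentation: a chart given by structure constants `x`. -/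
structure Pres where
  F : (Fin 3 → ℂ) → K6
  G : (Fin 3 → ℂ) → K6
  lam : K6
  x : Fin 6 → K6
  lam_ne : lam ≠ 0
  hF : ∀ y, F y = lam * cub (cf x) (cst y)
  hG : ∀ y, G y = lam * cub (cg x) (cst y)
  mF : ∀ y, F y ∈ E6
  mG : ∀ y, G y ∈ E6
  hE : E6 ≤ Submodule.span ℂ (Set.range F ∪ Set.range G)
  hJ : ∃ κ : ℂ, κ ≠ 0 ∧ jacD (fun i => der6 i) x = algebraMap ℂ K6 κ * (lam ^ 3)⁻¹

lemma hc_mem_E (j : Fin 20) : hc X6 j ∈ E6 := Submodule.subset_span ⟨j, rfl⟩

lemma cf_mem_E (j : Fin 10) : cf X6 j ∈ E6 := by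
  rw [← hc_left]
  exact hc_mem_E _

lemma cg_mem_E (j : Fin 10) : cg X6 j ∈ E6 := by
  rw [← hc_right]
  exact hc_mem_E _

/-- the first cubic form of the generic point -/
def F0 (y : Fin 3 → ℂ) : K6 := cub (cf X6) (cst y)
/-- the second cubic form of the generic point -/
def G0 (y : Fin 3 → ℂ) : K6 := cub (cg X6) (cst y)

lemma F0_mem (y : Fin 3 → ℂ) : F0 y ∈ E6 := cub_mem cf_mem_E y
lemma G0_mem (y : Fin 3 → ℂ) : G0 y ∈ E6 := cub_mem cg_mem_E y

lemma E6_le : E6 ≤ Submodule.span ℂ (Set.range F0 ∪ Set.range G0) := by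
  have h1 : ∀ j, cf X6 j ∈ Submodule.span ℂ (Set.range F0 ∪ Set.range G0) :=
    coef_mem fun y => Submodule.subset_span (Or.inl ⟨y, rfl⟩)
  have h2 : ∀ j, cg X6 j ∈ Submodule.span ℂ (Set.range F0 ∪ Set.range G0) :=
    coef_mem fun y => Submodule.subset_span (Or.inr ⟨y, rfl⟩)
  rw [E6, Submodule.span_le]
  rintro _ ⟨j, rfl⟩
  exact hc_ind (p := fun z => z ∈ Submodule.span ℂ (Set.range F0 ∪ Set.range G0)) h1 h2 j

/-- the base presentation. -/
def P0 : Pres where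
  F := F0
  G := G0
  lam := 1
  x := X6
  lam_ne := one_ne_zero
  hF y := by rw [one_mul]; rfl
  hG y := by rw [one_mul]; rfl
  mF := F0_mem
  mG := G0_mem
  hE := E6_le
  hJ := ⟨1, one_ne_zero, by rw [jac_X6]; simp⟩

namespace Pres

variable (P : Pres)

lemma jac_ne : jacD (fun i => der6 i) P.x ≠ 0 := by
  obtain ⟨κ, hκ, h⟩ := P.hJ
  rw [h]
  exact mul_ne_zero ((map_ne_zero _).2 hκ) (inv_ne_zero (pow_ne_zero _ P.lam_ne))

lemma algInd : AlgebraicIndependent ℂ P.x := algInd_of_jac _ _ P.jac_ne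

lemma x_ne (i : Fin 6) : P.x i ≠ 0 := P.algInd.ne_zero i

lemma lam_eq : P.F ![1, 0, 0] = P.lam := by
  rw [P.hF, cst_vec]
  simp [cub, cf]

/-- swap the unit with the second basis vector. -/
def moveS (h : cf P.x 6 ≠ 0) : Pres where
  F y := P.F ![y 1, y 0, y 2]
  G y := P.G ![y 1, y 0, y 2]
  lam := P.lam * cf P.x 6
  x := mS P.x (cf P.x 6)
  lam_ne := mul_ne_zero P.lam_ne h
  hF y := by
    have := cub_cf_mS P.x (cf P.x 6) h rfl (cst y)
    rw [P.hF, mul_assoc, this, cst_vec]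
    rfl
  hG y := by
    have := cub_cg_mS P.x (cf P.x 6) h rfl (cst y)
    rw [P.hG, mul_assoc, this, cst_vec]
    rfl
  mF y := P.mF _
  mG y := P.mG _
  hE := by
    refine P.hE.trans (Submodule.span_mono (Set.union_subset_union ?_ ?_))
    · rintro _ ⟨y, rfl⟩
      exact ⟨![y 1, y 0, y 2], congrArg P.F (vec_eta y)⟩
    · rintro _ ⟨y, rfl⟩
      exact ⟨![y 1, y 0, y 2], congrArg P.G (vec_eta y)⟩
  hJ := by
    obtain ⟨κ, hκ, hJ⟩ := P.hJ
    refine ⟨-κ, neg_ne_zero.2 hκ, ?_⟩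
    rw [jac_mS _ P.x (cf P.x 6) (P.x_ne 0) h rfl, hJ, map_neg]
    field_simp

/-- exchange the second and the third basis vector. -/
def moveP : Pres where
  F y := P.F ![y 0, y 2, y 1]
  G y := P.G ![y 0, y 2, y 1]
  lam := P.lam
  x := mP P.x
  lam_ne := P.lam_ne
  hF y := by
    rw [P.hF, cub_cf_mP P.x (cst y), cst_vec]
    rfl
  hG y := by
    rw [P.hG, cub_cg_mP P.x (cst y), cst_vec]
    rfl
  mF y := P.mF _
  mG y := P.mG _
  hE := by
    refine P.hE.trans (Submodule.span_mono (Set.union_subset_union ?_ ?_))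
    · rintro _ ⟨y, rfl⟩
      exact ⟨![y 0, y 2, y 1], congrArg P.F (vec_eta y)⟩
    · rintro _ ⟨y, rfl⟩
      exact ⟨![y 0, y 2, y 1], congrArg P.G (vec_eta y)⟩
  hJ := by
    obtain ⟨κ, hκ, hJ⟩ := P.hJ
    obtain ⟨c, hc, h⟩ := jac_mP (fun i => der6 i) P.x
    refine ⟨c * κ, mul_ne_zero hc hκ, ?_⟩
    rw [h, hJ, map_mul]
    ring

/-- replace the second basis vector by `v`. -/
def moveT (v : Fin 3 → ℂ) (hv : v 1 ≠ 0) : Pres where
  F y := P.F ![y 0 + y 1 * v 0, y 1 * v 1, y 1 * v 2 + y 2]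
  G y := (v 1 ^ 2) • P.G ![y 0, (y 1 - v 0 * y 0 - v 2 * y 2) / v 1, y 2]
  lam := P.lam
  x := mT P.x (cst v)
  lam_ne := P.lam_ne
  hF y := by
    have hv' : cst v 1 ≠ 0 := (map_ne_zero _).2 hv
    rw [P.hF, cub_cf_mT P.x (cst v) hv' (cst y), cst_vec]
    simp only [cst, map_add, map_mul]
  hG y := by
    have hv' : cst v 1 ≠ 0 := (map_ne_zero _).2 hv
    have h1 := cub_cg_mT P.x (cst v) hv' (cst ![y 0, (y 1 - v 0 * y 0 - v 2 * y 2) / v 1, y 2])
    have h2 : ![cst ![y 0, (y 1 - v 0 * y 0 - v 2 * y 2) / v 1, y 2] 0,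
        cst v 0 * cst ![y 0, (y 1 - v 0 * y 0 - v 2 * y 2) / v 1, y 2] 0 +
        cst v 1 * cst ![y 0, (y 1 - v 0 * y 0 - v 2 * y 2) / v 1, y 2] 1 +
        cst v 2 * cst ![y 0, (y 1 - v 0 * y 0 - v 2 * y 2) / v 1, y 2] 2,
        cst ![y 0, (y 1 - v 0 * y 0 - v 2 * y 2) / v 1, y 2] 2] = cst y := by
      funext i
      fin_cases i
      · rfl
      · simp only [cst, Matrix.cons_val, Fin.mk_one, ← map_mul, ← map_add]
        congr 1
        field_simp
        ring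
      · rfl
    rw [h2] at h1
    rw [P.hG, h1, Algebra.smul_def]
    simp only [cst, map_pow]
    ring
  mF y := P.mF _
  mG y := E6.smul_mem _ (P.mG _)
  hE := by
    refine P.hE.trans ?_
    rw [Submodule.span_le]
    rintro _ (⟨y, rfl⟩ | ⟨y, rfl⟩)
    · refine Submodule.subset_span (Or.inl ⟨![y 0 - y 1 / v 1 * v 0, y 1 / v 1,
        y 2 - y 1 / v 1 * v 2], congrArg P.F ?_⟩)
      funext i
      fin_cases i
      · simp
      · simp; field_simp
      · simp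
    · have h1 : P.G y = (v 1 ^ 2)⁻¹ • ((v 1 ^ 2) • P.G ![(![y 0, v 0 * y 0 + v 1 * y 1 + v 2 * y 2, y 2] : Fin 3 → ℂ) 0,
          ((![y 0, v 0 * y 0 + v 1 * y 1 + v 2 * y 2, y 2] : Fin 3 → ℂ) 1
            - v 0 * (![y 0, v 0 * y 0 + v 1 * y 1 + v 2 * y 2, y 2] : Fin 3 → ℂ) 0
            - v 2 * (![y 0, v 0 * y 0 + v 1 * y 1 + v 2 * y 2, y 2] : Fin 3 → ℂ) 2) / v 1,
          (![y 0, v 0 * y 0 + v 1 * y 1 + v 2 * y 2, y 2] : Fin 3 → ℂ) 2]) := by
        rw [smul_smul, inv_mul_cancel₀ (pow_ne_zero 2 hv), one_smul]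
        congr 1
        funext i
        fin_cases i
        · rfl
        · simp; field_simp; ring
        · rfl
      rw [h1]
      exact Submodule.smul_mem _ _ (Submodule.subset_span (Or.inr
        ⟨![y 0, v 0 * y 0 + v 1 * y 1 + v 2 * y 2, y 2], rfl⟩))
  hJ := by
    obtain ⟨κ, hκ, hJ⟩ := P.hJ
    refine ⟨v 1 ^ 3 * κ, mul_ne_zero (pow_ne_zero _ hv) hκ, ?_⟩
    have := jac_mT (fun i => der6 i) P.x v hv
    rw [show cst v = fun i => algebraMap ℂ K6 (v i) from rfl, this, hJ, map_mul]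
    ring

/-- the dual move. -/
def moveD : Pres where
  F y := P.G ![y 2, y 1, y 0]
  G y := P.F ![y 2, y 1, y 0]
  lam := P.lam * -P.x 0
  x := mD P.x
  lam_ne := mul_ne_zero P.lam_ne (neg_ne_zero.2 (P.x_ne 0))
  hF y := by
    have := cub_cf_mD P.x (P.x_ne 0) (cst y)
    rw [P.hG, mul_assoc, this, cst_vec]
    rfl
  hG y := by
    have := cub_cg_mD P.x (P.x_ne 0) (cst y)
    rw [P.hF, mul_assoc, this, cst_vec]
    rfl
  mF y := P.mG _
  mG y := P.mF _
  hE := by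
    refine P.hE.trans (Submodule.span_mono ?_)
    rintro _ (⟨y, rfl⟩ | ⟨y, rfl⟩)
    · exact Or.inr ⟨![y 2, y 1, y 0], congrArg P.F (vec_eta y)⟩
    · exact Or.inl ⟨![y 2, y 1, y 0], congrArg P.G (vec_eta y)⟩
  hJ := by
    obtain ⟨κ, hκ, hJ⟩ := P.hJ
    refine ⟨κ, hκ, ?_⟩
    have h0 := P.x_ne 0
    rw [jac_mD _ P.x h0, hJ]
    have h1 := P.lam_ne
    have h2 : (P.lam * -P.x 0) ^ 3 = -(P.lam ^ 3 * P.x 0 ^ 3) := by ring
    rw [h2]
    field_simp

/-- rescaling. -/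
def moveC (c : ℂ) (hc : c ≠ 0) : Pres where
  F y := algebraMap ℂ K6 c * P.F y
  G y := algebraMap ℂ K6 c * P.G y
  lam := algebraMap ℂ K6 c * P.lam
  x := P.x
  lam_ne := mul_ne_zero ((map_ne_zero _).2 hc) P.lam_ne
  hF y := by rw [P.hF]; ring
  hG y := by rw [P.hG]; ring
  mF y := by
    rw [← Algebra.smul_def]
    exact E6.smul_mem _ (P.mF _)
  mG y := by
    rw [← Algebra.smul_def]
    exact E6.smul_mem _ (P.mG _)
  hE := by
    refine P.hE.trans ?_
    rw [Submodule.span_le]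
    rintro _ (⟨y, rfl⟩ | ⟨y, rfl⟩)
    · have : P.F y = c⁻¹ • (algebraMap ℂ K6 c * P.F y) := by
        rw [← Algebra.smul_def, smul_smul, inv_mul_cancel₀ hc, one_smul]
      rw [this]
      exact Submodule.smul_mem _ _ (Submodule.subset_span (Or.inl ⟨y, rfl⟩))
    · have : P.G y = c⁻¹ • (algebraMap ℂ K6 c * P.G y) := by
        rw [← Algebra.smul_def, smul_smul, inv_mul_cancel₀ hc, one_smul]
      rw [this]
      exact Submodule.smul_mem _ _ (Submodule.subset_span (Or.inr ⟨y, rfl⟩))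
  hJ := by
    obtain ⟨κ, hκ, hJ⟩ := P.hJ
    refine ⟨c ^ 3 * κ, mul_ne_zero (pow_ne_zero _ hc) hκ, ?_⟩
    have h1 := P.lam_ne
    have h2 : algebraMap ℂ K6 c ≠ 0 := (map_ne_zero _).2 hc
    rw [hJ, map_mul, map_pow]
    field_simp

end Pres

end Pool.Agent.H945R2
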