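import Mathlib
import Pool.Agent.H945R2.Pres
import Pool.Agent.H945R2.Dvr

/-! The charts. -/

noncomputable section

namespace Pool.Agent.H945R2

open FanoFib.Tor

section ring
variable {R S : Type*} [CommRing R] [CommRing S]

lemma map_cf (φ : R →+* S) (x : Fin 6 → R) (j : Fin 10) : φ (cf x j) = cf (fun i => φ (x i)) j := by
  fin_cases j <;> simp [cf, pp, qq, rr, map_ofNat φ]

lemma map_cg (φ : R →+* S) (x : Fin 6 → R) (j : Fin 10) : φ (cg x j) = cg (fun i => φ (x i)) j := by
  fin_cases j <;> simp [cg, pp, qq, rr, map_ofNat φ]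

lemma map_cub (φ : R →+* S) (c : Fin 10 → R) (y : Fin 3 → R) :
    φ (cub c y) = cub (fun i => φ (c i)) (fun i => φ (y i)) := by
  simp [cub]

end ring

/-- The coordinate ring of the chart `l ≠ 0`. -/
def ringOf (l : K6) : Subalgebra ℂ K6 := Algebra.adjoin ℂ {f | ∃ e ∈ E6, f = e / l}

lemma div_mem_ringOf {l e : K6} (he : e ∈ E6) : e / l ∈ ringOf l :=
  Algebra.subset_adjoin ⟨e, he, rfl⟩

lemma ringOf_le {l : K6} {A : Subalgebra ℂ K6} (h : ∀ e ∈ E6, e / l ∈ A) : ringOf l ≤ A := by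
  rw [ringOf, Algebra.adjoin_le_iff]
  rintro _ ⟨e, he, rfl⟩
  exact h e he

lemma one_mem_E : (1 : K6) ∈ E6 := by
  have := cf_mem_E 0
  simpa [cf] using this

namespace Pres

variable (P : Pres)

lemma cf_mem (j : Fin 10) : P.lam * cf P.x j ∈ E6 := by
  refine coef_mem (c := fun j => P.lam * cf P.x j) (fun y => ?_) j
  have h : cub (fun j => P.lam * cf P.x j) (cst y) = P.F y := by
    rw [P.hF]
    simp only [cub]
    ring
  rw [h]
  exact P.mF y

lemma cg_mem (j : Fin 10) : P.lam * cg P.x j ∈ E6 := by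
  refine coef_mem (c := fun j => P.lam * cg P.x j) (fun y => ?_) j
  have h : cub (fun j => P.lam * cg P.x j) (cst y) = P.G y := by
    rw [P.hG]
    simp only [cub]
    ring
  rw [h]
  exact P.mG y

lemma x_mem (i : Fin 6) : P.lam * P.x i ∈ E6 := by
  have f1 := P.cf_mem 1
  have f2 := P.cf_mem 2
  have g6 := P.cg_mem 6
  have g7 := P.cg_mem 7
  have g8 := P.cg_mem 8
  have g9 := P.cg_mem 9
  simp only [cf, cg, Matrix.cons_val] at f1 f2 g6 g7 g8 g9
  have h2 : P.lam * P.x 2 ∈ E6 := by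
    have := E6.smul_mem (1 / 3 : ℂ) (E6.add_mem f1 g8)
    convert this using 1
    rw [Algebra.smul_def]
    simp only [map_div₀, map_one, map_ofNat]
    ring
  have h1 : P.lam * P.x 1 ∈ E6 := by
    have := E6.sub_mem f1 h2
    convert this using 1
    ring
  have h3 : P.lam * P.x 3 ∈ E6 := by
    have := E6.smul_mem (1 / 3 : ℂ) (E6.add_mem f2 g7)
    convert this using 1
    rw [Algebra.smul_def]
    simp only [map_div₀, map_one, map_ofNat]
    ring
  have h5 : P.lam * P.x 5 ∈ E6 := by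
    have := E6.sub_mem f2 h3
    convert this using 1
    ring
  have h0 : P.lam * P.x 0 ∈ E6 := by
    have := E6.neg_mem g9
    convert this using 1
    ring
  have h4 : P.lam * P.x 4 ∈ E6 := by
    have := E6.neg_mem g6
    convert this using 1
    ring
  fin_cases i <;> assumption

lemma x_mem_ring (i : Fin 6) : P.x i ∈ ringOf P.lam := by
  have := div_mem_ringOf (l := P.lam) (P.x_mem i)
  rwa [mul_div_cancel_left₀ _ P.lam_ne] at this

lemma lam_mem : P.lam ∈ E6 := by
  have := P.cf_mem 0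
  simpa [cf] using this

lemma mem_adjoin_cf (A : Subalgebra ℂ K6) (h : ∀ i, P.x i ∈ A) (j : Fin 10) : cf P.x j ∈ A := by
  have := map_cf (R := A) (S := K6) (A.val : A →+* K6) (fun i => ⟨P.x i, h i⟩) j
  have h2 : cf P.x j = (cf (R := A) (fun i => ⟨P.x i, h i⟩) j : A) := this.symm
  rw [h2]
  exact Subtype.property _

lemma mem_adjoin_cg (A : Subalgebra ℂ K6) (h : ∀ i, P.x i ∈ A) (j : Fin 10) : cg P.x j ∈ A := by
  have := map_cg (R := A) (S := K6) (A.val : A →+* K6) (fun i => ⟨P.x i, h i⟩) j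
  have h2 : cg P.x j = (cg (R := A) (fun i => ⟨P.x i, h i⟩) j : A) := this.symm
  rw [h2]
  exact Subtype.property _

lemma cub_mem_sub {A : Subalgebra ℂ K6} {c : Fin 10 → K6} (h : ∀ j, c j ∈ A) (y : Fin 3 → ℂ) :
    cub c (cst y) ∈ A :=
  cub_mem (S := Subalgebra.toSubmodule A) h y

lemma ring_eq : ringOf P.lam = Algebra.adjoin ℂ (Set.range P.x) := by
  apply le_antisymm
  · refine ringOf_le fun e he => ?_
    have hx : ∀ i, P.x i ∈ Algebra.adjoin ℂ (Set.range P.x) := fun i =>
      Algebra.subset_adjoin ⟨i, rfl⟩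
    have := P.hE he
    clear he
    induction this using Submodule.span_induction with
    | mem z hz =>
      rcases hz with ⟨y, rfl⟩ | ⟨y, rfl⟩
      · rw [P.hF, mul_div_cancel_left₀ _ P.lam_ne]
        exact cub_mem_sub (P.mem_adjoin_cf _ hx) y
      · rw [P.hG, mul_div_cancel_left₀ _ P.lam_ne]
        exact cub_mem_sub (P.mem_adjoin_cg _ hx) y
    | zero => simp
    | add a b _ _ ha hb => rw [add_div]; exact add_mem (ha) (hb)
    | smul c a _ ha =>
      rw [smul_div_assoc]
      exact Subalgebra.smul_mem _ (ha) c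
  · rw [Algebra.adjoin_le_iff]
    rintro _ ⟨i, rfl⟩
    exact P.x_mem_ring i

end Pres

end Pool.Agent.H945R2
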