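import Mathlib
import Pool.Agent.H945R2.Chart

/-! The charts: polynomial rings, gluing. -/

noncomputable section

namespace Pool.Agent.H945R2

open FanoFib.Tor

namespace Pres

variable (P : Pres)

/-- the chart of a presentation is an affine space. -/
def equiv : MvPolynomial (Fin 6) ℂ ≃ₐ[ℂ] ringOf P.lam :=
  P.algInd.aevalEquiv.trans (Subalgebra.equivOfEq _ _ P.ring_eq.symm)

lemma coe_equiv (p : MvPolynomial (Fin 6) ℂ) : (P.equiv p : K6) = MvPolynomial.aeval P.x p := by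
  have := P.algInd.algebraMap_aevalEquiv p
  exact this

lemma equiv_X (i : Fin 6) : (P.equiv (MvPolynomial.X i) : K6) = P.x i := by
  rw [coe_equiv, MvPolynomial.aeval_X]

lemma smooth : Algebra.Smooth ℂ (ringOf P.lam) :=
  haveI : Algebra.Smooth ℂ (MvPolynomial (Fin 6) ℂ) := ⟨inferInstance, inferInstance⟩
  Algebra.Smooth.of_equiv P.equiv

lemma ufm : UniqueFactorizationMonoid (ringOf P.lam) :=
  (MulEquiv.uniqueFactorizationMonoid P.equiv.toMulEquiv inferInstance)

lemma fg : (ringOf P.lam).FG := by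
  rw [P.ring_eq]
  exact ⟨(Set.finite_range P.x).toFinset, by simp⟩

/-- the coordinates as elements of the coordinate ring. -/
def xr (i : Fin 6) : ringOf P.lam := ⟨P.x i, P.x_mem_ring i⟩

lemma equiv_X' (i : Fin 6) : P.equiv (MvPolynomial.X i) = P.xr i := Subtype.ext (P.equiv_X i)

lemma prime_x (i : Fin 6) : Prime (P.xr i) := by
  rw [← P.equiv_X']
  exact (MulEquiv.prime_iff P.equiv).2 (MvPolynomial.X_prime)

end Pres

/-- elements with denominator a power of `u` -/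
def powSub (B : Subalgebra ℂ K6) (u : K6) (hu : u ∈ B) : Subalgebra ℂ K6 where
  carrier := {z | ∃ n : ℕ, z * u ^ n ∈ B}
  mul_mem' := by
    rintro a b ⟨n, hn⟩ ⟨m, hm⟩
    refine ⟨n + m, ?_⟩
    have := B.mul_mem hn hm
    convert this using 1
    rw [pow_add]; ring
  add_mem' := by
    rintro a b ⟨n, hn⟩ ⟨m, hm⟩
    refine ⟨n + m, ?_⟩
    have := B.add_mem (B.mul_mem hn (B.pow_mem hu m)) (B.mul_mem hm (B.pow_mem hu n))
    convert this using 1
    rw [pow_add]; ring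
  algebraMap_mem' c := ⟨0, by simpa using B.algebraMap_mem c⟩

lemma ringOf_le_powSub {l l' : K6} (hl : l ∈ E6) (hl0 : l ≠ 0) :
    ringOf l ≤ powSub (ringOf l') (l / l') (div_mem_ringOf hl) := by
  refine ringOf_le fun e he => ⟨1, ?_⟩
  have := div_mem_ringOf (l := l') he
  rw [pow_one]
  convert this using 1
  field_simp

lemma X6_mem_E (i : Fin 6) : X6 i ∈ E6 := by
  have := P0.x_mem i
  simpa [P0] using this

lemma aeval_X6 (p : MvPolynomial (Fin 6) ℂ) :
    MvPolynomial.aeval X6 p = algebraMap (MvPolynomial (Fin 6) ℂ) K6 p := by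
  have : (MvPolynomial.aeval X6 : MvPolynomial (Fin 6) ℂ →ₐ[ℂ] K6) =
      IsScalarTower.toAlgHom ℂ (MvPolynomial (Fin 6) ℂ) K6 := by
    apply MvPolynomial.algHom_ext
    intro i
    rw [MvPolynomial.aeval_X]
    rfl
  rw [this]
  rfl

lemma mem_powSub {l : K6} (p : MvPolynomial (Fin 6) ℂ) :
    MvPolynomial.aeval X6 p ∈ powSub (ringOf l) (1 / l) (div_mem_ringOf one_mem_E) := by
  have h1 : ∀ i, X6 i ∈ powSub (ringOf l) (1 / l) (div_mem_ringOf one_mem_E) := by
    intro i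
    refine ⟨1, ?_⟩
    have := div_mem_ringOf (l := l) (X6_mem_E i)
    rw [pow_one]
    convert this using 1
    ring
  induction p using MvPolynomial.induction_on with
  | C a => rw [MvPolynomial.aeval_C]; exact Subalgebra.algebraMap_mem _ a
  | add p q hp hq => rw [map_add]; exact Subalgebra.add_mem _ hp hq
  | mul_X p i hp => rw [map_mul, MvPolynomial.aeval_X]; exact Subalgebra.mul_mem _ hp (h1 i)

lemma frac_ringOf {l : K6} (hl0 : l ≠ 0) (z : K6) :
    ∃ a b : ringOf l, b ≠ 0 ∧ z * (b : K6) = (a : K6) := by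
  obtain ⟨p, q, hq, rfl⟩ := IsFractionRing.div_surjective (A := MvPolynomial (Fin 6) ℂ) z
  have hq0 : algebraMap (MvPolynomial (Fin 6) ℂ) K6 q ≠ 0 := by
    have := nonZeroDivisors.ne_zero hq
    simpa using this
  rw [← aeval_X6] at hq0
  rw [← aeval_X6, ← aeval_X6]
  obtain ⟨n, hn⟩ := mem_powSub (l := l) p
  obtain ⟨m, hm⟩ := mem_powSub (l := l) q
  have hu : (1 / l) ∈ ringOf l := div_mem_ringOf one_mem_E
  have hu0 : (1 / l) ≠ 0 := one_div_ne_zero hl0
  refine ⟨⟨_, (ringOf l).mul_mem hn ((ringOf l).pow_mem hu m)⟩,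
    ⟨_, (ringOf l).mul_mem hm ((ringOf l).pow_mem hu n)⟩, ?_, ?_⟩
  · intro h
    have := congrArg Subtype.val h
    simp only [ZeroMemClass.coe_zero, mul_eq_zero, pow_eq_zero_iff', hu0, false_and, or_false] at this
    exact hq0 this
  · show _ * (_ * _ * _) = _ * _ * _
    field_simp

lemma isFrac_ringOf {l : K6} (hl0 : l ≠ 0) : IsFractionRing (ringOf l) K6 := by
  apply IsFractionRing.of_field
  intro z
  obtain ⟨a, b, hb, h⟩ := frac_ringOf hl0 z
  refine ⟨a, b, ?_⟩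
  have hb0 : (b : K6) ≠ 0 := fun h => hb (Subtype.ext h)
  show z = (a : K6) / (b : K6)
  rw [eq_div_iff hb0, h]

/-- change of chart -/
lemma transfer {l l' : K6} (hl : l ∈ E6) (hl0 : l ≠ 0) (hl' : l' ∈ E6) (hl0' : l' ≠ 0)
    {p : Ideal (ringOf l)} [p.IsPrime] (h : l' / l ∉ locMax (ringOf l) p) :
    ∃ p' : Ideal (ringOf l'), p'.IsPrime ∧ locRing (ringOf l) p = locRing (ringOf l') p' ∧
      ∀ b : ringOf l', b ∈ p' ↔ (b : K6) ∈ locMax (ringOf l) p := by
  have h1 : l' / l ∈ locRing (ringOf l) p := coe_mem_loc (⟨l' / l, div_mem_ringOf hl'⟩ : ringOf l)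
  obtain ⟨_, h3⟩ := (locMax_or_unit h1).resolve_left h
  apply loc_transfer
  · have h4 : ringOf l' ≤ locSub (ringOf l) p := by
      refine ringOf_le fun e he => ?_
      have h5 : e / l ∈ locRing (ringOf l) p :=
        coe_mem_loc (⟨e / l, div_mem_ringOf he⟩ : ringOf l)
      have := loc_mul h5 h3
      rw [mem_locSub]
      convert this using 1
      field_simp
    exact fun z hz => h4 hz
  · intro z hz
    obtain ⟨n, hn⟩ := ringOf_le_powSub (l' := l') hl hl0 hz
    refine ⟨_, hn, (l / l') ^ n, (ringOf l').pow_mem (div_mem_ringOf hl) n,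
      pow_ne_zero _ (div_ne_zero hl0 hl0'), ?_, rfl⟩
    have h5 : ((l / l') ^ n)⁻¹ = (l' / l) ^ n := by
      rw [← inv_pow, inv_div]
    rw [h5]
    exact (locSub (ringOf l) p).pow_mem h1 n

lemma separated_aux {l l' : K6} (hl : l ∈ E6) (hl0 : l ≠ 0) (hl' : l' ∈ E6) (hl0' : l' ≠ 0)
    (V : ValuationSubring K6) (h : ∀ f ∈ ringOf l, f ∈ V) (h' : ∀ f ∈ ringOf l', f ∈ V) :
    locAtCentre (ringOf l) V ⊆ locAtCentre (ringOf l') V := by
  rintro z ⟨a, ha, s, hs, hs0, hsV, hz⟩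
  obtain ⟨n, hn⟩ := ringOf_le_powSub (l' := l') hl hl0 ha
  obtain ⟨m, hm⟩ := ringOf_le_powSub (l' := l') hl hl0 hs
  have hu : l / l' ∈ ringOf l' := div_mem_ringOf hl
  have hu0 : l / l' ≠ 0 := div_ne_zero hl0 hl0'
  refine ⟨_, (ringOf l').mul_mem hn ((ringOf l').pow_mem hu m), _,
    (ringOf l').mul_mem hm ((ringOf l').pow_mem hu n), ?_, ?_, ?_⟩
  · exact mul_ne_zero (mul_ne_zero hs0 (pow_ne_zero _ hu0)) (pow_ne_zero _ hu0)
  · rw [mul_inv, mul_inv, ← inv_pow, ← inv_pow, inv_div]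
    have h3 : l' / l ∈ V := h _ (div_mem_ringOf hl')
    exact V.mul_mem _ _ (V.mul_mem _ _ hsV (pow_mem h3 _)) (pow_mem h3 _)
  · rw [← hz]; ring

end Pool.Agent.H945R2
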