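import Mathlib
import Pool.Agent.H945R2.Alg

/-! Quadratic relations between the twenty homogeneous coordinates. -/

namespace Pool.Agent.H945R2

section ring
variable {R : Type*} [CommRing R]

lemma rel1 (x : Fin 6 → R) : cg x 1 ^ 2 - 3 * (cg x 0 * cg x 3) = cf x 8 ^ 2 - 3 * (cf x 7 * cf x 9) := by
  simp only [cf, cg, pp, qq, rr, Matrix.cons_val]
  ring

lemma rel2 (x : Fin 6 → R) : cg x 2 ^ 2 - 3 * (cg x 0 * cg x 5) =
    -3 * (cf x 3 * cg x 0) - 3 * (cf x 6 * cg x 1) - cf x 7 * cg x 2 := by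
  simp only [cf, cg, pp, qq, rr, Matrix.cons_val]
  ring

lemma rel3 (x : Fin 6 → R) : cg x 3 ^ 2 - 3 * (cg x 1 * cg x 6) = cf x 5 ^ 2 - 3 * (cf x 2 * cf x 9) := by
  simp only [cf, cg, pp, qq, rr, Matrix.cons_val]
  ring

lemma rel4 (x : Fin 6 → R) : cg x 5 ^ 2 - 3 * (cg x 2 * cg x 9) = cf x 3 ^ 2 - 3 * (cf x 1 * cf x 6) := by
  simp only [cf, cg, pp, qq, rr, Matrix.cons_val]
  ring

lemma rel5 (x : Fin 6 → R) : cg x 4 ^ 2 - 4 * (cg x 1 * cg x 8) = -18 * (cf x 0 * cg x 0)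
    + 2 * (cf x 1 * cg x 1) - 2 * (cf x 1 * cf x 8) - 2 * (cf x 2 * cg x 2) - 2 * (cf x 2 * cf x 7)
    + 4 * (cf x 3 * cg x 3) + 4 * (cf x 3 * cf x 5) + cf x 4 * cg x 4 := by
  simp only [cf, cg, pp, qq, rr, Matrix.cons_val]
  ring

end ring

end Pool.Agent.H945R2
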