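import Mathlib
import Pool.Agent.H945R2.Chart2
import Pool.Agent.H945R2.Quad

/-! The atlas; completeness. -/

noncomputable section

namespace Pool.Agent.H945R2

open FanoFib.Tor

/-- test vectors for the first cubic form. -/
def tF : Finset (Fin 3 → ℕ) :=
  {![1, 0, 0], ![0, 1, 0], ![0, 0, 1], ![0, 1, 1], ![0, 1, 2], ![1, 1, 0], ![1, 1, 1], ![1, 1, 2],
    ![1, 2, 0], ![1, 2, 1]}

/-- test vectors for the second cubic form. -/
def tG : Finset (Fin 3 → ℕ) :=
  {![1, 0, 0], ![0, 1, 0], ![0, 0, 1], ![0, 1, 1], ![0, 1, 2]}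

section test
variable {κ : Type*} [Field κ] [CharZero κ] (f g : Fin 10 → κ)

lemma testF (h : ∀ v ∈ tF, cub f (fun i => (v i : κ)) = 0) (j : Fin 10) : f j = 0 := by
  simp only [tF, Finset.mem_insert, Finset.mem_singleton, forall_eq_or_imp, forall_eq, cub,
    Matrix.cons_val, Nat.cast_zero, Nat.cast_one, Nat.cast_ofNat] at h
  obtain ⟨h1, h2, h3, h4, h5, h6, h7, h8, h9, h10⟩ := h
  have e0 : f 0 = 0 := by linear_combination h1
  have e6 : f 6 = 0 := by linear_combination h2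
  have e9 : f 9 = 0 := by linear_combination h3
  have e7 : f 7 = 0 := by linear_combination 2 * h4 - (1 / 2) * h5 - (3 / 2) * e6 + 2 * e9
  have e8 : f 8 = 0 := by linear_combination (1 / 2) * h5 - h4 + (1 / 2) * e6 - 3 * e9
  have e5 : f 5 = 0 := by linear_combination (1 / 2) * h8 - h7 + (1 / 2) * h6 - e8 - 3 * e9
  have e24 : f 2 + f 4 = 0 := by linear_combination h7 - h6 - e5 - e7 - e8 - e9
  have e13 : f 1 + f 3 = 0 := by linear_combination h6 - e0 - e6
  have e3 : f 3 = 0 := by linear_combination (1 / 2) * h9 - (1 / 2) * e0 - e13 - 4 * e6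
  have e1 : f 1 = 0 := by linear_combination e13 - e3
  have e4 : f 4 = 0 := by linear_combination h10 - h9 - e24 - e5 - 4 * e7 - 2 * e8 - e9
  have e2 : f 2 = 0 := by linear_combination e24 - e4
  fin_cases j <;> assumption

lemma testG (hf : ∀ j, f j = 0)
    (r1 : g 1 ^ 2 - 3 * (g 0 * g 3) = f 8 ^ 2 - 3 * (f 7 * f 9))
    (r2 : g 2 ^ 2 - 3 * (g 0 * g 5) = -3 * (f 3 * g 0) - 3 * (f 6 * g 1) - f 7 * g 2)
    (r3 : g 3 ^ 2 - 3 * (g 1 * g 6) = f 5 ^ 2 - 3 * (f 2 * f 9))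
    (r4 : g 5 ^ 2 - 3 * (g 2 * g 9) = f 3 ^ 2 - 3 * (f 1 * f 6))
    (r5 : g 4 ^ 2 - 4 * (g 1 * g 8) = -18 * (f 0 * g 0)
      + 2 * (f 1 * g 1) - 2 * (f 1 * f 8) - 2 * (f 2 * g 2) - 2 * (f 2 * f 7)
      + 4 * (f 3 * g 3) + 4 * (f 3 * f 5) + f 4 * g 4)
    (h : ∀ v ∈ tG, cub g (fun i => (v i : κ)) = 0) (j : Fin 10) : g j = 0 := by
  simp only [tG, Finset.mem_insert, Finset.mem_singleton, forall_eq_or_imp, forall_eq, cub,
    Matrix.cons_val, Nat.cast_zero, Nat.cast_one, Nat.cast_ofNat] at h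
  obtain ⟨h1, h2, h3, h4, h5⟩ := h
  simp only [hf] at r1 r2 r3 r4 r5
  have e0 : g 0 = 0 := by linear_combination h1
  have e6 : g 6 = 0 := by linear_combination h2
  have e9 : g 9 = 0 := by linear_combination h3
  have e7 : g 7 = 0 := by linear_combination 2 * h4 - (1 / 2) * h5 - (3 / 2) * e6 + 2 * e9
  have e8 : g 8 = 0 := by linear_combination (1 / 2) * h5 - h4 + (1 / 2) * e6 - 3 * e9
  have sq : ∀ a : κ, a ^ 2 = 0 → a = 0 := fun a h => by simpa using h
  have e1 : g 1 = 0 := sq _ (by linear_combination r1 + 3 * g 3 * e0)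
  have e2 : g 2 = 0 := sq _ (by linear_combination r2 + 3 * g 5 * e0)
  have e3 : g 3 = 0 := sq _ (by linear_combination r3 + 3 * g 1 * e6)
  have e5 : g 5 = 0 := sq _ (by linear_combination r4 + 3 * g 2 * e9)
  have e4 : g 4 = 0 := sq _ (by linear_combination r5 + 4 * g 1 * e8)
  fin_cases j <;> assumption

end test

/-- natural test vectors as complex vectors. -/
def nc (v : Fin 3 → ℕ) : Fin 3 → ℂ := fun i => (v i : ℂ)

/-- index set of the atlas -/
def Idx : Set K6 := {l | l ≠ 0 ∧ ((∃ v ∈ tF, l = F0 (nc v)) ∨ (∃ v ∈ tG, l = G0 (nc v)))}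

lemma idx_finite : Idx.Finite := by
  have h : Idx ⊆ ((fun v => F0 (nc v)) '' (tF : Set (Fin 3 → ℕ))) ∪
      ((fun v => G0 (nc v)) '' (tG : Set (Fin 3 → ℕ))) := by
    rintro l ⟨_, ⟨v, hv, rfl⟩ | ⟨v, hv, rfl⟩⟩
    · exact Or.inl ⟨v, hv, rfl⟩
    · exact Or.inr ⟨v, hv, rfl⟩
  exact Set.Finite.subset ((tF.finite_toSet.image _).union (tG.finite_toSet.image _)) h

lemma Idx.mem_E {l : K6} (hl : l ∈ Idx) : l ∈ E6 := by
  obtain ⟨_, ⟨v, _, rfl⟩ | ⟨v, _, rfl⟩⟩ := hl
  · exact F0_mem _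
  · exact G0_mem _

namespace Pres

lemma cf6 (P : Pres) : P.lam * cf P.x 6 = P.F ![0, 1, 0] := by
  rw [P.hF, cst_vec]
  simp [cub]

lemma toUnit (P : Pres) (v : Fin 3 → ℂ) (h : P.F v ≠ 0) : ∃ P' : Pres, P'.lam = P.F v := by
  have main : ∀ (Q : Pres) (w : Fin 3 → ℂ), w 1 ≠ 0 → Q.F w ≠ 0 → ∃ P' : Pres, P'.lam = Q.F w := by
    intro Q w hw hQ
    have h1 : (Q.moveT w hw).lam * cf (Q.moveT w hw).x 6 = Q.F w := by
      rw [cf6]
      show Q.F ![0 + 1 * w 0, 1 * w 1, 1 * w 2 + 0] = Q.F w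
      congr 1
      rw [zero_add, one_mul, one_mul, one_mul, add_zero]
      exact vec_eta w
    have h2 : cf (Q.moveT w hw).x 6 ≠ 0 := by
      intro h3
      rw [h3, mul_zero] at h1
      exact hQ h1.symm
    exact ⟨(Q.moveT w hw).moveS h2, h1⟩
  by_cases h1 : v 1 = 0
  · by_cases h2 : v 2 = 0
    · have h3 : P.F v = algebraMap ℂ K6 (v 0 ^ 3) * P.lam := by
        rw [P.hF, cub_smul, h1, h2, ← Algebra.smul_def]
        simp [cf]
      have h4 : v 0 ^ 3 ≠ 0 := by
        intro h5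
        rw [h5, map_zero, zero_mul] at h3
        exact h h3
      exact ⟨P.moveC _ h4, h3.symm⟩
    · have h3 : P.moveP.F ![v 0, v 2, v 1] = P.F v := congrArg P.F (vec_eta v)
      obtain ⟨P', h4⟩ := main P.moveP ![v 0, v 2, v 1] h2 (by rwa [h3])
      exact ⟨P', h4.trans h3⟩
  · exact main P v h1 h

end Pres

lemma exists_presF (v : Fin 3 → ℂ) (h : F0 v ≠ 0) : ∃ P : Pres, P.lam = F0 v := P0.toUnit v h

lemma exists_presG (v : Fin 3 → ℂ) (h : G0 v ≠ 0) : ∃ P : Pres, P.lam = G0 v := by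
  have h1 : P0.moveD.F ![v 2, v 1, v 0] = G0 v := congrArg G0 (vec_eta v)
  obtain ⟨P, hP⟩ := P0.moveD.toUnit ![v 2, v 1, v 0] (by rwa [h1])
  exact ⟨P, hP.trans h1⟩

lemma Idx.pres {l : K6} (hl : l ∈ Idx) : ∃ P : Pres, P.lam = l := by
  obtain ⟨h, ⟨v, _, rfl⟩ | ⟨v, _, rfl⟩⟩ := hl
  · exact exists_presF _ h
  · exact exists_presG _ h

lemma complete_aux (V : ValuationSubring K6) (hV : ∀ c : ℂ, algebraMap ℂ K6 c ∈ V) :
    ∃ l ∈ Idx, ∀ f ∈ ringOf l, f ∈ V := by
  obtain ⟨k, -, hk⟩ := Finset.exists_max_image (Finset.univ : Finset (Fin 20))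
    (fun j => V.valuation (hc X6 j)) ⟨0, Finset.mem_univ _⟩
  have hc0 : hc X6 0 = 1 := by
    have := hc_left X6 0
    simpa [cf] using this
  have hh : hc X6 k ≠ 0 := by
    intro h
    have := hk 0 (Finset.mem_univ _)
    rw [h, hc0, map_zero, map_one] at this
    exact absurd this (not_le.2 zero_lt_one)
  set h := hc X6 k with hdef
  have hu : ∀ j, hc X6 j / h ∈ V := by
    intro j
    rw [← V.valuation_le_one_iff, map_div₀]
    exact div_le_one_of_le₀ (hk j (Finset.mem_univ _)) zero_le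
  have hE : ∀ e ∈ E6, e / h ∈ V := by
    intro e he
    rw [E6] at he
    induction he using Submodule.span_induction with
    | mem z hz => obtain ⟨j, rfl⟩ := hz; exact hu j
    | zero => rw [zero_div]; exact V.zero_mem
    | add a b _ _ ha hb => rw [add_div]; exact V.add_mem _ _ ha hb
    | smul c a _ ha => rw [Algebra.smul_def, mul_div_assoc]; exact V.mul_mem _ _ (hV c) ha
  have key : ∀ l ∈ E6, l ≠ 0 → (l / h)⁻¹ ∈ V → ∀ f ∈ ringOf l, f ∈ V := by
    intro l _ hl0 hl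
    let B : Subalgebra ℂ K6 :=
      { V.toSubring with
        algebraMap_mem' := hV }
    have h1 : ringOf l ≤ B := by
      refine ringOf_le fun e he => ?_
      have := V.mul_mem _ _ (hE e he) hl
      have h2 : e / h * (l / h)⁻¹ = e / l := by field_simp
      rw [h2] at this
      exact this
    exact fun f hf => h1 hf
  by_contra hcon
  push Not at hcon
  let a : Fin 10 → V := fun j => ⟨cf X6 j / h, hE _ (cf_mem_E j)⟩
  let b : Fin 10 → V := fun j => ⟨cg X6 j / h, hE _ (cg_mem_E j)⟩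
  let ρ : V →+* IsLocalRing.ResidueField V := IsLocalRing.residue V
  have : CharZero (IsLocalRing.ResidueField V) := by
    let ψ : ℂ →+* V := (algebraMap ℂ K6).codRestrict V.toSubring hV
    exact charZero_of_injective_ringHom (RingHom.injective (ρ.comp ψ))
  have hcub : ∀ (c : Fin 10 → V) (v : Fin 3 → ℕ),
      cub (fun j => ρ (c j)) (fun i => (v i : IsLocalRing.ResidueField V)) =
        ρ (cub c (fun i => (v i : V))) := by
    intro c v
    rw [map_cub]
    simp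
  have hcubK : ∀ (c : Fin 10 → V) (d : Fin 10 → K6) (v : Fin 3 → ℕ), (∀ j, (c j : K6) = d j / h) →
      ((cub c (fun i => (v i : V)) : V) : K6) = cub d (cst (nc v)) / h := by
    intro c d v hcd
    have h1 := map_cub V.subtype c (fun i => (v i : V))
    have h2 : ((cub c (fun i => (v i : V)) : V) : K6) =
      cub (fun i => (c i : K6)) (fun i => (v i : K6)) := by
      simpa using h1
    rw [h2]
    simp only [cub, hcd, cst, nc, map_natCast]
    ring
  have hunit : ∀ (c : Fin 10 → V) (d : Fin 10 → K6) (v : Fin 3 → ℕ), (∀ j, (c j : K6) = d j / h) →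
      cub d (cst (nc v)) ∈ E6 → (cub d (cst (nc v)) ≠ 0 → cub d (cst (nc v)) ∈ Idx) →
      cub (fun j => ρ (c j)) (fun i => (v i : IsLocalRing.ResidueField V)) = 0 := by
    intro c d v hcd hE6 hI
    by_contra hne
    rw [hcub] at hne
    have h1 : IsUnit (cub c (fun i => (v i : V))) := by
      by_contra h2
      exact hne ((IsLocalRing.residue_eq_zero_iff _).2 ((IsLocalRing.mem_maximalIdeal _).2 h2))
    obtain ⟨w, hw⟩ := h1.exists_right_inv
    have h3 : (cub d (cst (nc v)) / h) * (w : K6) = 1 := by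
      rw [← hcubK c d v hcd]
      exact congrArg Subtype.val hw
    have h4 : cub d (cst (nc v)) ≠ 0 := by
      intro h5
      rw [h5, zero_div, zero_mul] at h3
      exact zero_ne_one h3
    have h5 : (cub d (cst (nc v)) / h)⁻¹ ∈ V := by
      rw [inv_eq_of_mul_eq_one_right h3]
      exact w.2
    obtain ⟨f, hf, hf'⟩ := hcon _ (hI h4)
    exact hf' (key _ hE6 h4 h5 f hf)
  have hfz : ∀ j, ρ (a j) = 0 := testF (fun j => ρ (a j)) fun v hv =>
    hunit a (cf X6) v (fun j => rfl) (F0_mem _) (fun h => ⟨h, Or.inl ⟨v, hv, rfl⟩⟩)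
  have relV : ∀ s t : V, (s : K6) = t → ρ s = ρ t := fun s t hst => by rw [Subtype.ext hst]
  have hgz : ∀ j, ρ (b j) = 0 := by
    refine testG (fun j => ρ (a j)) (fun j => ρ (b j)) hfz ?_ ?_ ?_ ?_ ?_ fun v hv =>
      hunit b (cg X6) v (fun j => rfl) (G0_mem _) (fun h => ⟨h, Or.inr ⟨v, hv, rfl⟩⟩)
    · have := relV (b 1 ^ 2 - 3 * (b 0 * b 3)) (a 8 ^ 2 - 3 * (a 7 * a 9)) (by
        have := rel1 X6
        show (cg X6 1 / h) ^ 2 - 3 * (cg X6 0 / h * (cg X6 3 / h)) =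
          (cf X6 8 / h) ^ 2 - 3 * (cf X6 7 / h * (cf X6 9 / h))
        field_simp
        linear_combination this)
      simpa [map_ofNat ρ] using this
    · have := relV (b 2 ^ 2 - 3 * (b 0 * b 5)) (-3 * (a 3 * b 0) - 3 * (a 6 * b 1) - a 7 * b 2) (by
        have := rel2 X6
        show (cg X6 2 / h) ^ 2 - 3 * (cg X6 0 / h * (cg X6 5 / h)) =
          -3 * (cf X6 3 / h * (cg X6 0 / h)) - 3 * (cf X6 6 / h * (cg X6 1 / h)) -
            cf X6 7 / h * (cg X6 2 / h)
        field_simp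
        linear_combination this)
      simpa [map_ofNat ρ] using this
    · have := relV (b 3 ^ 2 - 3 * (b 1 * b 6)) (a 5 ^ 2 - 3 * (a 2 * a 9)) (by
        have := rel3 X6
        show (cg X6 3 / h) ^ 2 - 3 * (cg X6 1 / h * (cg X6 6 / h)) =
          (cf X6 5 / h) ^ 2 - 3 * (cf X6 2 / h * (cf X6 9 / h))
        field_simp
        linear_combination this)
      simpa [map_ofNat ρ] using this
    · have := relV (b 5 ^ 2 - 3 * (b 2 * b 9)) (a 3 ^ 2 - 3 * (a 1 * a 6)) (by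
        have := rel4 X6
        show (cg X6 5 / h) ^ 2 - 3 * (cg X6 2 / h * (cg X6 9 / h)) =
          (cf X6 3 / h) ^ 2 - 3 * (cf X6 1 / h * (cf X6 6 / h))
        field_simp
        linear_combination this)
      simpa [map_ofNat ρ] using this
    · have := relV (b 4 ^ 2 - 4 * (b 1 * b 8)) (-18 * (a 0 * b 0)
        + 2 * (a 1 * b 1) - 2 * (a 1 * a 8) - 2 * (a 2 * b 2) - 2 * (a 2 * a 7)
        + 4 * (a 3 * b 3) + 4 * (a 3 * a 5) + a 4 * b 4) (by
        have := rel5 X6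
        show (cg X6 4 / h) ^ 2 - 4 * (cg X6 1 / h * (cg X6 8 / h)) = -18 * (cf X6 0 / h * (cg X6 0 / h))
          + 2 * (cf X6 1 / h * (cg X6 1 / h)) - 2 * (cf X6 1 / h * (cf X6 8 / h))
          - 2 * (cf X6 2 / h * (cg X6 2 / h)) - 2 * (cf X6 2 / h * (cf X6 7 / h))
          + 4 * (cf X6 3 / h * (cg X6 3 / h)) + 4 * (cf X6 3 / h * (cf X6 5 / h))
          + cf X6 4 / h * (cg X6 4 / h)
        field_simp
        linear_combination this)
      simpa [map_ofNat ρ] using this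
  have hall : ∀ j : Fin 20, ρ ⟨hc X6 j / h, hu j⟩ = 0 := by
    intro j
    refine Fin.addCases (m := 10) (n := 10)
      (motive := fun j => ρ ⟨hc X6 j / h, hu j⟩ = 0) (fun i => ?_) (fun i => ?_) j
    · rw [← hfz i]
      congr 1
      exact Subtype.ext (by show _ / _ = _ / _; rw [hc_left])
    · rw [← hgz i]
      congr 1
      exact Subtype.ext (by show _ / _ = _ / _; rw [hc_right])
  have h1 := hall k
  have h2 : (⟨hc X6 k / h, hu k⟩ : V) = 1 := Subtype.ext (div_self hh)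
  rw [h2, map_one] at h1
  exact one_ne_zero h1

end Pool.Agent.H945R2
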