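import Mathlib
import Pool.Agent.H945R2.Atlas

/-! The variety is Fano. -/

noncomputable section

namespace Pool.Agent.H945R2

open FanoFib.Tor

/-- The sixfold. -/
def X : Variety where
  dim := 6
  K := K6
  ι := Idx
  fin := idx_finite.to_subtype
  chart l := ringOf l
  frac l := isFrac_ringOf l.2.1
  smooth l := by
    obtain ⟨P, hP⟩ := Idx.pres l.2
    rw [← hP]
    exact P.smooth
  separated l l' V h h' := Set.Subset.antisymm
    (separated_aux (Idx.mem_E l.2) l.2.1 (Idx.mem_E l'.2) l'.2.1 V h h')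
    (separated_aux (Idx.mem_E l'.2) l'.2.1 (Idx.mem_E l.2) l.2.1 V h' h)
  complete V hV := by
    obtain ⟨l, hl, h⟩ := complete_aux V hV
    exact ⟨⟨l, hl⟩, h⟩
  der := der6

lemma mem_points {A : Set K6} : A ∈ X.points ↔ ∃ l ∈ Idx, ∃ p : Ideal (ringOf l), p.IsPrime ∧
    A = locRing (ringOf l) p := by
  constructor
  · rintro ⟨l, p, hp, h⟩
    exact ⟨l.1, l.2, p, hp, h⟩
  · rintro ⟨l, hl, p, hp, h⟩
    exact ⟨⟨l, hl⟩, p, hp, h⟩

/-- `A` is closed under derivations in the sense of the coordinates. -/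
def DerClosed (x : Fin 6 → K6) (A : Subalgebra ℂ K6) : Prop :=
  ∀ z ∈ A, ∃ c : Fin 6 → K6, (∀ k, c k ∈ A) ∧ ∀ D : Derivation ℂ K6 K6, D z = ∑ k, D (x k) * c k

lemma jac_of_derClosed {x : Fin 6 → K6} {A : Subalgebra ℂ K6} (h : DerClosed x A)
    {g : Fin 6 → K6} (hg : ∀ j, g j ∈ A) : ∃ δ ∈ A,
      jacD (fun i => der6 i) g = jacD (fun i => der6 i) x * δ := by
  choose c hc hcD using fun j => h (g j) (hg j)
  refine ⟨Matrix.det (Matrix.of fun k j => c j k), ?_, ?_⟩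
  · have h1 : (Matrix.of fun k j => c j k) =
        (A.val : A →+* K6).mapMatrix (Matrix.of fun k j => (⟨c j k, hc j k⟩ : A)) := by
      ext k j
      rfl
    rw [h1, ← RingHom.map_det]
    exact Subtype.property _
  · rw [jacD, jacD, ← Matrix.det_mul]
    congr 1
    ext i j
    rw [Matrix.mul_apply, Matrix.of_apply, hcD j]
    rfl

namespace Pres

variable (P : Pres)

lemma derClosed_ring : DerClosed P.x (ringOf P.lam) := by
  intro z hz
  obtain ⟨p, rfl⟩ : ∃ p, MvPolynomial.aeval P.x p = z := by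
    have h1 := hz
    rw [P.ring_eq, Algebra.adjoin_range_eq_range_aeval] at h1
    exact h1
  refine ⟨fun k => MvPolynomial.aeval P.x (MvPolynomial.pderiv k p), fun k => ?_, fun D => ?_⟩
  · show MvPolynomial.aeval P.x (MvPolynomial.pderiv k p) ∈ ringOf P.lam
    rw [← P.coe_equiv]
    exact Subtype.property _
  · rw [D_aeval]
    exact Finset.sum_congr rfl fun k _ => mul_comm _ _

lemma derClosed_loc (p : Ideal (ringOf P.lam)) [p.IsPrime] :
    DerClosed P.x (locSub (ringOf P.lam) p) := by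
  rintro z ⟨a, s, hs, h⟩
  obtain ⟨ca, hca, ea⟩ := P.derClosed_ring a a.2
  obtain ⟨cs, hcs, es⟩ := P.derClosed_ring s s.2
  have hs0 := ne_zero_of_not_mem hs
  have hz : z ∈ locSub (ringOf P.lam) p := ⟨a, s, hs, h⟩
  have hin : ∀ w ∈ ringOf P.lam, w ∈ locSub (ringOf P.lam) p := fun w hw =>
    coe_mem_loc (⟨w, hw⟩ : ringOf P.lam)
  have hsi : (s : K6)⁻¹ ∈ locSub (ringOf P.lam) p := loc_inv hs
  refine ⟨fun k => (ca k - z * cs k) * (s : K6)⁻¹, fun k => ?_, fun D => ?_⟩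
  · exact Subalgebra.mul_mem _ (Subalgebra.sub_mem _ (hin _ (hca k))
      (Subalgebra.mul_mem _ hz (hin _ (hcs k)))) hsi
  · have h1 := congrArg D h
    rw [Derivation.leibniz, ea, es, smul_eq_mul, smul_eq_mul] at h1
    have h2 : D z = (∑ k, D (P.x k) * ca k - z * ∑ k, D (P.x k) * cs k) * (s : K6)⁻¹ := by
      rw [← h1]
      field_simp
      ring
    rw [h2, Finset.mul_sum, ← Finset.sum_sub_distrib, Finset.sum_mul]
    refine Finset.sum_congr rfl fun k _ => ?_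
    ring

end Pres

lemma div_mem_loc {l e : K6} {p : Ideal (ringOf l)} [p.IsPrime] (he : e ∈ E6) :
    e / l ∈ locRing (ringOf l) p :=
  coe_mem_loc (⟨e / l, div_mem_ringOf he⟩ : ringOf l)

/-- forms, in terms of `K6`. -/
def formsK (A : Set K6) : Set K6 :=
  {a | ∃ g : Fin 6 → K6, (∀ j, g j ∈ A) ∧ a = jacD (fun i => der6 i) g}

lemma antican_of {s : K6} (h : ∀ l ∈ Idx, ∀ a ∈ formsK (ringOf l), s * a ∈ ringOf l) :
    s ∈ X.antican 1 := by
  intro i a ha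
  have h1 := h i.1 i.2 (a 0) (ha 0)
  have h2 : (∏ k, a k) = a 0 := Fin.prod_univ_one a
  rw [h2]
  exact h1

lemma nonvanish_iff {s : K6} {A : Set K6} :
    X.NonvanishingAt 1 s A ↔ ∃ a ∈ formsK A, ∃ b ∈ A, s * a * b = 1 := by
  constructor
  · rintro ⟨a, ha, b, hb, h⟩
    have h2 : (∏ k, a k) = a 0 := Fin.prod_univ_one a
    rw [h2] at h
    exact ⟨a 0, ha 0, b, hb, h⟩
  · rintro ⟨a, ha, b, hb, h⟩
    refine ⟨fun _ => a, fun _ => ha, b, hb, ?_⟩
    have h2 : (∏ _k : Fin 1, a) = a := Fin.prod_univ_one _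
    exact (congrArg (fun t => s * t * b) h2).trans h

lemma jac_mem_formsK (P : Pres) (q : Ideal (ringOf P.lam)) [q.IsPrime] :
    jacD (fun i => der6 i) P.x ∈ formsK (locRing (ringOf P.lam) q) :=
  ⟨P.x, fun j => coe_mem_loc (⟨P.x j, P.x_mem_ring j⟩ : ringOf P.lam), rfl⟩

lemma nonvanish_aux (P : Pres) (q : Ideal (ringOf P.lam)) [hq : q.IsPrime] :
    X.NonvanishingAt 1 ((P.lam ^ 3 : K6)) (locRing (ringOf P.lam) q) := by
  obtain ⟨κ, hκ, hJ⟩ := P.hJ
  have hκ' : algebraMap ℂ K6 κ ≠ 0 := (map_ne_zero _).2 hκ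
  refine nonvanish_iff.2 ⟨_, jac_mem_formsK P q, (algebraMap ℂ K6 κ)⁻¹, ?_, ?_⟩
  · rw [← map_inv₀]
    exact (locSub (ringOf P.lam) q).algebraMap_mem _
  · rw [hJ]
    have := P.lam_ne
    field_simp

lemma antican_aux {l : K6} (hl : l ∈ E6) : (l ^ 3 : K6) ∈ X.antican 1 := by
  apply antican_of
  intro l' hl' a ha
  obtain ⟨Q, rfl⟩ := Idx.pres hl'
  obtain ⟨g, hg, rfl⟩ := ha
  obtain ⟨κ, hκ, hJ⟩ := Q.hJ
  obtain ⟨δ, hδ, hδ'⟩ := jac_of_derClosed Q.derClosed_ring hg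
  rw [hδ', hJ]
  have h2 : l ^ 3 * (algebraMap ℂ K6 κ * (Q.lam ^ 3)⁻¹ * δ) =
      algebraMap ℂ K6 κ * ((l / Q.lam) ^ 3 * δ) := by
    have := Q.lam_ne
    field_simp
  rw [h2]
  exact Subalgebra.mul_mem _ (Subalgebra.algebraMap_mem _ _)
    (Subalgebra.mul_mem _ (Subalgebra.pow_mem _ (div_mem_ringOf hl) 3) hδ)

lemma unit_of_nonvanish {l : K6} (hl : l ∈ E6) (hl0 : l ≠ 0) (Q : Pres) (p' : Ideal (ringOf Q.lam))
    [p'.IsPrime] (h : X.NonvanishingAt 1 ((l ^ 3 : K6)) (locRing (ringOf Q.lam) p')) :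
    l / Q.lam ∉ locMax (ringOf Q.lam) p' := by
  obtain ⟨a, ⟨g, hg, rfl⟩, b, hb, hab⟩ := nonvanish_iff.1 h
  obtain ⟨κ, hκ, hJ⟩ := Q.hJ
  obtain ⟨δ, hδ, hδ'⟩ := jac_of_derClosed (Q.derClosed_loc p') hg
  have h2 : (l / Q.lam) * ((l / Q.lam) ^ 2 * (algebraMap ℂ K6 κ * δ * b)) = 1 := by
    rw [← hab, hδ', hJ]
    have := Q.lam_ne
    field_simp
  have hm : l / Q.lam ∈ locSub (ringOf Q.lam) p' := div_mem_loc hl
  refine unit_not_mem (div_ne_zero hl0 Q.lam_ne) ?_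
  rw [inv_eq_of_mul_eq_one_right h2]
  exact Subalgebra.mul_mem _ (Subalgebra.pow_mem _ hm 2) (Subalgebra.mul_mem _
    (Subalgebra.mul_mem _ (Subalgebra.algebraMap_mem _ _) hδ) hb)

theorem isFano_X : X.IsFano := by
  intro A hA
  obtain ⟨l, hl, p, hp, rfl⟩ := mem_points.1 hA
  obtain ⟨P, rfl⟩ := Idx.pres hl
  refine ⟨1, le_rfl, (P.lam ^ 3 : K6), antican_aux P.lam_mem, nonvanish_aux P p, ringOf P.lam, P.fg, ?_⟩
  ext A'
  constructor
  · rintro ⟨hA', h⟩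
    obtain ⟨l', hl', p', hp', rfl⟩ := mem_points.1 hA'
    obtain ⟨Q, rfl⟩ := Idx.pres hl'
    have h3 := unit_of_nonvanish P.lam_mem P.lam_ne Q p' h
    obtain ⟨q, hq, hq', _⟩ := transfer Q.lam_mem Q.lam_ne P.lam_mem P.lam_ne h3
    exact ⟨q, hq, hq'⟩
  · rintro ⟨q, hq, rfl⟩
    exact ⟨mem_points.2 ⟨P.lam, hl, q, hq, rfl⟩, @nonvanish_aux P q hq⟩

/-! ### the embedding -/

lemma ringOf_eq_adjoin (l : K6) :
    ringOf l = Algebra.adjoin ℂ (Set.range fun j : Fin (19 + 1) => hc X6 j / l) := by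
  apply le_antisymm
  · refine ringOf_le fun e he => ?_
    rw [E6] at he
    induction he using Submodule.span_induction with
    | mem z hz => obtain ⟨j, rfl⟩ := hz; exact Algebra.subset_adjoin ⟨j, rfl⟩
    | zero => rw [zero_div]; exact Subalgebra.zero_mem _
    | add a b _ _ ha hb => rw [add_div]; exact Subalgebra.add_mem _ ha hb
    | smul c a _ ha => rw [smul_div_assoc]; exact Subalgebra.smul_mem _ ha c
  · rw [Algebra.adjoin_le_iff]
    rintro _ ⟨j, rfl⟩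
    exact div_mem_ringOf (hc_mem_E j)

lemma exists_hc_unit {l : K6} (hl : l ∈ E6) (hl0 : l ≠ 0) (p : Ideal (ringOf l)) [p.IsPrime] :
    ∃ i, hc X6 i / l ∉ locMax (ringOf l) p := by
  by_contra hcon
  push Not at hcon
  have h1 : ∀ e ∈ E6, e / l ∈ locMax (ringOf l) p := by
    intro e he
    rw [E6] at he
    induction he using Submodule.span_induction with
    | mem z hz => obtain ⟨j, rfl⟩ := hz; exact hcon j
    | zero => rw [zero_div]; exact ⟨0, 1, p.zero_mem, one_not_mem, by simp⟩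
    | add a b _ _ ha hb => rw [add_div]; exact locMax_add ha hb
    | smul c a _ ha =>
      rw [Algebra.smul_def, mul_div_assoc]
      exact locMax_mul ((locSub (ringOf l) p).algebraMap_mem c) ha
  have h2 := h1 l hl
  rw [div_self hl0] at h2
  exact one_not_mem_locMax h2

lemma emb_aux {l : K6} (hl : l ∈ Idx) (p : Ideal (ringOf l)) [hp : p.IsPrime] :
    ∃ i : Fin (19 + 1), hc X6 i ≠ 0 ∧ (∀ j, hc X6 j / hc X6 i ∈ locRing (ringOf l) p) ∧
    ∀ f ∈ locRing (ringOf l) p,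
      ∃ a ∈ Algebra.adjoin ℂ (Set.range fun j : Fin (19 + 1) => hc X6 j / hc X6 i),
      ∃ b ∈ Algebra.adjoin ℂ (Set.range fun j : Fin (19 + 1) => hc X6 j / hc X6 i),
        b ≠ 0 ∧ b⁻¹ ∈ locRing (ringOf l) p ∧ f = a / b := by
  have hlE := Idx.mem_E hl
  obtain ⟨i, hi⟩ := exists_hc_unit hlE hl.1 p
  have hi1 : hc X6 i / l ∈ locRing (ringOf l) p := div_mem_loc (hc_mem_E i)
  obtain ⟨h0, hinv⟩ := (locMax_or_unit hi1).resolve_left hi
  have hs : hc X6 i ≠ 0 := by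
    intro h
    rw [h, zero_div] at h0
    exact h0 rfl
  have hl0 := hl.1
  have hinv' : l / hc X6 i ∈ locRing (ringOf l) p := by rwa [inv_div] at hinv
  refine ⟨i, hs, fun j => ?_, ?_⟩
  · have h1 := loc_mul (div_mem_loc (p := p) (hc_mem_E j)) hinv'
    rwa [div_mul_div_cancel₀ hl.1] at h1
  · rintro f ⟨a, b, hb, hf⟩
    rw [← ringOf_eq_adjoin (hc X6 i)]
    obtain ⟨n, hn⟩ := ringOf_le_powSub (l' := hc X6 i) hlE hl.1 a.2
    obtain ⟨m, hm⟩ := ringOf_le_powSub (l' := hc X6 i) hlE hl.1 b.2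
    have hu : l / hc X6 i ∈ ringOf (hc X6 i) := div_mem_ringOf hlE
    have hu0 : l / hc X6 i ≠ 0 := div_ne_zero hl.1 hs
    have hb0 := ne_zero_of_not_mem hb
    refine ⟨_, Subalgebra.mul_mem _ hn (Subalgebra.pow_mem _ hu m), _,
      Subalgebra.mul_mem _ hm (Subalgebra.pow_mem _ hu n), ?_, ?_, ?_⟩
    · exact mul_ne_zero (mul_ne_zero hb0 (pow_ne_zero _ hu0)) (pow_ne_zero _ hu0)
    · rw [mul_inv, mul_inv, ← inv_pow, ← inv_pow, inv_div]
      have h3 : ∀ k : ℕ, (hc X6 i / l) ^ k ∈ locSub (ringOf l) p := fun k =>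
        Subalgebra.pow_mem _ hi1 k
      exact loc_mul (loc_mul (loc_inv hb) (h3 _)) (h3 _)
    · rw [← hf]
      field_simp

/-- the embedding in the projective space of dimension 19 -/
def emb : X.Embedding 19 where
  s := hc X6
  closed := by
    intro A hA
    obtain ⟨l, hl, p, hp, rfl⟩ := mem_points.1 hA
    exact emb_aux hl p

end Pool.Agent.H945R2
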