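import Mathlib
import Pool.Agent.H945R2.Dvr

/-! Orders along prime divisors. -/

namespace Pool.Agent.H945R2.Variety

variable {X : Variety}

lemma PrimeDivisor.hasOrder_of_unit (D : X.PrimeDivisor) {f : X.K} (hf : f ≠ 0) (h : f ∈ D.O)
    (h' : f⁻¹ ∈ D.O) : D.HasOrder f 0 := by
  have := D.dvr
  obtain ⟨π, hπ⟩ := IsDiscreteValuationRing.exists_irreducible D.O
  refine ⟨π, ⟨⟨f, h⟩, ⟨f⁻¹, h'⟩, Subtype.ext (mul_inv_cancel₀ hf),
    Subtype.ext (inv_mul_cancel₀ hf)⟩, hπ, ?_⟩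
  simp

lemma PrimeDivisor.hasOrder_irr (D : X.PrimeDivisor) {π : D.O} (hπ : Irreducible π) :
    D.HasOrder (π : X.K) 1 := ⟨π, 1, hπ, by simp⟩

lemma PrimeDivisor.exists_hasOrder (D : X.PrimeDivisor) {f : X.K} (hf : f ≠ 0) :
    ∃ n, D.HasOrder f n := by
  have := D.dvr
  have key : ∀ g : X.K, g ≠ 0 → g ∈ D.O → ∃ n, D.HasOrder g n := by
    intro g hg hgO
    obtain ⟨π, hπ⟩ := IsDiscreteValuationRing.exists_irreducible D.O
    have h0 : (⟨g, hgO⟩ : D.O) ≠ 0 := fun h => hg (congrArg Subtype.val h)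
    obtain ⟨n, u, hu⟩ := IsDiscreteValuationRing.eq_unit_mul_pow_irreducible h0 hπ
    refine ⟨n, π, u, hπ, ?_⟩
    have := congrArg Subtype.val hu
    simpa using this
  rcases D.O.mem_or_inv_mem f with h | h
  · exact key f hf h
  · obtain ⟨n, hn⟩ := key f⁻¹ (inv_ne_zero hf) h
    refine ⟨-n, ?_⟩
    have := hn.inv
    rwa [inv_inv] at this

lemma PrimeDivisor.hasOrder_one_eq (D : X.PrimeDivisor) {n : ℤ} (h : D.HasOrder 1 n) : n = 0 := by
  obtain ⟨π, u, hπ, h⟩ := h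
  have hπ0 : (π : X.K) ≠ 0 := fun h => hπ.ne_zero (Subtype.ext h)
  by_contra hn
  apply hπ.not_isUnit
  have key : ∀ (m : ℕ) (w : (D.O)ˣ), m ≠ 0 → (π : X.K) ^ m = ((w : D.O) : X.K) → IsUnit π := by
    intro m w hm hw
    have h1 : π ^ m = (w : D.O) := Subtype.ext (by push_cast; exact hw)
    exact (isUnit_pow_iff hm).1 (h1 ▸ w.isUnit)
  rcases lt_trichotomy n 0 with h1 | h1 | h1
  · obtain ⟨m, hm⟩ := Int.eq_ofNat_of_zero_le (neg_nonneg.2 h1.le)
    refine key m u (by omega) ?_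
    have h2 : (π : X.K) ^ m = (π : X.K) ^ (-n) := by rw [hm]; simp
    rw [h2, zpow_neg, inv_eq_of_mul_eq_one_left h.symm]
  · exact absurd h1 hn
  · obtain ⟨m, rfl⟩ := Int.eq_ofNat_of_zero_le h1.le
    refine key m u⁻¹ (by omega) ?_
    have h3 : (((u⁻¹ : (D.O)ˣ) : D.O) : X.K) = (((u : D.O) : X.K))⁻¹ := by
      have h3 := congrArg Units.val (map_inv (Units.map (D.O.subtype : D.O →* X.K)) u)
      rw [Units.val_inv_eq_inv_val] at h3
      exact h3
    rw [h3]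
    rw [eq_comm, inv_eq_of_mul_eq_one_right]
    simpa using h.symm

lemma PrimeDivisor.hasOrder_unique (D : X.PrimeDivisor) {f : X.K} (hf : f ≠ 0) {m n : ℤ}
    (h : D.HasOrder f m) (h' : D.HasOrder f n) : m = n := by
  have h1 := h.mul h'.inv
  rw [mul_inv_cancel₀ hf] at h1
  have := D.hasOrder_one_eq h1
  omega

end Pool.Agent.H945R2.Variety
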