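import Mathlib
import Pool.Agent.H945R2.Fano
import Pool.Agent.H945R2.Orders

/-! Prime divisors of the sixfold. -/

noncomputable section

namespace Pool.Agent.H945R2

open FanoFib.Tor

namespace Pres

variable (P : Pres)

/-- evaluation of the coordinate ring at a point -/
def evalPt (c : Fin 6 → ℂ) : ringOf P.lam →ₐ[ℂ] ℂ :=
  (MvPolynomial.aeval c).comp (P.equiv.symm : ringOf P.lam →ₐ[ℂ] MvPolynomial (Fin 6) ℂ)

lemma evalPt_xr (c : Fin 6 → ℂ) (i : Fin 6) : P.evalPt c (P.xr i) = c i := by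
  show MvPolynomial.aeval c (P.equiv.symm (P.xr i)) = c i
  rw [← P.equiv_X', AlgEquiv.symm_apply_apply, MvPolynomial.aeval_X]

/-- the elements `cf x j` of the coordinate ring. -/
def cfr (j : Fin 10) : ringOf P.lam := cf P.xr j
/-- the elements `cg x j` of the coordinate ring. -/
def cgr (j : Fin 10) : ringOf P.lam := cg P.xr j

lemma coe_cfr (j : Fin 10) : (P.cfr j : K6) = cf P.x j :=
  map_cf ((ringOf P.lam).val : ringOf P.lam →+* K6) P.xr j

lemma coe_cgr (j : Fin 10) : (P.cgr j : K6) = cg P.x j :=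
  map_cg ((ringOf P.lam).val : ringOf P.lam →+* K6) P.xr j

lemma evalPt_cfr (c : Fin 6 → ℂ) (j : Fin 10) : P.evalPt c (P.cfr j) = cf c j := by
  have := map_cf (P.evalPt c : ringOf P.lam →+* ℂ) P.xr j
  simp only [RingHom.coe_coe, evalPt_xr] at this
  exact this

lemma evalPt_cgr (c : Fin 6 → ℂ) (j : Fin 10) : P.evalPt c (P.cgr j) = cg c j := by
  have := map_cg (P.evalPt c : ringOf P.lam →+* ℂ) P.xr j
  simp only [RingHom.coe_coe, evalPt_xr] at this
  exact this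

lemma not_mem_span (c : Fin 6 → ℂ) {π z : ringOf P.lam} (h1 : P.evalPt c π = 0)
    (h2 : P.evalPt c z ≠ 0) : z ∉ Ideal.span {π} := by
  intro h
  obtain ⟨w, rfl⟩ := Ideal.mem_span_singleton.1 h
  rw [map_mul, h1, zero_mul] at h2
  exact h2 rfl

/-- `F y / lam` as an element of the coordinate ring. -/
def Fr (y : Fin 3 → ℂ) : ringOf P.lam := cub P.cfr (fun i => algebraMap ℂ _ (y i))

lemma coe_Fr (y : Fin 3 → ℂ) : (P.Fr y : K6) = P.F y / P.lam := by
  rw [P.hF, mul_div_cancel_left₀ _ P.lam_ne]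
  have := map_cub ((ringOf P.lam).val : ringOf P.lam →+* K6) P.cfr
    (fun i => algebraMap ℂ _ (y i))
  refine this.trans ?_
  have h1 : (fun j => ((ringOf P.lam).val : ringOf P.lam →+* K6) (P.cfr j)) = cf P.x :=
    funext P.coe_cfr
  rw [h1]
  rfl

lemma evalPt_Fr (c : Fin 6 → ℂ) (y : Fin 3 → ℂ) : P.evalPt c (P.Fr y) = cub (cf c) y := by
  have := map_cub (P.evalPt c : ringOf P.lam →+* ℂ) P.cfr (fun i => algebraMap ℂ _ (y i))
  refine this.trans ?_
  have h1 : (fun j => (P.evalPt c : ringOf P.lam →+* ℂ) (P.cfr j)) = cf c :=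
    funext (P.evalPt_cfr c)
  rw [h1]
  congr 1
  funext i
  exact (P.evalPt c).commutes (y i)

end Pres

/-- Moves change the forms only by linear changes of coordinates. -/
def Rel (P' P : Pres) : Prop :=
  ∀ y, ∃ (c : ℂ) (w : Fin 3 → ℂ), P'.G y = algebraMap ℂ K6 c * P.G w

lemma Rel.trans {P Q R : Pres} (h : Rel P Q) (h' : Rel Q R) : Rel P R := by
  intro y
  obtain ⟨c, w, hc⟩ := h y
  obtain ⟨d, u, hd⟩ := h' w
  refine ⟨c * d, u, ?_⟩
  rw [hc, hd, map_mul]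
  ring

namespace Pres

lemma toUnit' (P : Pres) (v : Fin 3 → ℂ) (h : P.F v ≠ 0) :
    ∃ P' : Pres, P'.lam = P.F v ∧ Rel P' P := by
  have main : ∀ (Q : Pres) (w : Fin 3 → ℂ), w 1 ≠ 0 → Q.F w ≠ 0 →
      ∃ P' : Pres, P'.lam = Q.F w ∧ Rel P' Q := by
    intro Q w hw hQ
    have h1 : (Q.moveT w hw).lam * cf (Q.moveT w hw).x 6 = Q.F w := by
      rw [cf6]
      show Q.F ![0 + 1 * w 0, 1 * w 1, 1 * w 2 + 0] = Q.F w
      congr 1
      rw [zero_add, one_mul, one_mul, one_mul, add_zero]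
      exact vec_eta w
    have h2 : cf (Q.moveT w hw).x 6 ≠ 0 := by
      intro h3
      rw [h3, mul_zero] at h1
      exact hQ h1.symm
    refine ⟨(Q.moveT w hw).moveS h2, h1, fun y => ⟨w 1 ^ 2, _, Algebra.smul_def _ _⟩⟩
  by_cases h1 : v 1 = 0
  · by_cases h2 : v 2 = 0
    · have h3 : P.F v = algebraMap ℂ K6 (v 0 ^ 3) * P.lam := by
        rw [P.hF, cub_smul, h1, h2, ← Algebra.smul_def]
        simp [cf]
      have h4 : v 0 ^ 3 ≠ 0 := by
        intro h5
        rw [h5, map_zero, zero_mul] at h3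
        exact h h3
      exact ⟨P.moveC _ h4, h3.symm, fun y => ⟨_, _, rfl⟩⟩
    · have h3 : P.moveP.F ![v 0, v 2, v 1] = P.F v := congrArg P.F (vec_eta v)
      obtain ⟨P', h4, h5⟩ := main P.moveP ![v 0, v 2, v 1] h2 (by rwa [h3])
      refine ⟨P', h4.trans h3, h5.trans fun y => ⟨1, ![y 0, y 2, y 1], ?_⟩⟩
      rw [map_one, one_mul]
      rfl
  · exact main P v h1 h

lemma cg4 (P : Pres) : P.lam * cg P.x 6 = P.G ![0, 1, 0] := by
  rw [P.hG, cst_vec]
  simp [cub]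

lemma cg9 (P : Pres) : P.lam * cg P.x 9 = P.G ![0, 0, 1] := by
  rw [P.hG, cst_vec]
  simp [cub]

end Pres

/-- the presentation of the chart containing the generic point of the divisor at infinity. -/
def P1 : Pres := P0.moveD

lemma P1_lam : P1.lam = - X6 0 := by
  show (1 : K6) * -X6 0 = -X6 0
  rw [one_mul]

lemma P1_lam' : P1.lam = G0 ![0, 0, 1] := P1.lam_eq.symm

lemma P1_F (y : Fin 3 → ℂ) : P1.F y = G0 ![y 2, y 1, y 0] := rfl
lemma P1_G (y : Fin 3 → ℂ) : P1.G y = F0 ![y 2, y 1, y 0] := rfl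

lemma nc_vec (a b c : ℕ) : nc ![a, b, c] = ![(a : ℂ), (b : ℂ), (c : ℂ)] := by
  funext i
  fin_cases i <;> rfl

lemma P1_idx : P1.lam ∈ Idx := by
  refine ⟨P1.lam_ne, Or.inr ⟨![0, 0, 1], ?_, ?_⟩⟩
  · simp [tG]
  · rw [nc_vec, P1_lam']
    simp

lemma one_idx : (1 : K6) ∈ Idx := by
  refine ⟨one_ne_zero, Or.inl ⟨![1, 0, 0], ?_, ?_⟩⟩
  · simp [tF]
  · rw [nc_vec]
    have := P0.lam_eq
    simp only [Nat.cast_one, Nat.cast_zero]
    exact this.symm

lemma F0_e1 : F0 ![1, 0, 0] = 1 := P0.lam_eq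

lemma inv_P1_lam : 1 / P1.lam = - P1.x 0 := by
  have h1 := P1.cg9
  have h2 : P1.G ![0, 0, 1] = 1 := F0_e1
  rw [h2] at h1
  have h3 := P1.lam_ne
  simp only [cg, Matrix.cons_val] at h1
  field_simp
  linear_combination -h1

end Pool.Agent.H945R2
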