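import Mathlib
import Pool.Agent.H945R2.PicA

/-! The unique prime divisor at infinity. -/

noncomputable section

namespace Pool.Agent.H945R2

open FanoFib.Tor

lemma coe_locMax_smul {l : K6} {p : Ideal (ringOf l)} [p.IsPrime] (c : ℂ) {z : K6}
    (h : z ∈ locMax (ringOf l) p) : algebraMap ℂ K6 c * z ∈ locMax (ringOf l) p :=
  locMax_mul ((locSub (ringOf l) p).algebraMap_mem c) h

/-- the maximal ideal as a complex vector space -/
def locMaxSub (l : K6) (p : Ideal (ringOf l)) [p.IsPrime] : Submodule ℂ K6 where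
  carrier := locMax (ringOf l) p
  add_mem' := locMax_add
  zero_mem' := ⟨0, 1, p.zero_mem, one_not_mem, by simp⟩
  smul_mem' c z hz := by
    rw [Algebra.smul_def]
    exact coe_locMax_smul c hz

lemma mem_locMaxSub {l : K6} {p : Ideal (ringOf l)} [p.IsPrime] {z : K6} :
    z ∈ locMaxSub l p ↔ z ∈ locMax (ringOf l) p := Iff.rfl

/-- if two local rings agree, so do their maximal ideals -/
lemma locMax_congr {l l' : K6} {p : Ideal (ringOf l)} {p' : Ideal (ringOf l')} [p.IsPrime]
    [p'.IsPrime] (h : locRing (ringOf l) p = locRing (ringOf l') p') :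
    locMax (ringOf l) p = locMax (ringOf l') p' := by
  ext z
  constructor
  · intro hz
    have h1 : z ∈ locRing (ringOf l') p' := by rw [← h]; exact locMax_sub hz
    by_contra h2
    obtain ⟨h3, h4⟩ := (locMax_or_unit h1).resolve_left h2
    rw [← h] at h4
    exact unit_not_mem h3 h4 hz
  · intro hz
    have h1 : z ∈ locRing (ringOf l) p := by rw [h]; exact locMax_sub hz
    by_contra h2
    obtain ⟨h3, h4⟩ := (locMax_or_unit h1).resolve_left h2
    rw [h] at h4
    exact unit_not_mem h3 h4 hz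

/-- change of presentation -/
lemma transferP {P Q : Pres} {p : Ideal (ringOf P.lam)} [p.IsPrime]
    (h : Q.lam / P.lam ∉ locMax (ringOf P.lam) p) :
    ∃ p' : Ideal (ringOf Q.lam), p'.IsPrime ∧ locRing (ringOf P.lam) p = locRing (ringOf Q.lam) p' ∧
      ∀ b : ringOf Q.lam, b ∈ p' ↔ (b : K6) ∈ locMax (ringOf P.lam) p :=
  transfer P.lam_mem P.lam_ne Q.lam_mem Q.lam_ne h

lemma quot_mem {P Q : Pres} {p : Ideal (ringOf P.lam)} [p.IsPrime]
    (h : Q.lam / P.lam ∉ locMax (ringOf P.lam) p) {e : K6} :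
    e / P.lam ∈ locMax (ringOf P.lam) p ↔ e / Q.lam ∈ locMax (ringOf P.lam) p := by
  have h1 : Q.lam / P.lam ∈ locRing (ringOf P.lam) p := div_mem_loc Q.lam_mem
  obtain ⟨h2, h3⟩ := (locMax_or_unit h1).resolve_left h
  have hP := P.lam_ne
  have hQ := Q.lam_ne
  constructor
  · intro he
    have := locMax_mul h3 he
    convert this using 1
    field_simp
  · intro he
    have := locMax_mul h1 he
    convert this using 1
    field_simp

section final
variable (O : ValuationSubring K6) (hd : IsDiscreteValuationRing O)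
include hd

/-- final step: chart `P1`. -/
lemma final_step {Q : Pres} {q : Ideal (ringOf Q.lam)} [q.IsPrime]
    (hO : (O : Set K6) = locRing (ringOf Q.lam) q) (h1 : 1 / Q.lam ∈ locMax (ringOf Q.lam) q)
    (h2 : P1.lam / Q.lam ∉ locMax (ringOf Q.lam) q) :
    (O : Set K6) = locRing (ringOf P1.lam) (Ideal.span {P1.xr 0}) := by
  obtain ⟨p, hp, hp', hmem⟩ := transferP h2
  have h3 : 1 / P1.lam ∈ locMax (ringOf Q.lam) q := (quot_mem h2).1 h1
  have h4 : P1.xr 0 ∈ p := by
    rw [hmem]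
    show P1.x 0 ∈ _
    have h5 : P1.x 0 = algebraMap ℂ K6 (-1) * (1 / P1.lam) := by
      rw [inv_P1_lam, map_neg, map_one]; ring
    rw [h5]
    exact coe_locMax_smul _ h3
  have h6 := dvr_unique O hd (hO.trans hp') (P1.prime_x 0) h4
  rw [hO, hp', h6]

/-- case (ii), for a presentation with second vector adapted. -/
lemma step_two {P : Pres} {p : Ideal (ringOf P.lam)} [p.IsPrime]
    (hO : (O : Set K6) = locRing (ringOf P.lam) p) (h1 : 1 / P.lam ∈ locMax (ringOf P.lam) p)
    (hP : P.F ![0, 1, 0] = 1) (κ : ℂ) (a b : ℂ) (hab : a ≠ 0 ∨ b ≠ 0)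
    (hG : P.G ![b, 0, a] = algebraMap ℂ K6 κ * P1.lam) :
    (O : Set K6) = locRing (ringOf P1.lam) (Ideal.span {P1.xr 0}) := by
  -- `x 0` is a unit
  have hN : P.cfr 6 ∈ p := by
    rw [← coe_mem_locMax, P.coe_cfr]
    have h2 := P.cf6
    rw [hP] at h2
    have h3 : cf P.x 6 = 1 / P.lam := by
      rw [eq_div_iff P.lam_ne, mul_comm, h2]
    rw [h3]
    exact h1
  have hx0 : P.xr 0 ∉ p := by
    intro h
    have h2 := dvr_unique O hd hO (P.prime_x 0) h
    rw [h2] at hN
    refine P.not_mem_span ![0, 0, 1, 0, 0, 0] ?_ ?_ hN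
    · rw [P.evalPt_xr]; simp
    · rw [P.evalPt_cfr]
      simp [cf, pp]
  have hxm : P.x 0 ∉ locMax (ringOf P.lam) p := by
    have := (coe_mem_locMax (p := p) (P.xr 0)).not.2 hx0
    exact this
  -- move to `Q`
  have hQ : P.moveD.lam / P.lam ∉ locMax (ringOf P.lam) p := by
    have h2 : P.moveD.lam / P.lam = - P.x 0 := by
      show (P.lam * -P.x 0) / P.lam = _
      rw [mul_div_cancel_left₀ _ P.lam_ne]
    rw [h2]
    intro h3
    apply hxm
    have := coe_locMax_smul (-1) h3
    rwa [map_neg, map_one, neg_mul_neg, one_mul] at this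
  have hQG : P.moveD.G ![0, 1, 0] = 1 := hP
  have hF : P.moveD.F ![a, 0, b] = algebraMap ℂ K6 κ * P1.lam := hG
  generalize P.moveD = Q at hQ hQG hF
  obtain ⟨q, hq, hq', hmem⟩ := transferP hQ
  have h1' : 1 / Q.lam ∈ locMax (ringOf P.lam) p := (quot_mem hQ).1 h1
  have hx4 : Q.xr 4 ∈ q := by
    rw [hmem]
    show Q.x 4 ∈ _
    have h5 : Q.x 4 = algebraMap ℂ K6 (-1) * (1 / Q.lam) := by
      have h6 := Q.cg4
      rw [hQG] at h6
      simp only [cg, Matrix.cons_val] at h6
      rw [map_neg, map_one, eq_comm, neg_one_mul, neg_eq_iff_eq_neg, div_eq_iff Q.lam_ne]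
      linear_combination -h6
    rw [h5]
    exact coe_locMax_smul _ h1'
  have hq4 := dvr_unique O hd (hO.trans hq') (Q.prime_x 4) hx4
  -- the value at the vector
  have hmc := locMax_congr hq'
  apply final_step O hd (hO.trans hq')
  · rw [← hmc]; exact h1'
  · intro h3
    have h4 : (Q.Fr ![a, 0, b] : K6) ∈ locMax (ringOf Q.lam) q := by
      rw [Q.coe_Fr, hF, mul_div_assoc]
      exact coe_locMax_smul _ h3
    rw [coe_mem_locMax, hq4] at h4
    obtain ⟨t, ht⟩ : ∃ t : ℂ, a + b * t ≠ 0 ∧ a - b * t ≠ 0 := by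
      by_cases ha : a = 0
      · have hb : b ≠ 0 := by
          rcases hab with h | h
          · exact absurd ha h
          · exact h
        exact ⟨1, by rw [ha]; simpa using hb, by rw [ha]; simpa using hb⟩
      · exact ⟨0, by simpa using ha, by simpa using ha⟩
    refine Q.not_mem_span ![0, 0, 0, t, 0, 0] ?_ ?_ h4
    · rw [Q.evalPt_xr]; simp
    · rw [Q.evalPt_Fr]
      have h5 : cub (cf ![0, 0, 0, t, 0, 0]) ![a, 0, b] = (a + b * t) ^ 2 * (a - b * t) := by
        simp [cub, cf, pp, qq, rr]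
        ring
      rw [h5]
      exact mul_ne_zero (pow_ne_zero _ ht.1) ht.2

/-- case (i) -/
lemma step_one {P : Pres} {p : Ideal (ringOf P.lam)} [p.IsPrime]
    (hO : (O : Set K6) = locRing (ringOf P.lam) p)
    (hall : ∀ v, F0 v / P.lam ∈ locMax (ringOf P.lam) p) : False := by
  obtain ⟨w, hw⟩ : ∃ w, G0 w / P.lam ∉ locMax (ringOf P.lam) p := by
    by_contra hcon
    push Not at hcon
    have h1 : ∀ e ∈ E6, e / P.lam ∈ locMaxSub P.lam p := by
      intro e he
      have he' := E6_le he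
      clear he
      induction he' using Submodule.span_induction with
      | mem z hz =>
        rcases hz with ⟨y, rfl⟩ | ⟨y, rfl⟩
        · exact hall y
        · exact hcon y
      | zero => rw [zero_div]; exact Submodule.zero_mem _
      | add a b _ _ ha hb => rw [add_div]; exact Submodule.add_mem _ ha hb
      | smul c a _ ha => rw [smul_div_assoc]; exact Submodule.smul_mem _ _ ha
    have h2 := h1 _ P.lam_mem
    rw [div_self P.lam_ne] at h2
    exact one_not_mem_locMax h2
  have hw0 : G0 w ≠ 0 := by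
    intro h
    apply hw
    rw [h, zero_div]
    exact (locMaxSub P.lam p).zero_mem
  have hF : P1.F ![w 2, w 1, w 0] = G0 w := congrArg G0 (vec_eta w)
  obtain ⟨Q, hQl, hQr⟩ := P1.toUnit' ![w 2, w 1, w 0] (by rwa [hF])
  rw [hF] at hQl
  have hQ : Q.lam / P.lam ∉ locMax (ringOf P.lam) p := by rwa [hQl]
  have hG : ∀ y, Q.G y / Q.lam ∈ locMax (ringOf P.lam) p := by
    intro y
    rw [← quot_mem hQ]
    obtain ⟨c, u, hc⟩ := hQr y
    rw [hc, mul_div_assoc]
    exact coe_locMax_smul c (hall _)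
  obtain ⟨q, hq, hq', hmem⟩ := transferP hQ
  have hx4 : Q.xr 4 ∈ q := by
    rw [hmem]
    show Q.x 4 ∈ _
    have h5 : Q.x 4 = algebraMap ℂ K6 (-1) * (Q.G ![0, 1, 0] / Q.lam) := by
      have h6 := Q.cg4
      simp only [cg, Matrix.cons_val] at h6
      rw [map_neg, map_one, eq_comm, neg_one_mul, neg_eq_iff_eq_neg, div_eq_iff Q.lam_ne]
      linear_combination -h6
    rw [h5]
    exact coe_locMax_smul _ (hG _)
  have hx0 : Q.xr 0 ∈ q := by
    rw [hmem]
    show Q.x 0 ∈ _
    have h5 : Q.x 0 = algebraMap ℂ K6 (-1) * (Q.G ![0, 0, 1] / Q.lam) := by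
      have h6 := Q.cg9
      simp only [cg, Matrix.cons_val] at h6
      rw [map_neg, map_one, eq_comm, neg_one_mul, neg_eq_iff_eq_neg, div_eq_iff Q.lam_ne]
      linear_combination -h6
    rw [h5]
    exact coe_locMax_smul _ (hG _)
  have hq4 := dvr_unique O hd (hO.trans hq') (Q.prime_x 0) hx0
  rw [hq4] at hx4
  refine Q.not_mem_span ![0, 0, 0, 0, 1, 0] ?_ ?_ hx4
  · rw [Q.evalPt_xr]; simp
  · rw [Q.evalPt_xr]; simp

/-- case (ii), for a base presentation `B` -/
lemma step_two' {P : Pres} {p : Ideal (ringOf P.lam)} [p.IsPrime]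
    (hO : (O : Set K6) = locRing (ringOf P.lam) p) (h1 : 1 / P.lam ∈ locMax (ringOf P.lam) p)
    (B : Pres) (hB : B.F ![1, 0, 0] = 1) (v : Fin 3 → ℂ) (hv : v 1 ≠ 0)
    (hvB : B.F v / P.lam ∉ locMax (ringOf P.lam) p) (a b : ℂ) (hab : a ≠ 0 ∨ b ≠ 0)
    (hG : B.G ![0, (b - v 2 * a) / v 1, a] = P1.lam) :
    (O : Set K6) = locRing (ringOf P1.lam) (Ideal.span {P1.xr 0}) := by
  have hBv : B.F v ≠ 0 := by
    intro h
    apply hvB
    rw [h, zero_div]
    exact (locMaxSub P.lam p).zero_mem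
  have h2 : (B.moveT v hv).lam * cf (B.moveT v hv).x 6 = B.F v := by
    rw [Pres.cf6]
    show B.F ![0 + 1 * v 0, 1 * v 1, 1 * v 2 + 0] = B.F v
    congr 1
    rw [zero_add, one_mul, one_mul, one_mul, add_zero]
    exact vec_eta v
  have h3 : cf (B.moveT v hv).x 6 ≠ 0 := by
    intro h3
    rw [h3, mul_zero] at h2
    exact hBv h2.symm
  have hlam : ((B.moveT v hv).moveS h3).lam = B.F v := h2
  have hF1 : ((B.moveT v hv).moveS h3).F ![0, 1, 0] = 1 := by
    rw [← hB]
    show B.F ![1 + 0 * v 0, 0 * v 1, 0 * v 2 + 0] = B.F ![1, 0, 0]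
    congr 1
    simp
  have hG1 : ((B.moveT v hv).moveS h3).G ![b, 0, a] = algebraMap ℂ K6 (v 1 ^ 2) * P1.lam := by
    rw [← hG, ← Algebra.smul_def]
    show (v 1 ^ 2) • B.G ![0, (b - v 0 * 0 - v 2 * a) / v 1, a] = _
    congr 3
    ring_nf
  generalize (B.moveT v hv).moveS h3 = Q at hlam hF1 hG1
  have hQ : Q.lam / P.lam ∉ locMax (ringOf P.lam) p := by rwa [hlam]
  obtain ⟨q, hq, hq', _⟩ := transferP hQ
  apply step_two O hd (hO.trans hq') _ hF1 _ a b hab hG1
  rw [← locMax_congr hq', ← quot_mem hQ]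
  exact h1

/-- The local ring of a prime divisor contained in the locus at infinity. -/
theorem infinity_divisor {P : Pres} {p : Ideal (ringOf P.lam)} [p.IsPrime]
    (hO : (O : Set K6) = locRing (ringOf P.lam) p) (h1 : 1 / P.lam ∈ locMax (ringOf P.lam) p) :
    (O : Set K6) = locRing (ringOf P1.lam) (Ideal.span {P1.xr 0}) := by
  by_cases hall : ∀ v, F0 v / P.lam ∈ locMax (ringOf P.lam) p
  · exact (step_one O hd hO hall).elim
  · push Not at hall
    obtain ⟨v, hv⟩ := hall
    by_cases hv1 : v 1 = 0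
    · by_cases hv2 : v 2 = 0
      · exfalso
        apply hv
        have h3 : F0 v = algebraMap ℂ K6 (v 0 ^ 3) := by
          rw [F0, cub_smul, hv1, hv2]
          simp [cf, Algebra.smul_def]
        rw [h3, div_eq_mul_one_div]
        exact coe_locMax_smul _ h1
      · refine step_two' O hd hO h1 P0.moveP F0_e1 ![v 0, v 2, v 1] hv2 ?_ 0 (v 2) (Or.inr hv2) ?_
        · have h3 : P0.moveP.F ![v 0, v 2, v 1] = F0 v := congrArg F0 (vec_eta v)
          rwa [h3]
        · rw [P1_lam']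
          show G0 ![0, 0, (v 2 - v 1 * 0) / v 2] = _
          rw [mul_zero, sub_zero, div_self hv2]
    · refine step_two' O hd hO h1 P0 F0_e1 v hv1 hv 1 (v 2) (Or.inl one_ne_zero) ?_
      rw [P1_lam', mul_one, sub_self, zero_div]
      rfl

end final

end Pool.Agent.H945R2
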