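import Mathlib
import Pool.Agent.H945R2.PicB

/-! The Picard group. -/

noncomputable section

namespace Pool.Agent.H945R2

open FanoFib.Tor

section mk

variable {R : Subalgebra ℂ K6} [UniqueFactorizationMonoid R] {π : R} (hπ : Prime π)
  (hfrac : ∀ z : K6, ∃ a b : R, b ≠ 0 ∧ z * b = a)
include hπ hfrac

lemma mkO_unit_iff (z : mkO hπ hfrac) :
    IsUnit z ↔ (z : K6) ∉ locMax R (Ideal.span {π}) := by
  have hpr := span_prime hπ
  constructor
  · intro hz
    obtain ⟨w, hw⟩ := hz.exists_right_inv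
    have h1 : (z : K6) * (w : K6) = 1 := congrArg Subtype.val hw
    intro h2
    have h3 := locMax_mul w.2 h2
    rw [mul_comm, h1] at h3
    exact one_not_mem_locMax h3
  · intro hz
    obtain ⟨h0, hi⟩ := (locMax_or_unit z.2).resolve_left hz
    exact IsUnit.of_mul_eq_one ⟨(z : K6)⁻¹, hi⟩ (Subtype.ext (mul_inv_cancel₀ h0))

lemma mem_mkO_self : (π : K6) ∈ mkO hπ hfrac := by
  have hpr := span_prime hπ
  exact coe_mem_loc (p := Ideal.span {π}) π

lemma mkO_irreducible : Irreducible (⟨(π : K6), mem_mkO_self hπ hfrac⟩ : mkO hπ hfrac) := by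
  have hpr := span_prime hπ
  have := mkO_dvr hπ hfrac
  rw [IsDiscreteValuationRing.irreducible_iff_uniformizer]
  apply le_antisymm
  · intro z hz
    rw [IsLocalRing.mem_maximalIdeal, mem_nonunits_iff, mkO_unit_iff, not_not] at hz
    obtain ⟨a, s, ha, hs, h⟩ := hz
    obtain ⟨a', rfl⟩ := Ideal.mem_span_singleton.1 ha
    have hs0 := ne_zero_of_not_mem hs
    rw [Ideal.mem_span_singleton]
    refine ⟨⟨(a' : K6) * (s : K6)⁻¹, loc_mul (coe_mem_loc a') (loc_inv hs)⟩, Subtype.ext ?_⟩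
    show (z : K6) = (π : K6) * ((a' : K6) * (s : K6)⁻¹)
    push_cast at h
    field_simp
    linear_combination h
  · rw [Ideal.span_singleton_le_iff_mem, IsLocalRing.mem_maximalIdeal, mem_nonunits_iff,
      mkO_unit_iff, not_not]
    exact (coe_mem_locMax π).2 (Ideal.mem_span_singleton_self π)

end mk

/-- the valuation ring of a prime divisor, as a valuation ring of `K6`. -/
def OK (D : X.PrimeDivisor) : ValuationSubring K6 := D.O

lemma OK_dvr (D : X.PrimeDivisor) : IsDiscreteValuationRing (OK D) := D.dvr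

lemma OK_point (D : X.PrimeDivisor) : (OK D : Set K6) ∈ X.points := D.isPoint

lemma pd_ext {D D' : X.PrimeDivisor} (h : (OK D : Set K6) = OK D') : D = D' := by
  have h1 : OK D = OK D' := SetLike.coe_injective h
  cases D
  cases D'
  simp only [OK] at h1
  subst h1
  rfl

/-- the valuation ring of the divisor at infinity -/
def O0 : ValuationSubring K6 :=
  haveI := P1.ufm
  mkO (P1.prime_x 0) (frac_ringOf P1.lam_ne)

lemma O0_coe : (O0 : Set K6) = locRing (ringOf P1.lam) (Ideal.span {P1.xr 0}) := rfl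

lemma O0_dvr : IsDiscreteValuationRing O0 :=
  haveI := P1.ufm
  mkO_dvr (P1.prime_x 0) (frac_ringOf P1.lam_ne)

/-- the divisor at infinity -/
def D0 : X.PrimeDivisor where
  O := O0
  isPoint := mem_points.2 ⟨P1.lam, P1_idx, Ideal.span {P1.xr 0}, span_prime (P1.prime_x 0), rfl⟩
  dvr := O0_dvr

/-- the valuation ring of a prime polynomial on the base chart -/
def Op (π : ringOf P0.lam) (hπ : Prime π) : ValuationSubring K6 :=
  haveI := P0.ufm
  mkO hπ (frac_ringOf P0.lam_ne)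

lemma Op_dvr (π : ringOf P0.lam) (hπ : Prime π) : IsDiscreteValuationRing (Op π hπ) :=
  haveI := P0.ufm
  mkO_dvr hπ (frac_ringOf P0.lam_ne)

/-- the divisor of a prime polynomial on the base chart -/
def Dp (π : ringOf P0.lam) (hπ : Prime π) : X.PrimeDivisor where
  O := Op π hπ
  isPoint := mem_points.2 ⟨P0.lam, one_idx, Ideal.span {π}, span_prime hπ, rfl⟩
  dvr := Op_dvr π hπ

lemma D0_O : (OK D0 : Set K6) = locRing (ringOf P1.lam) (Ideal.span {P1.xr 0}) := rfl
lemma Dp_O (π : ringOf P0.lam) (hπ : Prime π) :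
    (OK (Dp π hπ) : Set K6) = locRing (ringOf P0.lam) (Ideal.span {π}) := rfl

/-- classification of the prime divisors. -/
lemma pd_cases (D : X.PrimeDivisor) : D = D0 ∨ ∃ (π : ringOf P0.lam) (hπ : Prime π), D = Dp π hπ := by
  obtain ⟨l, hl, p, hp, hO⟩ := mem_points.1 (OK_point D)
  obtain ⟨P, rfl⟩ := Idx.pres hl
  by_cases h1 : 1 / P.lam ∈ locMax (ringOf P.lam) p
  · left
    exact pd_ext ((infinity_divisor (OK D) (OK_dvr D) hO h1).trans D0_O.symm)
  · right
    have h1' : P0.lam / P.lam ∉ locMax (ringOf P.lam) p := h1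
    obtain ⟨q, hq, hq', _⟩ := transferP h1'
    have hO' : (OK D : Set K6) = locRing (ringOf P0.lam) q := hO.trans hq'
    have hq0 : q ≠ ⊥ := by
      intro hq0
      have := OK_dvr D
      obtain ⟨ϖ, hϖ⟩ := IsDiscreteValuationRing.exists_irreducible (OK D)
      apply hϖ.not_isUnit
      have hall : ∀ z : K6, z ∈ (OK D : Set K6) := by
        intro z
        rw [hO']
        obtain ⟨a, b, hb, h⟩ := frac_ringOf P0.lam_ne z
        refine ⟨a, b, ?_, h⟩
        rw [hq0, Ideal.mem_bot]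
        exact hb
      have hne : (ϖ : K6) ≠ 0 := fun h => hϖ.ne_zero (Subtype.ext h)
      exact IsUnit.of_mul_eq_one ⟨(ϖ : K6)⁻¹, hall _⟩ (Subtype.ext (mul_inv_cancel₀ hne))
    have := P0.ufm
    obtain ⟨π, hπq, hπ⟩ := Ideal.IsPrime.exists_mem_prime_of_ne_bot hq hq0
    refine ⟨π, hπ, pd_ext ?_⟩
    have h2 := dvr_unique (OK D) (OK_dvr D) hO' hπ hπq
    rw [h2] at hO'
    exact hO'.trans (Dp_O π hπ).symm

lemma Dp_ne_D0 (π : ringOf P0.lam) (hπ : Prime π) : Dp π hπ ≠ D0 := by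
  intro h
  have h1 : (OK D0 : Set K6) = (OK (Dp π hπ) : Set K6) := by rw [h]
  rw [D0_O, Dp_O] at h1
  have hpr := span_prime hπ
  have hpr' := span_prime (P1.prime_x 0)
  have h2 : P1.lam ∈ locRing (ringOf P0.lam) (Ideal.span {π}) := by
    have h3 := P1.lam_mem
    have h4 := div_mem_ringOf (l := P0.lam) h3
    have h5 : P1.lam / P0.lam = P1.lam := div_one _
    rw [h5] at h4
    exact coe_mem_loc (⟨_, h4⟩ : ringOf P0.lam)
  rw [← h1] at h2
  have h3 : P1.x 0 ∈ locMax (ringOf P1.lam) (Ideal.span {P1.xr 0}) :=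
    (coe_mem_locMax (P1.xr 0)).2 (Ideal.mem_span_singleton_self _)
  have h4 := locMax_mul h2 h3
  have h5 : P1.lam * P1.x 0 = algebraMap ℂ K6 (-1) * 1 := by
    have := inv_P1_lam
    have h6 : P1.x 0 = -(1 / P1.lam) := by rw [this, neg_neg]
    have h7 := P1.lam_ne
    rw [h6, map_neg, map_one]
    field_simp
  rw [h5] at h4
  have h6 := coe_locMax_smul (-1) h4
  rw [← mul_assoc, ← map_mul] at h6
  norm_num at h6
  exact one_not_mem_locMax h6

lemma hasOrder_irrK (D : X.PrimeDivisor) {π : OK D} (hπ : Irreducible π) :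
    D.HasOrder (π : K6) 1 := D.hasOrder_irr hπ

lemma hasOrder_of_unitK (D : X.PrimeDivisor) {f : K6} (hf : f ≠ 0) (h : f ∈ (OK D : Set K6))
    (h' : f⁻¹ ∈ (OK D : Set K6)) : D.HasOrder f 0 := D.hasOrder_of_unit hf h h'

lemma mem_Op_self (π : ringOf P0.lam) (hπ : Prime π) : (π : K6) ∈ OK (Dp π hπ) :=
  haveI := P0.ufm
  mem_mkO_self hπ (frac_ringOf P0.lam_ne)

lemma Op_irreducible (π : ringOf P0.lam) (hπ : Prime π) :
    Irreducible (⟨(π : K6), mem_Op_self π hπ⟩ : OK (Dp π hπ)) :=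
  haveI := P0.ufm
  mkO_irreducible hπ (frac_ringOf P0.lam_ne)

lemma Dp_order_self (π : ringOf P0.lam) (hπ : Prime π) : (Dp π hπ).HasOrder (π : K6) 1 :=
  hasOrder_irrK (Dp π hπ) (Op_irreducible π hπ)

lemma hasOrder_zero_of_not_mem {π : ringOf P0.lam} (hπ : Prime π) {a : ringOf P0.lam}
    (ha : a ∉ Ideal.span {π}) : (Dp π hπ).HasOrder (a : K6) 0 := by
  have hpr := span_prime hπ
  exact hasOrder_of_unitK (Dp π hπ) (ne_zero_of_not_mem ha) (coe_mem_loc a) (loc_inv ha)

lemma Dp_congr {π π' : ringOf P0.lam} (hπ : Prime π) (hπ' : Prime π')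
    (h : π ∈ Ideal.span {π'}) : Dp π hπ = Dp π' hπ' := by
  rw [Ideal.mem_span_singleton] at h
  have h1 : Associated π' π := (hπ'.dvd_prime_iff_associated hπ).1 h
  have h2 : Ideal.span {π} = Ideal.span {π'} := (Ideal.span_singleton_eq_span_singleton.2 h1).symm
  apply pd_ext
  rw [Dp_O, Dp_O, h2]

lemma Dp_order_other {π π' : ringOf P0.lam} (hπ : Prime π) (hπ' : Prime π')
    (h : Dp π hπ ≠ Dp π' hπ') : (Dp π' hπ').HasOrder (π : K6) 0 :=
  hasOrder_zero_of_not_mem hπ' fun h1 => h (Dp_congr hπ hπ' h1)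

open Classical in
lemma principal_of_prime (π : ringOf P0.lam) (hπ : Prime π) :
    ∃ m : ℤ, (Finsupp.single (Dp π hπ) 1 + Finsupp.single D0 m : X.PrimeDivisor →₀ ℤ) ∈
      X.principal := by
  have hne : (π : K6) ≠ 0 := fun h => hπ.ne_zero (Subtype.ext h)
  obtain ⟨m, hm⟩ := D0.exists_hasOrder (f := (π : K6)) hne
  refine ⟨m, (π : K6), hne, fun D => ?_⟩
  rw [Finsupp.add_apply, Finsupp.single_apply, Finsupp.single_apply]
  rcases pd_cases D with rfl | ⟨π', hπ', rfl⟩
  · rw [if_neg (Dp_ne_D0 π hπ), if_pos rfl, zero_add]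
    exact hm
  · rw [if_neg (Dp_ne_D0 π' hπ').symm, add_zero]
    split_ifs with h
    · rw [← h]
      exact Dp_order_self π hπ
    · exact Dp_order_other hπ hπ' h

lemma unit_const {a : ringOf P0.lam} (ha : IsUnit a) : ∃ c : ℂ, c ≠ 0 ∧ (a : K6) = algebraMap ℂ K6 c := by
  have h1 : IsUnit (P0.equiv.symm a) := ha.map P0.equiv.symm
  rw [MvPolynomial.isUnit_iff_eq_C_of_isReduced] at h1
  obtain ⟨c, hc, h⟩ := h1
  refine ⟨c, hc.ne_zero, ?_⟩
  have h2 : a = P0.equiv (MvPolynomial.C c) := by rw [← h, AlgEquiv.apply_symm_apply]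
  rw [h2, P0.coe_equiv, MvPolynomial.aeval_C]

lemma isUnit_of_orders {f : K6} {a b : ringOf P0.lam} (hb : b ≠ 0) (hfa : f * b = a)
    (hf : f ≠ 0) (hab : IsRelPrime a b)
    (h : ∀ (π : ringOf P0.lam) (hπ : Prime π), f⁻¹ ∈ (OK (Dp π hπ) : Set K6)) : IsUnit a := by
  by_contra hu
  have ha : a ≠ 0 := by
    rintro rfl
    rw [ZeroMemClass.coe_zero, mul_eq_zero] at hfa
    rcases hfa with h | h
    · exact hf h
    · exact hb (Subtype.ext h)
  have := P0.ufm
  obtain ⟨π, hπi, hπa⟩ := WfDvdMonoid.exists_irreducible_factor hu ha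
  have hπ : Prime π := UniqueFactorizationMonoid.irreducible_iff_prime.1 hπi
  have hpr := span_prime hπ
  have hπb : ¬ π ∣ b := fun h1 => hπ.not_isUnit (hab hπa h1)
  have h1 := h π hπ
  rw [Dp_O] at h1
  have h2 : f ∈ locMax (ringOf P0.lam) (Ideal.span {π}) :=
    ⟨a, b, Ideal.mem_span_singleton.2 hπa, by rwa [Ideal.mem_span_singleton], hfa⟩
  exact unit_not_mem hf h1 h2

lemma mem_of_hasOrder_zero {D : X.PrimeDivisor} {f : K6} (h : D.HasOrder f 0) :
    f ∈ (OK D : Set K6) ∧ f⁻¹ ∈ (OK D : Set K6) := by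
  obtain ⟨ϖ, u, _, h1⟩ := h
  rw [zpow_zero, mul_one] at h1
  have h3 : (((u⁻¹ : (D.O)ˣ) : D.O) : X.K) = (((u : D.O) : X.K))⁻¹ := by
    have h3 := congrArg Units.val (map_inv (Units.map (D.O.subtype : D.O →* X.K)) u)
    rw [Units.val_inv_eq_inv_val] at h3
    exact h3
  have h4 : ((u : D.O) : X.K) ∈ D.O := Subtype.property _
  have h5 : (((u⁻¹ : (D.O)ˣ) : D.O) : X.K) ∈ D.O := Subtype.property _
  rw [h3] at h5
  rw [← h1] at h4 h5
  exact ⟨h4, h5⟩

lemma not_principal_aux {n : ℤ} {f : K6} (hf' : f ≠ 0)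
    (hu : ∀ (π : ringOf P0.lam) (hπ : Prime π), f ∈ (OK (Dp π hπ) : Set K6) ∧
      f⁻¹ ∈ (OK (Dp π hπ) : Set K6)) (h1 : D0.HasOrder f n) : n = 0 := by
  have := P0.ufm
  have := isFrac_ringOf P0.lam_ne
  obtain ⟨a, b, hab, hfab⟩ := IsFractionRing.exists_reduced_fraction (A := ringOf P0.lam) f
  have hb0 : (b : ringOf P0.lam) ≠ 0 := nonZeroDivisors.ne_zero b.2
  have hfa : f * ((b : ringOf P0.lam) : K6) = (a : K6) := by
    have := IsLocalization.mk'_spec K6 a b
    rw [hfab] at this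
    exact this
  have hua : IsUnit a := isUnit_of_orders hb0 hfa hf' hab fun π hπ => (hu π hπ).2
  have ha0 : a ≠ 0 := hua.ne_zero
  have hub : IsUnit (b : ringOf P0.lam) := by
    refine isUnit_of_orders (f := f⁻¹) ha0 ?_ (inv_ne_zero hf') hab.symm fun π hπ => ?_
    · rw [← hfa, inv_mul_cancel_left₀ hf']
    · rw [inv_inv]
      exact (hu π hπ).1
  obtain ⟨c, hc, hc'⟩ := unit_const hua
  obtain ⟨d, hd, hd'⟩ := unit_const hub
  have hfc : f = algebraMap ℂ K6 (c / d) := by
    have hd0 : algebraMap ℂ K6 d ≠ 0 := (map_ne_zero _).2 hd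
    rw [map_div₀, eq_div_iff hd0, ← hd', hfa, hc']
  have h0 : D0.HasOrder f 0 := by
    have hpr' := span_prime (P1.prime_x 0)
    refine hasOrder_of_unitK D0 hf' ?_ ?_
    · rw [hfc, D0_O]
      exact (locSub (ringOf P1.lam) (Ideal.span {P1.xr 0})).algebraMap_mem _
    · rw [hfc, D0_O, ← map_inv₀]
      exact (locSub (ringOf P1.lam) (Ideal.span {P1.xr 0})).algebraMap_mem _
  exact D0.hasOrder_unique hf' h1 h0

lemma not_principal {n : ℤ} (h : (Finsupp.single D0 n : X.PrimeDivisor →₀ ℤ) ∈ X.principal) :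
    n = 0 := by
  classical
  obtain ⟨f, hf, hD⟩ := h
  refine not_principal_aux (f := f) hf (fun π hπ => ?_) ?_
  · have h1 := hD (Dp π hπ)
    rw [Finsupp.single_apply, if_neg (Dp_ne_D0 π hπ).symm] at h1
    exact mem_of_hasOrder_zero h1
  · have h1 := hD D0
    rw [Finsupp.single_eq_same] at h1
    exact h1

/-- the class of the divisor at infinity -/
def picGen : X.Pic := QuotientAddGroup.mk (Finsupp.single D0 1)

lemma zsmul_picGen (n : ℤ) : n • picGen = QuotientAddGroup.mk (Finsupp.single D0 n) := by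
  rw [picGen, ← QuotientAddGroup.mk_zsmul, Finsupp.smul_single, smul_eq_mul, mul_one]

theorem pic_X : Nonempty (X.Pic ≃+ ℤ) := by
  classical
  refine ⟨(AddEquiv.ofBijective (zmultiplesHom X.Pic picGen) ⟨?_, ?_⟩).symm⟩
  · rw [injective_iff_map_eq_zero]
    intro n hn
    rw [zmultiplesHom_apply, zsmul_picGen, QuotientAddGroup.eq_zero_iff] at hn
    exact not_principal hn
  · intro x
    obtain ⟨Z, rfl⟩ := QuotientAddGroup.mk_surjective x
    change (QuotientAddGroup.mk Z : X.Pic) ∈ (zmultiplesHom X.Pic picGen).range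
    induction Z using Finsupp.induction_linear with
    | zero => exact AddSubgroup.zero_mem _
    | add f g hf hg => exact AddSubgroup.add_mem _ hf hg
    | single D n =>
      have h1 : (QuotientAddGroup.mk (Finsupp.single D n) : X.Pic) =
          n • (QuotientAddGroup.mk (Finsupp.single D 1) : X.Pic) := by
        rw [← QuotientAddGroup.mk_zsmul, Finsupp.smul_single, smul_eq_mul, mul_one]
      rw [h1]
      apply AddSubgroup.zsmul_mem
      rcases pd_cases D with rfl | ⟨π, hπ, rfl⟩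
      · exact ⟨1, by rw [zmultiplesHom_apply, one_zsmul]; rfl⟩
      · obtain ⟨m, hm⟩ := principal_of_prime π hπ
        refine ⟨-m, ?_⟩
        rw [zmultiplesHom_apply, zsmul_picGen, QuotientAddGroup.eq]
        convert hm using 1
        rw [Finsupp.single_neg, neg_neg, add_comm]

end Pool.Agent.H945R2
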