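import Mathlib
import Pool.Agent.H945R2.PicC

/-! The plane. -/

noncomputable section

namespace Pool.Agent.H945R2

open FanoFib.Tor

/-- first half of the vector with parameters `t` -/
def vecF (t : Fin 3 → ℂ) : Fin 10 → ℂ := ![0, 0, 0, t 0, t 1, t 2, 0, 0, 0, 0]
/-- second half of the vector with parameters `t` -/
def vecG (t : Fin 3 → ℂ) : Fin 10 → ℂ := ![0, 0, 0, -t 2, t 1, -t 0, 0, 0, 0, 0]

/-- the vector with parameters `t`. -/
def vecV (t : Fin 3 → ℂ) : Fin (19 + 1) → ℂ := Fin.append (m := 10) (n := 10) (vecF t) (vecG t)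

lemma vecV_left (t : Fin 3 → ℂ) (j : Fin 10) : vecV t (Fin.castAdd 10 j) = vecF t j :=
  Fin.append_left (m := 10) (n := 10) _ _ _

lemma vecV_right (t : Fin 3 → ℂ) (j : Fin 10) : vecV t (Fin.natAdd 10 j) = vecG t j :=
  Fin.append_right (m := 10) (n := 10) _ _ _

lemma fun20_ext {α : Type} {a b : Fin (19 + 1) → α}
    (h1 : ∀ j : Fin 10, a (Fin.castAdd 10 j) = b (Fin.castAdd 10 j))
    (h2 : ∀ j : Fin 10, a (Fin.natAdd 10 j) = b (Fin.natAdd 10 j)) : a = b := by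
  funext j
  exact Fin.addCases (m := 10) (n := 10) (motive := fun j => a j = b j) h1 h2 j

lemma vecF_add (s t : Fin 3 → ℂ) (j : Fin 10) : vecF (s + t) j = vecF s j + vecF t j := by
  fin_cases j <;> simp [vecF]

lemma vecG_add (s t : Fin 3 → ℂ) (j : Fin 10) : vecG (s + t) j = vecG s j + vecG t j := by
  fin_cases j <;> simp [vecG, add_comm]

lemma vecF_smul (c : ℂ) (t : Fin 3 → ℂ) (j : Fin 10) : vecF (c • t) j = c * vecF t j := by
  fin_cases j <;> simp [vecF]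

lemma vecG_smul (c : ℂ) (t : Fin 3 → ℂ) (j : Fin 10) : vecG (c • t) j = c * vecG t j := by
  fin_cases j <;> simp [vecG]

/-- the parametrization of the plane. -/
def parV : (Fin 3 → ℂ) →ₗ[ℂ] (Fin (19 + 1) → ℂ) where
  toFun := vecV
  map_add' s t := by
    apply fun20_ext
    · intro j
      rw [Pi.add_apply, vecV_left, vecV_left, vecV_left, vecF_add]
    · intro j
      rw [Pi.add_apply, vecV_right, vecV_right, vecV_right, vecG_add]
  map_smul' c t := by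
    apply fun20_ext
    · intro j
      rw [Pi.smul_apply, vecV_left, vecV_left, vecF_smul, RingHom.id_apply, smul_eq_mul]
    · intro j
      rw [Pi.smul_apply, vecV_right, vecV_right, vecG_smul, RingHom.id_apply, smul_eq_mul]

/-- the plane -/
def plane : Submodule ℂ (Fin (19 + 1) → ℂ) := LinearMap.range parV

lemma mem_plane {w : Fin (19 + 1) → ℂ} : w ∈ plane ↔ ∃ t, vecV t = w := Iff.rfl

lemma finrank_plane : Module.finrank ℂ plane = 3 := by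
  have h : Function.Injective parV := by
    intro s t h
    have h1 : ∀ j, vecF s j = vecF t j := by
      intro j
      rw [← vecV_left, ← vecV_left]
      exact congrFun h _
    have h3 := h1 3
    have h4 := h1 4
    have h5 := h1 5
    simp only [vecF, Matrix.cons_val] at h3 h4 h5
    funext i
    fin_cases i <;> assumption
  rw [plane, LinearMap.finrank_range_of_inj h]
  simp

/-! ### closed points -/

/-- value at a closed point of the chart `l` of the linear form `e / l`. -/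
def ev {l : K6} (y : ringOf l →ₐ[ℂ] ℂ) : E6 →ₗ[ℂ] ℂ where
  toFun e := y ⟨e / l, div_mem_ringOf e.2⟩
  map_add' e e' := by
    rw [← map_add]
    congr 1
    exact Subtype.ext (by push_cast; rw [add_div])
  map_smul' c e := by
    rw [RingHom.id_apply, ← map_smul]
    congr 1
    exact Subtype.ext (by push_cast; rw [smul_div_assoc])

lemma ev_apply {l : K6} (y : ringOf l →ₐ[ℂ] ℂ) (e : E6) :
    ev y e = y ⟨e / l, div_mem_ringOf e.2⟩ := rfl

lemma ev_self {l : K6} (hl : l ∈ E6) (hl0 : l ≠ 0) (y : ringOf l →ₐ[ℂ] ℂ) : ev y ⟨l, hl⟩ = 1 := by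
  rw [ev_apply, ← map_one y]
  congr 1
  exact Subtype.ext (div_self hl0)

lemma ev_cub {l : K6} (y : ringOf l →ₐ[ℂ] ℂ) (c : Fin 10 → K6) (hc : ∀ j, c j ∈ E6)
    (z : Fin 3 → ℂ) (h : cub c (cst z) ∈ E6) :
    ev y ⟨cub c (cst z), h⟩ = cub (fun j => ev y ⟨c j, hc j⟩) z := by
  have h1 : (⟨cub c (cst z), h⟩ : E6) =
      (z 0 ^ 3) • ⟨c 0, hc 0⟩ + (z 0 ^ 2 * z 1) • ⟨c 1, hc 1⟩ + (z 0 ^ 2 * z 2) • ⟨c 2, hc 2⟩ +
      (z 0 * z 1 ^ 2) • ⟨c 3, hc 3⟩ + (z 0 * z 1 * z 2) • ⟨c 4, hc 4⟩ +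
      (z 0 * z 2 ^ 2) • ⟨c 5, hc 5⟩ + (z 1 ^ 3) • ⟨c 6, hc 6⟩ + (z 1 ^ 2 * z 2) • ⟨c 7, hc 7⟩
      + (z 1 * z 2 ^ 2) • ⟨c 8, hc 8⟩ + (z 2 ^ 3) • ⟨c 9, hc 9⟩ :=
    Subtype.ext (cub_smul c z)
  rw [h1]
  simp only [map_add, map_smul, smul_eq_mul, cub]
  ring

/-- values of the first ten homogeneous coordinates -/
def uF {l : K6} (y : ringOf l →ₐ[ℂ] ℂ) (j : Fin 10) : ℂ := ev y ⟨cf X6 j, cf_mem_E j⟩
/-- values of the last ten homogeneous coordinates -/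
def uG {l : K6} (y : ringOf l →ₐ[ℂ] ℂ) (j : Fin 10) : ℂ := ev y ⟨cg X6 j, cg_mem_E j⟩

lemma ev_F0 {l : K6} (y : ringOf l →ₐ[ℂ] ℂ) (z : Fin 3 → ℂ) :
    ev y ⟨F0 z, F0_mem z⟩ = cub (uF y) z := ev_cub y (cf X6) cf_mem_E z _

lemma ev_G0 {l : K6} (y : ringOf l →ₐ[ℂ] ℂ) (z : Fin 3 → ℂ) :
    ev y ⟨G0 z, G0_mem z⟩ = cub (uG y) z := ev_cub y (cg X6) cg_mem_E z _

/-- The point lies on the plane. -/
def InV {l : K6} (y : ringOf l →ₐ[ℂ] ℂ) : Prop := ∃ t : Fin 3 → ℂ, uF y = vecF t ∧ uG y = vecG t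

lemma ev_hc_left {l : K6} (y : ringOf l →ₐ[ℂ] ℂ) (j : Fin 10) :
    ev y ⟨hc X6 (Fin.castAdd 10 j), hc_mem_E _⟩ = uF y j := by
  rw [uF]
  congr 1
  exact Subtype.ext (hc_left X6 j)

lemma ev_hc_right {l : K6} (y : ringOf l →ₐ[ℂ] ℂ) (j : Fin 10) :
    ev y ⟨hc X6 (Fin.natAdd 10 j), hc_mem_E _⟩ = uG y j := by
  rw [uG]
  congr 1
  exact Subtype.ext (hc_right X6 j)

lemma exists_ev_ne {l : K6} (hl : l ∈ E6) (hl0 : l ≠ 0) (y : ringOf l →ₐ[ℂ] ℂ) :
    ∃ k : Fin (19 + 1), ev y ⟨hc X6 k, hc_mem_E k⟩ ≠ 0 := by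
  by_contra hcon
  push Not at hcon
  have h1 : ∀ (e : K6) (he : e ∈ E6), ev y ⟨e, he⟩ = 0 := by
    intro e he
    have he' := he
    rw [E6] at he'
    induction he' using Submodule.span_induction with
    | mem z hz =>
      obtain ⟨j, rfl⟩ := hz
      exact hcon j
    | zero => exact map_zero (ev y)
    | add a b ha hb iha ihb =>
      have ha' : a ∈ E6 := ha
      have hb' : b ∈ E6 := hb
      have h2 : (⟨a + b, he⟩ : E6) = ⟨a, ha'⟩ + ⟨b, hb'⟩ := rfl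
      rw [h2, map_add, iha ha', ihb hb', add_zero]
    | smul c a ha iha =>
      have ha' : a ∈ E6 := ha
      have h2 : (⟨c • a, he⟩ : E6) = c • ⟨a, ha'⟩ := rfl
      rw [h2, map_smul, iha ha', smul_zero]
  have h2 := h1 l hl
  rw [ev_self hl hl0] at h2
  exact one_ne_zero h2

/-- homogeneous coordinates of the image of a closed point, in elementary terms -/
lemma image_aux {l : K6} (hl : l ∈ E6) (hl0 : l ≠ 0) (y : ringOf l →ₐ[ℂ] ℂ)
    (w : Fin (19 + 1) → ℂ) :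
    (∃ k, w k ≠ 0 ∧ ∀ j, ∃ a b : ringOf l, y b ≠ 0 ∧ hc X6 j * (b : K6) = (a : K6) * hc X6 k ∧
      w j * y b = y a * w k) ↔
    ∃ t : ℂ, t ≠ 0 ∧ ∀ j, w j = t * ev y ⟨hc X6 j, hc_mem_E j⟩ := by
  constructor
  · rintro ⟨k, hk, h⟩
    have h1 : ∀ j, ev y ⟨hc X6 j, hc_mem_E j⟩ * w k = w j * ev y ⟨hc X6 k, hc_mem_E k⟩ := by
      intro j
      obtain ⟨a, b, hb, h2, h3⟩ := h j
      have h4 : (⟨hc X6 j / l, div_mem_ringOf (hc_mem_E j)⟩ : ringOf l) * b =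
          a * ⟨hc X6 k / l, div_mem_ringOf (hc_mem_E k)⟩ := by
        apply Subtype.ext
        show hc X6 j / l * (b : K6) = (a : K6) * (hc X6 k / l)
        field_simp
        exact h2
      have h5 := congrArg y h4
      rw [map_mul, map_mul] at h5
      rw [ev_apply, ev_apply]
      apply mul_right_cancel₀ hb
      show y ⟨hc X6 j / l, _⟩ * w k * y b = w j * y ⟨hc X6 k / l, _⟩ * y b
      linear_combination w k * h5 - y ⟨hc X6 k / l, div_mem_ringOf (hc_mem_E k)⟩ * h3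
    obtain ⟨m, hm⟩ := exists_ev_ne hl hl0 y
    have hk0 : ev y ⟨hc X6 k, hc_mem_E k⟩ ≠ 0 := by
      intro h2
      have h3 := h1 m
      rw [h2, mul_zero] at h3
      exact (mul_ne_zero hm hk) h3
    refine ⟨w k / ev y ⟨hc X6 k, hc_mem_E k⟩, div_ne_zero hk hk0, fun j => ?_⟩
    rw [div_mul_eq_mul_div, eq_div_iff hk0, ← h1 j]
    ring
  · rintro ⟨t, ht, h⟩
    obtain ⟨m, hm⟩ := exists_ev_ne hl hl0 y
    refine ⟨m, ?_, fun j => ⟨⟨hc X6 j / l, div_mem_ringOf (hc_mem_E j)⟩,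
      ⟨hc X6 m / l, div_mem_ringOf (hc_mem_E m)⟩, hm, ?_, ?_⟩⟩
    · rw [h]
      exact mul_ne_zero ht hm
    · show hc X6 j * (hc X6 m / l) = hc X6 j / l * hc X6 m
      ring
    · rw [h, h, ev_apply, ev_apply]
      ring

lemma inV_iff {l : K6} (hl : l ∈ E6) (hl0 : l ≠ 0) (y : ringOf l →ₐ[ℂ] ℂ) :
    (∃ w ∈ plane, ∃ k, w k ≠ 0 ∧ ∀ j, ∃ a b : ringOf l, y b ≠ 0 ∧
      hc X6 j * (b : K6) = (a : K6) * hc X6 k ∧ w j * y b = y a * w k) ↔ InV y := by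
  constructor
  · rintro ⟨w, ⟨s, hs⟩, h⟩
    rw [image_aux hl hl0] at h
    obtain ⟨t, ht, h⟩ := h
    refine ⟨t⁻¹ • s, ?_, ?_⟩
    · funext j
      rw [vecF_smul, ← ev_hc_left, eq_inv_mul_iff_mul_eq₀ ht, ← h, ← vecV_left]
      exact (congrFun hs _).symm
    · funext j
      rw [vecG_smul, ← ev_hc_right, eq_inv_mul_iff_mul_eq₀ ht, ← h, ← vecV_right]
      exact (congrFun hs _).symm
  · rintro ⟨s, hF, hG⟩
    refine ⟨vecV s, ⟨s, rfl⟩, ?_⟩
    rw [image_aux hl hl0]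
    refine ⟨1, one_ne_zero, fun j => ?_⟩
    rw [one_mul]
    refine Fin.addCases (m := 10) (n := 10)
      (motive := fun j => vecV s j = ev y ⟨hc X6 j, hc_mem_E j⟩) (fun i => ?_) (fun i => ?_) j
    · rw [vecV_left, ev_hc_left, hF]
    · rw [vecV_right, ev_hc_right, hG]

lemma mem_linIdeal (l : X.ι) (f : X.Coord l) :
    f ∈ emb.linIdeal plane l ↔ ∀ y : ringOf l.1 →ₐ[ℂ] ℂ, InV y → y f = 0 := by
  rw [Variety.Embedding.linIdeal, Ideal.mem_sInf]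
  constructor
  · intro h y hy
    exact h ⟨y, (inV_iff (Idx.mem_E l.2) l.2.1 y).2 hy, rfl⟩
  · rintro h _ ⟨y, hy, rfl⟩
    exact h y ((inV_iff (Idx.mem_E l.2) l.2.1 y).1 hy)

end Pool.Agent.H945R2
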