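import Mathlib
import Pool.Agent.H945R2.Plane

/-! Presentations adapted to the plane. -/

noncomputable section

namespace Pool.Agent.H945R2

open FanoFib.Tor

lemma cub_inj {a b : Fin 10 → ℂ} (h : ∀ z, cub a z = cub b z) : a = b := by
  funext j
  have h1 := testF (κ := ℂ) (fun j => a j - b j) (fun v _ => ?_) j
  · exact sub_eq_zero.1 h1
  · have h2 := h (fun i => (v i : ℂ))
    have h3 : cub (fun j => a j - b j) (fun i => (v i : ℂ)) =
      cub a (fun i => (v i : ℂ)) - cub b (fun i => (v i : ℂ)) := by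
      simp only [cub]
      ring
    rw [h3, h2, sub_self]

section matrices
variable {K : Type*} [Field K]

/-- change of basis matrix with columns `v, e_1, e_3`. -/
def Gm (v : Fin 3 → K) : Matrix (Fin 3) (Fin 3) K := !![v 0, 1, 0; v 1, 0, 0; v 2, 0, 1]
/-- its inverse -/
def Gi (v : Fin 3 → K) : Matrix (Fin 3) (Fin 3) K :=
  !![0, 1 / v 1, 0; 1, -v 0 / v 1, 0; 0, -v 2 / v 1, 1]
/-- multiplication by `v`. -/
def Mv (x : Fin 6 → K) (v : Fin 3 → K) : Matrix (Fin 3) (Fin 3) K :=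
  v 0 • (1 : Matrix (Fin 3) (Fin 3) K) + v 1 • M2 x + v 2 • M3 x

lemma M_comm (x : Fin 6 → K) : M2 x * M3 x = M3 x * M2 x := by
  ext i j
  fin_cases i <;> fin_cases j <;>
    simp [M2, M3, Matrix.mul_apply, Fin.sum_univ_three, pp, qq, rr] <;> ring

lemma Mv_comm (x : Fin 6 → K) (v w : Fin 3 → K) : Mv x v * Mv x w = Mv x w * Mv x v := by
  have h := M_comm x
  simp only [Mv, mul_add, add_mul, Matrix.smul_mul, Matrix.mul_smul, one_mul, mul_one, h]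
  simp only [smul_smul, mul_comm]
  abel

lemma mT_M2 (x : Fin 6 → K) (v : Fin 3 → K) (hv : v 1 ≠ 0) :
    Mv x v * !![1, v 0, 0; 0, v 1, 0; 0, v 2, 1] = !![1, v 0, 0; 0, v 1, 0; 0, v 2, 1] * M2 (mT x v) := by
  ext i j
  fin_cases i <;> fin_cases j <;>
    simp [Mv, M2, M3, Matrix.mul_apply, Fin.sum_univ_three, pp, qq, rr, mT] <;> field_simp <;> ring

lemma mS_M2 (z : Fin 6 → K) (N : K) (h : N ≠ 0) (hN : N = z 0 * qq z - pp z * z 2) :
    !![0, 1, 0; 1, 0, 0; 0, 0, 1] * M2 (mS z N) * !![0, 1, 0; 1, 0, 0; 0, 0, 1] * M2 z = 1 := by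
  have e1 := pp_mS z N h hN
  have e2 := qq_mS z N h hN
  ext i j
  fin_cases i <;> fin_cases j <;>
    simp [M2, Matrix.mul_apply, Fin.sum_univ_three, e1, e2]
  all_goals try simp only [mS, Matrix.cons_val]
  all_goals first
    | (field_simp; ring1)
    | (field_simp; rw [hN]; ring1)

lemma Gm_eq (v : Fin 3 → K) : Gm v =
    !![1, v 0, 0; 0, v 1, 0; 0, v 2, 1] * !![0, 1, 0; 1, 0, 0; 0, 0, 1] := by
  ext i j
  fin_cases i <;> fin_cases j <;> simp [Gm, Matrix.mul_apply, Fin.sum_univ_three]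

lemma Gi_eq (v : Fin 3 → K) : Gi v =
    !![0, 1, 0; 1, 0, 0; 0, 0, 1] * !![1, -v 0 / v 1, 0; 0, 1 / v 1, 0; 0, -v 2 / v 1, 1] := by
  ext i j
  fin_cases i <;> fin_cases j <;> simp [Gi, Matrix.mul_apply, Fin.sum_univ_three]

lemma GT_inv (v : Fin 3 → K) (hv : v 1 ≠ 0) :
    (!![1, v 0, 0; 0, v 1, 0; 0, v 2, 1] : Matrix (Fin 3) (Fin 3) K) *
      !![1, -v 0 / v 1, 0; 0, 1 / v 1, 0; 0, -v 2 / v 1, 1] = 1 := by
  ext i j
  fin_cases i <;> fin_cases j <;> simp [Matrix.mul_apply, Fin.sum_univ_three] <;> field_simp <;>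
    ring

lemma A_mul_Mv (x : Fin 6 → K) (v : Fin 3 → K) (hv : v 1 ≠ 0) (N : K) (h : N ≠ 0)
    (hN : N = cf (mT x v) 6) :
    (Gm v * M2 (mS (mT x v) N) * Gi v) * Mv x v = 1 := by
  have h1 := mS_M2 (mT x v) N h hN
  have h2 := mT_M2 x v hv
  have h3 := GT_inv v hv
  have h4 := mul_eq_one_comm.1 h3
  rw [Gm_eq, Gi_eq]
  generalize (!![1, v 0, 0; 0, v 1, 0; 0, v 2, 1] : Matrix (Fin 3) (Fin 3) K) = A at h2 h3 h4 ⊢
  generalize (!![1, -v 0 / v 1, 0; 0, 1 / v 1, 0; 0, -v 2 / v 1, 1] :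
    Matrix (Fin 3) (Fin 3) K) = B at h3 h4 ⊢
  generalize (!![0, 1, 0; 1, 0, 0; 0, 0, 1] : Matrix (Fin 3) (Fin 3) K) = S at h1 ⊢
  generalize M2 (mS (mT x v) N) = C at h1 ⊢
  generalize M2 (mT x v) = D at h1 h2 ⊢
  generalize Mv x v = E at h2 ⊢
  have h5 : B * E = D * B := by
    calc B * E = B * (E * A) * B := by rw [mul_assoc B (E * A), mul_assoc E, h3, mul_one]
      _ = (B * A) * D * B := by rw [h2]; simp only [mul_assoc]
      _ = D * B := by rw [h4, one_mul]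
  calc A * S * C * (S * B) * E = A * (S * C * S * (B * E)) := by simp only [mul_assoc]
    _ = A * (S * C * S * D) * B := by rw [h5]; simp only [mul_assoc]
    _ = 1 := by rw [h1, mul_one, h3]

end matrices

/-- A presentation adapted to the plane: the unit is `v`, the second basis vector is `e_1`, the
third one is `e_3`. -/
structure Adp (P : Pres) (v : Fin 3 → ℂ) : Prop where
  h0 : v 0 ≠ 0
  h1 : v 1 ≠ 0
  lam : P.lam = F0 v
  F : ∀ y, P.F y = F0 ![y 1 + y 0 * v 0, y 0 * v 1, y 0 * v 2 + y 2]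
  G : ∀ y, P.G y = (v 1 ^ 2) • G0 ![y 1, (y 0 - v 0 * y 1 - v 2 * y 2) / v 1, y 2]
  mat : (Gm (cst v) * M2 P.x * Gi (cst v)) * Mv X6 (cst v) = 1

lemma exists_adp (v : Fin 3 → ℂ) (h0 : v 0 ≠ 0) (h1 : v 1 ≠ 0) (h : F0 v ≠ 0) :
    ∃ P : Pres, Adp P v := by
  have h2 : (P0.moveT v h1).lam * cf (P0.moveT v h1).x 6 = F0 v := by
    rw [Pres.cf6]
    show F0 ![0 + 1 * v 0, 1 * v 1, 1 * v 2 + 0] = F0 v
    congr 1
    rw [zero_add, one_mul, one_mul, one_mul, add_zero]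
    exact vec_eta v
  have h3 : cf (P0.moveT v h1).x 6 ≠ 0 := by
    intro h3
    rw [h3, mul_zero] at h2
    exact h h2.symm
  refine ⟨(P0.moveT v h1).moveS h3, h0, h1, h2, fun _ => rfl, fun _ => rfl, ?_⟩
  exact A_mul_Mv X6 (cst v) ((map_ne_zero _).2 h1) _ h3 rfl

namespace Pres

variable (P : Pres)

/-- `G y / lam` as an element of the coordinate ring. -/
def Gr (y : Fin 3 → ℂ) : ringOf P.lam := cub P.cgr (fun i => algebraMap ℂ _ (y i))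

lemma coe_Gr (y : Fin 3 → ℂ) : (P.Gr y : K6) = P.G y / P.lam := by
  rw [P.hG, mul_div_cancel_left₀ _ P.lam_ne]
  have := map_cub ((ringOf P.lam).val : ringOf P.lam →+* K6) P.cgr
    (fun i => algebraMap ℂ _ (y i))
  refine this.trans ?_
  have h1 : (fun j => ((ringOf P.lam).val : ringOf P.lam →+* K6) (P.cgr j)) = cg P.x :=
    funext P.coe_cgr
  rw [h1]
  rfl

variable (y : ringOf P.lam →ₐ[ℂ] ℂ)

lemma hom_cfr (j : Fin 10) : y (P.cfr j) = cf (fun i => y (P.xr i)) j :=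
  map_cf (y : ringOf P.lam →+* ℂ) P.xr j

lemma hom_cgr (j : Fin 10) : y (P.cgr j) = cg (fun i => y (P.xr i)) j :=
  map_cg (y : ringOf P.lam →+* ℂ) P.xr j

lemma hom_Fr (w : Fin 3 → ℂ) : y (P.Fr w) = cub (cf (fun i => y (P.xr i))) w := by
  have := map_cub (y : ringOf P.lam →+* ℂ) P.cfr (fun i => algebraMap ℂ _ (w i))
  refine this.trans ?_
  have h1 : (fun j => (y : ringOf P.lam →+* ℂ) (P.cfr j)) = cf (fun i => y (P.xr i)) :=
    funext (P.hom_cfr y)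
  rw [h1]
  congr 1
  funext i
  exact y.commutes (w i)

lemma hom_Gr (w : Fin 3 → ℂ) : y (P.Gr w) = cub (cg (fun i => y (P.xr i))) w := by
  have := map_cub (y : ringOf P.lam →+* ℂ) P.cgr (fun i => algebraMap ℂ _ (w i))
  refine this.trans ?_
  have h1 : (fun j => (y : ringOf P.lam →+* ℂ) (P.cgr j)) = cg (fun i => y (P.xr i)) :=
    funext (P.hom_cgr y)
  rw [h1]
  congr 1
  funext i
  exact y.commutes (w i)

lemma ev_F (w : Fin 3 → ℂ) : ev y ⟨P.F w, P.mF w⟩ = cub (cf (fun i => y (P.xr i))) w := by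
  rw [← P.hom_Fr, ev_apply]
  congr 1
  exact Subtype.ext (P.coe_Fr w).symm

lemma ev_G (w : Fin 3 → ℂ) : ev y ⟨P.G w, P.mG w⟩ = cub (cg (fun i => y (P.xr i))) w := by
  rw [← P.hom_Gr, ev_apply]
  congr 1
  exact Subtype.ext (P.coe_Gr w).symm

end Pres

/-! ### points on the plane -/

section pts
variable {P : Pres} {v : Fin 3 → ℂ} (hP : Adp P v)
include hP

lemma Adp.ev_cf {l : K6} (y : ringOf l →ₐ[ℂ] ℂ) {t : Fin 3 → ℂ} (hF : uF y = vecF t) (j : Fin 10) :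
    ev y ⟨P.lam * cf P.x j, P.cf_mem j⟩ =
      (![v 0 * (t 0 * v 1 ^ 2 + t 1 * v 1 * v 2 + t 2 * v 2 ^ 2),
        t 0 * v 1 ^ 2 + t 1 * v 1 * v 2 + t 2 * v 2 ^ 2, v 0 * (t 1 * v 1 + 2 * t 2 * v 2), 0,
        t 1 * v 1 + 2 * t 2 * v 2, v 0 * t 2, 0, 0, t 2, 0] : Fin 10 → ℂ) j := by
  refine congrFun (cub_inj (a := fun j => ev y ⟨P.lam * cf P.x j, P.cf_mem j⟩) fun z => ?_) j
  have h1 : cub (fun j => P.lam * cf P.x j) (cst z) = P.F z := by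
    rw [P.hF]
    simp only [cub]
    ring
  have h2 : cub (fun j => P.lam * cf P.x j) (cst z) ∈ E6 := by
    rw [h1]
    exact P.mF z
  rw [← ev_cub y (fun j => P.lam * cf P.x j) P.cf_mem z h2]
  have h3 : (⟨cub (fun j => P.lam * cf P.x j) (cst z), h2⟩ : E6) =
      ⟨F0 ![z 1 + z 0 * v 0, z 0 * v 1, z 0 * v 2 + z 2], F0_mem _⟩ :=
    Subtype.ext (h1.trans (hP.F z))
  rw [h3, ev_F0, hF]
  simp only [cub, vecF, Matrix.cons_val]
  ring

lemma Adp.ev_cg {l : K6} (y : ringOf l →ₐ[ℂ] ℂ) {t : Fin 3 → ℂ} (hG : uG y = vecG t) (j : Fin 10) :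
    ev y ⟨P.lam * cg P.x j, P.cg_mem j⟩ =
      (![0, -t 2, 0, 2 * v 0 * t 2, t 1 * v 1 + 2 * t 2 * v 2, 0, -(v 0 ^ 2 * t 2),
        -(v 0 * (t 1 * v 1 + 2 * t 2 * v 2)),
        -(t 0 * v 1 ^ 2 + t 1 * v 1 * v 2 + t 2 * v 2 ^ 2), 0] : Fin 10 → ℂ) j := by
  refine congrFun (cub_inj (a := fun j => ev y ⟨P.lam * cg P.x j, P.cg_mem j⟩) fun z => ?_) j
  have h1 : cub (fun j => P.lam * cg P.x j) (cst z) = P.G z := by
    rw [P.hG]
    simp only [cub]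
    ring
  have h2 : cub (fun j => P.lam * cg P.x j) (cst z) ∈ E6 := by
    rw [h1]
    exact P.mG z
  rw [← ev_cub y (fun j => P.lam * cg P.x j) P.cg_mem z h2]
  have h3 : (⟨cub (fun j => P.lam * cg P.x j) (cst z), h2⟩ : E6) =
      (v 1 ^ 2) • ⟨G0 ![z 1, (z 0 - v 0 * z 1 - v 2 * z 2) / v 1, z 2], G0_mem _⟩ :=
    Subtype.ext (h1.trans (hP.G z))
  rw [h3, map_smul, ev_G0, hG]
  have := hP.h1
  simp only [cub, vecG, Matrix.cons_val, smul_eq_mul]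
  field_simp
  ring

lemma Adp.ev_x {l : K6} (y : ringOf l →ₐ[ℂ] ℂ) (hy : InV y) :
    ev y ⟨P.lam * P.x 0, P.x_mem 0⟩ = 0 ∧
    ev y ⟨P.lam * P.x 1, P.x_mem 1⟩ = 1 / v 0 * ev y ⟨P.lam, P.lam_mem⟩ ∧
    ev y ⟨P.lam * P.x 2, P.x_mem 2⟩ = 0 ∧ ev y ⟨P.lam * P.x 3, P.x_mem 3⟩ = 0 := by
  obtain ⟨t, hF, hG⟩ := hy
  have f0 := hP.ev_cf y hF 0
  have f1 := hP.ev_cf y hF 1
  have f2 := hP.ev_cf y hF 2
  have g7 := hP.ev_cg y hG 7
  have g8 := hP.ev_cg y hG 8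
  have g9 := hP.ev_cg y hG 9
  simp only [Matrix.cons_val] at f0 f1 f2 g7 g8 g9
  have e0 : (⟨P.lam * cf P.x 0, P.cf_mem 0⟩ : E6) = ⟨P.lam, P.lam_mem⟩ :=
    Subtype.ext (by simp [cf])
  have e1 : (⟨P.lam * cf P.x 1, P.cf_mem 1⟩ : E6) =
      ⟨P.lam * P.x 1, P.x_mem 1⟩ + ⟨P.lam * P.x 2, P.x_mem 2⟩ :=
    Subtype.ext (by simp [cf]; ring)
  have e2 : (⟨P.lam * cf P.x 2, P.cf_mem 2⟩ : E6) =
      ⟨P.lam * P.x 3, P.x_mem 3⟩ + ⟨P.lam * P.x 5, P.x_mem 5⟩ :=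
    Subtype.ext (by simp [cf]; ring)
  have e7 : (⟨P.lam * cg P.x 7, P.cg_mem 7⟩ : E6) =
      (2 : ℂ) • ⟨P.lam * P.x 3, P.x_mem 3⟩ - ⟨P.lam * P.x 5, P.x_mem 5⟩ :=
    Subtype.ext (by simp [cg, Algebra.smul_def, map_ofNat (algebraMap ℂ K6)]; ring)
  have e8 : (⟨P.lam * cg P.x 8, P.cg_mem 8⟩ : E6) =
      (2 : ℂ) • ⟨P.lam * P.x 2, P.x_mem 2⟩ - ⟨P.lam * P.x 1, P.x_mem 1⟩ :=
    Subtype.ext (by simp [cg, Algebra.smul_def, map_ofNat (algebraMap ℂ K6)]; ring)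
  have e9 : (⟨P.lam * cg P.x 9, P.cg_mem 9⟩ : E6) = -⟨P.lam * P.x 0, P.x_mem 0⟩ :=
    Subtype.ext (by simp [cg])
  rw [e0] at f0
  rw [e1, map_add] at f1
  rw [e2, map_add] at f2
  rw [e7, map_sub, map_smul, smul_eq_mul] at g7
  rw [e8, map_sub, map_smul, smul_eq_mul] at g8
  rw [e9, map_neg] at g9
  have h0 := hP.h0
  refine ⟨by linear_combination -g9, ?_, by linear_combination (1 / 3) * (f1 + g8),
    by linear_combination (1 / 3) * (f2 + g7)⟩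
  rw [f0]
  field_simp
  linear_combination (2 / 3) * f1 - (1 / 3) * g8

/-- converse: a point of the chart with the right coordinates lies on the plane. -/
lemma Adp.inV (y : ringOf P.lam →ₐ[ℂ] ℂ) (h0 : y (P.xr 0) = 0) (h1 : y (P.xr 1) = 1 / v 0)
    (h2 : y (P.xr 2) = 0) (h3 : y (P.xr 3) = 0) : InV y := by
  have hv0 := hP.h0
  have hv1 := hP.h1
  have hu : (fun i => y (P.xr i)) = ![0, 1 / v 0, 0, 0, y (P.xr 4), y (P.xr 5)] := by
    funext i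
    fin_cases i
    · exact h0
    · exact h1
    · exact h2
    · exact h3
    · rfl
    · rfl
  generalize y (P.xr 4) = d at hu
  generalize y (P.xr 5) = g at hu
  refine ⟨![(1 - g * v 2 + d / v 0 * v 2 ^ 2) / (v 0 * v 1 ^ 2),
    (g - 2 * (d / v 0) * v 2) / (v 0 * v 1), d / v 0 ^ 2], cub_inj fun z => ?_,
    cub_inj fun z => ?_⟩
  · rw [← ev_F0]
    have e : (⟨F0 z, F0_mem z⟩ : E6) =
        ⟨P.F ![z 1 / v 1, z 0 - z 1 / v 1 * v 0, z 2 - z 1 / v 1 * v 2], P.mF _⟩ := by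
      apply Subtype.ext
      show F0 z = P.F ![z 1 / v 1, z 0 - z 1 / v 1 * v 0, z 2 - z 1 / v 1 * v 2]
      rw [hP.F]
      congr 1
      funext i
      fin_cases i
      · simp
      · simp; field_simp
      · simp
    rw [e, P.ev_F, hu]
    simp only [cub, cf, vecF, pp, qq, rr, Matrix.cons_val]
    field_simp
    ring
  · rw [← ev_G0]
    have e : (⟨G0 z, G0_mem z⟩ : E6) =
        ((v 1 ^ 2)⁻¹ : ℂ) • ⟨P.G ![v 1 * z 1 + v 0 * z 0 + v 2 * z 2, z 0, z 2], P.mG _⟩ := by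
      apply Subtype.ext
      show G0 z = ((v 1 ^ 2)⁻¹ : ℂ) • P.G ![v 1 * z 1 + v 0 * z 0 + v 2 * z 2, z 0, z 2]
      rw [hP.G, smul_smul, inv_mul_cancel₀ (pow_ne_zero 2 hv1), one_smul]
      congr 1
      funext i
      fin_cases i
      · simp
      · simp; field_simp; ring
      · simp
    rw [e, map_smul, P.ev_G, hu]
    simp only [cub, cg, vecG, pp, qq, rr, Matrix.cons_val, smul_eq_mul]
    field_simp
    ring

end pts

end Pool.Agent.H945R2
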