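import Mathlib
import Pool.Agent.H945R2.PlaneB

/-! The conormal bundle of the plane. -/

noncomputable section

namespace Pool.Agent.H945R2

open FanoFib.Tor

/-- the ideal of the plane in the chart `l`. -/
def LI (l : K6) : Ideal (ringOf l) where
  carrier := {f | ∀ y : ringOf l →ₐ[ℂ] ℂ, InV y → y f = 0}
  add_mem' := by
    intro f g hf hg y hy
    rw [map_add, hf y hy, hg y hy, add_zero]
  zero_mem' := by
    intro y _
    exact map_zero y
  smul_mem' := by
    intro c f hf y hy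
    rw [smul_eq_mul, map_mul, hf y hy, mul_zero]

lemma mem_LI {l : K6} {f : ringOf l} : f ∈ LI l ↔ ∀ y : ringOf l →ₐ[ℂ] ℂ, InV y → y f = 0 := Iff.rfl

lemma linIdeal_eq (l : X.ι) : emb.linIdeal plane l = (LI l.1 : Ideal (ringOf l.1)) :=
  Ideal.ext fun f => mem_linIdeal l f

/-- linear forms vanishing on the plane give elements of the ideal. -/
lemma div_mem_LI {l e : K6} (he : e ∈ E6) (h : ∀ y : ringOf l →ₐ[ℂ] ℂ, InV y → ev y ⟨e, he⟩ = 0) :
    (⟨e / l, div_mem_ringOf he⟩ : ringOf l) ∈ LI l := fun y hy => h y hy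

/-- The linear form `l` vanishes on the plane. -/
def Triv (l : K6) : Prop :=
  (∃ v, l = F0 v ∧ (v 0 = 0 ∨ (v 1 = 0 ∧ v 2 = 0))) ∨
    (∃ w, l = G0 w ∧ (w 0 = 0 ∨ (w 1 = 0 ∧ w 2 = 0)))

lemma Triv.ev {l' : K6} (h : Triv l') (hl' : l' ∈ E6) {l : K6} (y : ringOf l →ₐ[ℂ] ℂ) (hy : InV y) :
    ev y ⟨l', hl'⟩ = 0 := by
  obtain ⟨t, hF, hG⟩ := hy
  rcases h with ⟨v, rfl, hv⟩ | ⟨v, rfl, hv⟩
  · rw [ev_F0, hF]
    rcases hv with hv | ⟨hv, hv'⟩
    · simp [cub, vecF, hv]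
    · simp [cub, vecF, hv, hv']
  · rw [ev_G0, hG]
    rcases hv with hv | ⟨hv, hv'⟩
    · simp [cub, vecG, hv]
    · simp [cub, vecG, hv, hv']

lemma Triv.top {l : K6} (h : Triv l) (hl : l ∈ E6) (hl0 : l ≠ 0) : LI l = ⊤ := by
  rw [Ideal.eq_top_iff_one, mem_LI]
  intro y hy
  have h1 := h.ev hl y hy
  rw [ev_self hl hl0] at h1
  exact absurd h1 one_ne_zero

lemma idx_cases {l : K6} (hl : l ∈ Idx) : Triv l ∨ ∃ P v, Adp P v ∧ P.lam = l := by
  obtain ⟨h0, ⟨v, hv, rfl⟩ | ⟨v, hv, rfl⟩⟩ := hl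
  · have h1 : ∀ v ∈ tF, v 0 = 0 ∨ (v 1 = 0 ∧ v 2 = 0) ∨ (v 0 ≠ 0 ∧ v 1 ≠ 0) := by decide
    rcases h1 v hv with h | ⟨h, h'⟩ | ⟨h, h'⟩
    · exact Or.inl (Or.inl ⟨nc v, rfl, Or.inl (by simp [nc, h])⟩)
    · exact Or.inl (Or.inl ⟨nc v, rfl, Or.inr ⟨by simp [nc, h], by simp [nc, h']⟩⟩)
    · right
      obtain ⟨P, hP⟩ := exists_adp (nc v) (by simpa [nc] using h) (by simpa [nc] using h') h0
      exact ⟨P, nc v, hP, hP.lam⟩
  · have h1 : ∀ v ∈ tG, v 0 = 0 ∨ (v 1 = 0 ∧ v 2 = 0) := by decide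
    rcases h1 v hv with h | ⟨h, h'⟩
    · exact Or.inl (Or.inr ⟨nc v, rfl, Or.inl (by simp [nc, h])⟩)
    · exact Or.inl (Or.inr ⟨nc v, rfl, Or.inr ⟨by simp [nc, h], by simp [nc, h']⟩⟩)

lemma prod_eq {R : Type*} [CommRing R] (w0 w1 w2 u1 : R) (x : Fin 6 → R) :
    w0 • (!![w0, 1, 0; w1, 0, 0; w2, 0, 1] * M2 x *
      !![0, u1, 0; 1, -(w0 * u1), 0; 0, -(w2 * u1), 1]) =
    !![w0 * (w0 * pp x + x 1),
      w0 * (u1 - (w0 * pp x + x 1) * (w0 * u1) - (w0 * qq x + x 3) * (w2 * u1)),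
      w0 * (w0 * qq x + x 3);
      w0 * (w1 * pp x),
      w0 * (-(w1 * pp x * (w0 * u1)) - w1 * qq x * (w2 * u1)),
      w0 * (w1 * qq x);
      w0 * (w2 * pp x + x 0),
      w0 * (-((w2 * pp x + x 0) * (w0 * u1)) - (w2 * qq x + x 2) * (w2 * u1)),
      w0 * (w2 * qq x + x 2)] := by
  ext1 i j
  rw [Matrix.smul_apply, smul_eq_mul, Matrix.mul_apply, Fin.sum_univ_three, Matrix.mul_apply,
    Matrix.mul_apply, Matrix.mul_apply, Fin.sum_univ_three, Fin.sum_univ_three,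
    Fin.sum_univ_three]
  generalize hp : pp x = p
  generalize hq : qq x = q
  fin_cases i <;> fin_cases j <;>
    simp only [M2, hp, hq, Matrix.cons_val, Matrix.of_apply, Fin.zero_eta, Fin.mk_one,
      Fin.reduceFinMk] <;> ring

section pts
variable {P : Pres} {v : Fin 3 → ℂ} (hP : Adp P v)

/-- generators of the ideal of the plane in an adapted chart -/
def gens (P : Pres) (v : Fin 3 → ℂ) : Fin 4 → ringOf P.lam :=
  ![P.xr 0, P.xr 1 - algebraMap ℂ _ (1 / v 0), P.xr 2, P.xr 3]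

include hP

lemma Adp.gens_mem (k : Fin 4) : gens P v k ∈ LI P.lam := by
  intro y hy
  obtain ⟨h0, h1, h2, h3⟩ := hP.ev_x y hy
  have key : ∀ i, ev y ⟨P.lam * P.x i, P.x_mem i⟩ = y (P.xr i) := by
    intro i
    rw [ev_apply]
    congr 1
    exact Subtype.ext (mul_div_cancel_left₀ _ P.lam_ne)
  rw [key] at h0 h1 h2 h3
  rw [ev_self P.lam_mem P.lam_ne, mul_one] at h1
  fin_cases k
  · exact h0
  · show y (P.xr 1 - algebraMap ℂ _ (1 / v 0)) = 0
    rw [map_sub, h1, AlgHom.commutes]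
    exact sub_self _
  · exact h2
  · exact h3

lemma Adp.LI_le : LI P.lam ≤ Ideal.span (Set.range (gens P v)) := by
  intro f hf
  set J := Ideal.span (Set.range (gens P v)) with hJ
  obtain ⟨p, rfl⟩ := P.equiv.surjective f
  let σ : Fin 6 → MvPolynomial (Fin 6) ℂ :=
    ![0, MvPolynomial.C (1 / v 0), 0, 0, MvPolynomial.X 4, MvPolynomial.X 5]
  have h1 : MvPolynomial.aeval σ p = 0 := by
    apply MvPolynomial.funext
    intro c
    rw [map_zero]
    have h2 : MvPolynomial.eval c (MvPolynomial.aeval σ p) =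
        MvPolynomial.aeval (fun i => MvPolynomial.eval c (σ i)) p := by
      have : ((MvPolynomial.aeval c : MvPolynomial (Fin 6) ℂ →ₐ[ℂ] ℂ).comp
          (MvPolynomial.aeval σ)) = MvPolynomial.aeval (fun i => MvPolynomial.eval c (σ i)) := by
        apply MvPolynomial.algHom_ext
        intro i
        simp [MvPolynomial.aeval_eq_eval]
      have h3 := congrArg (fun φ => φ p) this
      simpa [MvPolynomial.aeval_eq_eval] using h3
    rw [h2]
    have h3 : P.evalPt (fun i => MvPolynomial.eval c (σ i)) (P.equiv p) = 0 := by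
      refine hf _ (hP.inV _ ?_ ?_ ?_ ?_)
      · rw [P.evalPt_xr]; simp [σ]
      · rw [P.evalPt_xr]; simp [σ]
      · rw [P.evalPt_xr]; simp [σ]
      · rw [P.evalPt_xr]; simp [σ]
    rw [← h3]
    show _ = MvPolynomial.aeval (fun i => MvPolynomial.eval c (σ i)) (P.equiv.symm (P.equiv p))
    rw [AlgEquiv.symm_apply_apply]
  let q : ringOf P.lam →ₐ[ℂ] (ringOf P.lam ⧸ J) := Ideal.Quotient.mkₐ ℂ J
  let φ : MvPolynomial (Fin 6) ℂ →ₐ[ℂ] (ringOf P.lam ⧸ J) :=
    q.comp (P.equiv : MvPolynomial (Fin 6) ℂ →ₐ[ℂ] ringOf P.lam)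
  have hq : ∀ k, q (gens P v k) = 0 := fun k =>
    Ideal.Quotient.eq_zero_iff_mem.2 (Ideal.subset_span ⟨k, rfl⟩)
  have h2 : φ = φ.comp (MvPolynomial.aeval σ) := by
    apply MvPolynomial.algHom_ext
    intro i
    have hX : ∀ i, φ (MvPolynomial.X i) = q (P.xr i) := fun i => by
      show q (P.equiv (MvPolynomial.X i)) = _
      rw [P.equiv_X']
    show φ (MvPolynomial.X i) = φ (MvPolynomial.aeval σ (MvPolynomial.X i))
    rw [MvPolynomial.aeval_X, hX]
    fin_cases i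
    · show q (P.xr 0) = φ 0
      rw [map_zero]
      exact hq 0
    · show q (P.xr 1) = φ (MvPolynomial.C (1 / v 0))
      have h3 := hq 1
      have h4 : q (P.xr 1 - algebraMap ℂ _ (1 / v 0)) = 0 := h3
      rw [map_sub, sub_eq_zero] at h4
      rw [h4, AlgHom.commutes]
      exact (φ.commutes (1 / v 0)).symm
    · show q (P.xr 2) = φ 0
      rw [map_zero]
      exact hq 2
    · show q (P.xr 3) = φ 0
      rw [map_zero]
      exact hq 3
    · show q (P.xr 4) = φ (MvPolynomial.X 4)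
      rw [hX]
    · show q (P.xr 5) = φ (MvPolynomial.X 5)
      rw [hX]
  have h3 : q (P.equiv p) = 0 := by
    have h4 : φ p = φ (MvPolynomial.aeval σ p) := congrArg (fun ψ => ψ p) h2
    rw [h1, map_zero] at h4
    exact h4
  exact Ideal.Quotient.eq_zero_iff_mem.1 h3

omit hP in
/-- the universal projector, in an adapted chart -/
def rmat (P : Pres) (v : Fin 3 → ℂ) : Matrix (Fin 3) (Fin 3) (ringOf P.lam) :=
  algebraMap ℂ (ringOf P.lam) (v 0) • ((Gm v).map (algebraMap ℂ (ringOf P.lam)) * M2 P.xr *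
    (Gi v).map (algebraMap ℂ (ringOf P.lam)))

omit hP in
/-- the universal projector, with entries in the function field. -/
def rK (P : Pres) (v : Fin 3 → ℂ) : Matrix (Fin 3) (Fin 3) K6 :=
  (cst v 0) • (Gm (cst v) * M2 P.x * Gi (cst v))

omit hP in
lemma coe_rmat (i j : Fin 3) : ((rmat P v i j : ringOf P.lam) : K6) = rK P v i j := by
  have h1 : (Gm v).map (algebraMap ℂ K6) = Gm (cst v) := by
    ext i j
    fin_cases i <;> fin_cases j <;> simp [Gm, cst]
  have h2 : (Gi v).map (algebraMap ℂ K6) = Gi (cst v) := by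
    ext i j
    fin_cases i <;> fin_cases j <;> simp [Gi, cst]
  have h3 : (M2 P.xr).map (fun z : ringOf P.lam => (z : K6)) = M2 P.x := by
    ext i j
    fin_cases i <;> fin_cases j <;> simp [M2, Pres.xr, pp, qq]
  have h4 : (rmat P v).map (fun z : ringOf P.lam => (z : K6)) = rK P v := by
    rw [rK, ← h1, ← h2, ← h3, rmat]
    ext i j
    simp [Matrix.mul_apply, Fin.sum_univ_three, cst]
    simp only [Algebra.smul_def]
    ring
  exact congrFun (congrFun h4 i) j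

omit hP in
lemma rmat_eq : ∃ w0 w1 w2 u0 u1 : ringOf P.lam, (v 0 ≠ 0 → w0 * u0 = 1) ∧
    (v 1 ≠ 0 → w1 * u1 = 1) ∧ algebraMap ℂ _ (1 / v 0) = u0 ∧
    rmat P v = !![w0 * (w0 * pp P.xr + P.xr 1),
      w0 * (u1 - (w0 * pp P.xr + P.xr 1) * (w0 * u1) - (w0 * qq P.xr + P.xr 3) * (w2 * u1)),
      w0 * (w0 * qq P.xr + P.xr 3);
      w0 * (w1 * pp P.xr),
      w0 * (-(w1 * pp P.xr * (w0 * u1)) - w1 * qq P.xr * (w2 * u1)),
      w0 * (w1 * qq P.xr);
      w0 * (w2 * pp P.xr + P.xr 0),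
      w0 * (-((w2 * pp P.xr + P.xr 0) * (w0 * u1)) - (w2 * qq P.xr + P.xr 2) * (w2 * u1)),
      w0 * (w2 * qq P.xr + P.xr 2)] := by
  refine ⟨algebraMap ℂ _ (v 0), algebraMap ℂ _ (v 1), algebraMap ℂ _ (v 2),
    algebraMap ℂ _ (1 / v 0), algebraMap ℂ _ (1 / v 1), ?_, ?_, rfl, ?_⟩
  · intro h
    rw [← map_mul, mul_one_div_cancel h, map_one]
  · intro h
    rw [← map_mul, mul_one_div_cancel h, map_one]
  · have h2 : (Gi v).map (algebraMap ℂ (ringOf P.lam)) =
        !![0, algebraMap ℂ _ (1 / v 1), 0;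
          1, -(algebraMap ℂ _ (v 0) * algebraMap ℂ _ (1 / v 1)), 0;
          0, -(algebraMap ℂ _ (v 2) * algebraMap ℂ _ (1 / v 1)), 1] := by
      have h3 : Gi v = !![0, 1 / v 1, 0; 1, -(v 0 * (1 / v 1)), 0; 0, -(v 2 * (1 / v 1)), 1] := by
        ext i j
        fin_cases i <;> fin_cases j <;> simp [Gi] <;> ring
      rw [h3]
      ext1 i j
      rw [Matrix.map_apply]
      fin_cases i <;> fin_cases j
      · exact map_zero _
      · rfl
      · exact map_zero _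
      · exact map_one _
      · exact (map_neg _ _).trans (congrArg _ (map_mul _ _ _))
      · exact map_zero _
      · exact map_zero _
      · exact (map_neg _ _).trans (congrArg _ (map_mul _ _ _))
      · exact map_one _
    have h1 : (Gm v).map (algebraMap ℂ (ringOf P.lam)) =
        !![algebraMap ℂ _ (v 0), 1, 0; algebraMap ℂ _ (v 1), 0, 0; algebraMap ℂ _ (v 2), 0, 1] := by
      ext1 i j
      rw [Matrix.map_apply]
      fin_cases i <;> fin_cases j
      · rfl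
      · exact map_one _
      · exact map_zero _
      · rfl
      · exact map_zero _
      · exact map_zero _
      · rfl
      · exact map_zero _
      · exact map_one _
    rw [rmat, h1, h2]
    exact prod_eq _ _ _ _ _

end pts

end Pool.Agent.H945R2
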