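import Mathlib
import Pool.Agent.H945R2.PlaneC

/-! The conormal bundle of the plane is trivial. -/

noncomputable section

namespace Pool.Agent.H945R2

open FanoFib.Tor

/-! ### algebra -/

section algebra
variable {R : Type*} [CommRing R]

/-- the elementary projector -/
def E11 : Matrix (Fin 3) (Fin 3) R := !![1, 0, 0; 0, 0, 0; 0, 0, 0]

/-- the explicit form of the universal projector. -/
def projM (w0 w1 w2 u1 : R) (x : Fin 6 → R) : Matrix (Fin 3) (Fin 3) R :=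
  !![w0 * (w0 * pp x + x 1),
      w0 * (u1 - (w0 * pp x + x 1) * (w0 * u1) - (w0 * qq x + x 3) * (w2 * u1)),
      w0 * (w0 * qq x + x 3);
      w0 * (w1 * pp x),
      w0 * (-(w1 * pp x * (w0 * u1)) - w1 * qq x * (w2 * u1)),
      w0 * (w1 * qq x);
      w0 * (w2 * pp x + x 0),
      w0 * (-((w2 * pp x + x 0) * (w0 * u1)) - (w2 * qq x + x 2) * (w2 * u1)),
      w0 * (w2 * qq x + x 2)]

lemma pp_mem {I : Ideal R} {x : Fin 6 → R} (h0 : x 0 ∈ I) (h2 : x 2 ∈ I) : pp x ∈ I := by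
  have : pp x = (x 3 - x 5) * x 0 + (x 2 - x 1) * x 2 := by rw [pp]; ring
  rw [this]
  exact I.add_mem (I.mul_mem_left _ h0) (I.mul_mem_left _ h2)

lemma qq_mem {I : Ideal R} {x : Fin 6 → R} (h0 : x 0 ∈ I) (h2 : x 2 ∈ I) : qq x ∈ I := by
  have : qq x = x 4 * x 0 + (-x 3) * x 2 := by rw [qq]; ring
  rw [this]
  exact I.add_mem (I.mul_mem_left _ h0) (I.mul_mem_left _ h2)

lemma projM_mem {I : Ideal R} {x : Fin 6 → R} {w0 w1 w2 u0 u1 : R} (e0 : w0 * u0 = 1)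
    (h0 : x 0 ∈ I) (h1 : x 1 - u0 ∈ I) (h2 : x 2 ∈ I) (h3 : x 3 ∈ I) (i j : Fin 3) :
    projM w0 w1 w2 u1 x i j - E11 i j ∈ I := by
  have hp := pp_mem h0 h2
  have hq := qq_mem h0 h2
  have M := fun (a b : R) (hb : b ∈ I) => I.mul_mem_left a hb
  fin_cases i <;> fin_cases j
  · show w0 * (w0 * pp x + x 1) - 1 ∈ I
    have e : w0 * (w0 * pp x + x 1) - 1 = w0 * w0 * pp x + w0 * (x 1 - u0) := by
      linear_combination e0
    rw [e]
    exact I.add_mem (M _ _ hp) (M _ _ h1)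
  · show w0 * (u1 - (w0 * pp x + x 1) * (w0 * u1) - (w0 * qq x + x 3) * (w2 * u1)) - 0 ∈ I
    have e : w0 * (u1 - (w0 * pp x + x 1) * (w0 * u1) - (w0 * qq x + x 3) * (w2 * u1)) - 0 =
      (-(w0 * w0 * w0 * u1)) * pp x + (-(w0 * w0 * u1)) * (x 1 - u0) +
        (-(w0 * w0 * w2 * u1)) * qq x + (-(w0 * w2 * u1)) * x 3 := by
      linear_combination (-(w0 * u1)) * e0
    rw [e]
    exact I.add_mem (I.add_mem (I.add_mem (M _ _ hp) (M _ _ h1)) (M _ _ hq)) (M _ _ h3)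
  · show w0 * (w0 * qq x + x 3) - 0 ∈ I
    have e : w0 * (w0 * qq x + x 3) - 0 = w0 * w0 * qq x + w0 * x 3 := by ring
    rw [e]
    exact I.add_mem (M _ _ hq) (M _ _ h3)
  · show w0 * (w1 * pp x) - 0 ∈ I
    rw [sub_zero, ← mul_assoc]
    exact M _ _ hp
  · show w0 * (-(w1 * pp x * (w0 * u1)) - w1 * qq x * (w2 * u1)) - 0 ∈ I
    have e : w0 * (-(w1 * pp x * (w0 * u1)) - w1 * qq x * (w2 * u1)) - 0 =
      (-(w0 * w1 * w0 * u1)) * pp x + (-(w0 * w1 * w2 * u1)) * qq x := by ring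
    rw [e]
    exact I.add_mem (M _ _ hp) (M _ _ hq)
  · show w0 * (w1 * qq x) - 0 ∈ I
    rw [sub_zero, ← mul_assoc]
    exact M _ _ hq
  · show w0 * (w2 * pp x + x 0) - 0 ∈ I
    have e : w0 * (w2 * pp x + x 0) - 0 = w0 * w2 * pp x + w0 * x 0 := by ring
    rw [e]
    exact I.add_mem (M _ _ hp) (M _ _ h0)
  · show w0 * (-((w2 * pp x + x 0) * (w0 * u1)) - (w2 * qq x + x 2) * (w2 * u1)) - 0 ∈ I
    have e : w0 * (-((w2 * pp x + x 0) * (w0 * u1)) - (w2 * qq x + x 2) * (w2 * u1)) - 0 =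
      (-(w0 * w2 * w0 * u1)) * pp x + (-(w0 * w0 * u1)) * x 0 + (-(w0 * w2 * w2 * u1)) * qq x +
        (-(w0 * w2 * u1)) * x 2 := by ring
    rw [e]
    exact I.add_mem (I.add_mem (I.add_mem (M _ _ hp) (M _ _ h0)) (M _ _ hq)) (M _ _ h2)
  · show w0 * (w2 * qq x + x 2) - 0 ∈ I
    have e : w0 * (w2 * qq x + x 2) - 0 = w0 * w2 * qq x + w0 * x 2 := by ring
    rw [e]
    exact I.add_mem (M _ _ hq) (M _ _ h2)

/-- The off-diagonal entries of the projector generate the ideal modulo its square. -/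
lemma projM_gen {I S : Ideal R} {x : Fin 6 → R} {w0 w1 w2 u0 u1 : R} (e0 : w0 * u0 = 1)
    (e1 : w1 * u1 = 1)
    (h1 : x 1 - u0 ∈ I) (h2 : x 2 ∈ I) (h3 : x 3 ∈ I) (hS : I ^ 2 ≤ S)
    (s01 : projM w0 w1 w2 u1 x 0 1 ∈ S) (s02 : projM w0 w1 w2 u1 x 0 2 ∈ S)
    (s10 : projM w0 w1 w2 u1 x 1 0 ∈ S) (s20 : projM w0 w1 w2 u1 x 2 0 ∈ S) :
    x 0 ∈ S ∧ x 1 - u0 ∈ S ∧ x 2 ∈ S ∧ x 3 ∈ S := by
  have M := fun (a b : R) (hb : b ∈ S) => S.mul_mem_left a hb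
  have hmul : ∀ a b : R, a ∈ I → b ∈ I → a * b ∈ S := fun a b ha hb =>
    hS (by rw [pow_two]; exact Ideal.mul_mem_mul ha hb)
  change w0 * (u1 - (w0 * pp x + x 1) * (w0 * u1) - (w0 * qq x + x 3) * (w2 * u1)) ∈ S at s01
  change w0 * (w0 * qq x + x 3) ∈ S at s02
  change w0 * (w1 * pp x) ∈ S at s10
  change w0 * (w2 * pp x + x 0) ∈ S at s20
  have hp : pp x ∈ S := by
    have e : pp x = (u0 * u1) * (w0 * (w1 * pp x)) := by
      linear_combination (-(pp x)) * e0 - (w0 * u0 * pp x) * e1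
    rw [e]
    exact M _ _ s10
  have t0 : x 0 ∈ S := by
    have e : x 0 = u0 * (w0 * (w2 * pp x + x 0)) + (-w2) * pp x := by
      linear_combination (-(w2 * pp x + x 0)) * e0
    rw [e]
    exact S.add_mem (M _ _ s20) (M _ _ hp)
  have hq : qq x ∈ S := by
    have e : qq x = x 4 * x 0 + (-1) * (x 2 * x 3) := by rw [qq]; ring
    rw [e]
    exact S.add_mem (M _ _ t0) (M _ _ (hmul _ _ h2 h3))
  have t3 : x 3 ∈ S := by
    have e : x 3 = u0 * (w0 * (w0 * qq x + x 3)) + (-w0) * qq x := by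
      linear_combination (-(w0 * qq x + x 3)) * e0
    rw [e]
    exact S.add_mem (M _ _ s02) (M _ _ hq)
  have t1 : x 1 - u0 ∈ S := by
    have e : x 1 - u0 = (-(u0 * u0 * w1)) *
        (w0 * (u1 - (w0 * pp x + x 1) * (w0 * u1) - (w0 * qq x + x 3) * (w2 * u1))) +
        (-w0) * pp x + (-w2) * qq x + (-(u0 * w2)) * x 3 := by
      linear_combination (u0 * (u0 * w0) - (w0 * pp x + x 1) * (w0 * u0) * (w0 * u0) -
        (w0 * qq x + x 3) * w2 * u0 * (u0 * w0)) * e1 +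
        (u0 - (w0 * pp x + x 1) * (w0 * u0 + 1) - (w0 * qq x + x 3) * w2 * u0) * e0 +
        (-(w2 * qq x)) * e0
    rw [e]
    exact S.add_mem (S.add_mem (S.add_mem (M _ _ s01) (M _ _ hp)) (M _ _ hq)) (M _ _ t3)
  refine ⟨t0, t1, ?_, t3⟩
  have e : x 2 = w0 * (x 2 * x 2 + (-1) * ((x 1 - u0) * x 2) + (x 3 - x 5) * x 0 + (-1) * pp x) := by
    rw [pp]
    linear_combination (-x 2) * e0
  rw [e]
  exact M _ _ (S.add_mem (S.add_mem (S.add_mem (hmul _ _ h2 h2) (M _ _ (hmul _ _ h1 h2)))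
    (M _ _ t0)) (M _ _ hp))

/-- Two commuting matrices congruent to `E11` modulo `I` have the same off-diagonal entries
modulo `I²`. -/
lemma comm_diff {I : Ideal R} {r s : Matrix (Fin 3) (Fin 3) R} (h : r * s = s * r)
    (hr : ∀ i j, r i j - E11 i j ∈ I) (hs : ∀ i j, s i j - E11 i j ∈ I) :
    (r 0 1 - s 0 1 ∈ I ^ 2 ∧ r 0 2 - s 0 2 ∈ I ^ 2) ∧
      (r 1 0 - s 1 0 ∈ I ^ 2 ∧ r 2 0 - s 2 0 ∈ I ^ 2) := by
  have h01 := congrFun (congrFun h 0) 1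
  have h02 := congrFun (congrFun h 0) 2
  have h10 := congrFun (congrFun h 1) 0
  have h20 := congrFun (congrFun h 2) 0
  simp only [Matrix.mul_apply, Fin.sum_univ_three] at h01 h02 h10 h20
  have r00 : r 0 0 - 1 ∈ I := hr 0 0
  have r01 : r 0 1 ∈ I := by simpa [E11] using hr 0 1
  have r02 : r 0 2 ∈ I := by simpa [E11] using hr 0 2
  have r10 : r 1 0 ∈ I := by simpa [E11] using hr 1 0
  have r11 : r 1 1 ∈ I := by simpa [E11] using hr 1 1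
  have r12 : r 1 2 ∈ I := by simpa [E11] using hr 1 2
  have r20 : r 2 0 ∈ I := by simpa [E11] using hr 2 0
  have r21 : r 2 1 ∈ I := by simpa [E11] using hr 2 1
  have r22 : r 2 2 ∈ I := by simpa [E11] using hr 2 2
  have s00 : s 0 0 - 1 ∈ I := hs 0 0
  have s01 : s 0 1 ∈ I := by simpa [E11] using hs 0 1
  have s02 : s 0 2 ∈ I := by simpa [E11] using hs 0 2
  have s10 : s 1 0 ∈ I := by simpa [E11] using hs 1 0
  have s11 : s 1 1 ∈ I := by simpa [E11] using hs 1 1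
  have s12 : s 1 2 ∈ I := by simpa [E11] using hs 1 2
  have s20 : s 2 0 ∈ I := by simpa [E11] using hs 2 0
  have s21 : s 2 1 ∈ I := by simpa [E11] using hs 2 1
  have s22 : s 2 2 ∈ I := by simpa [E11] using hs 2 2
  have Q : ∀ a b : R, a ∈ I → b ∈ I → a * b ∈ I ^ 2 := fun a b ha hb => by
    rw [pow_two]; exact Ideal.mul_mem_mul ha hb
  have A := fun (a b : R) (ha : a ∈ I ^ 2) (hb : b ∈ I ^ 2) => (I ^ 2).add_mem ha hb
  have B := fun (a b : R) (ha : a ∈ I ^ 2) (hb : b ∈ I ^ 2) => (I ^ 2).sub_mem ha hb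
  refine ⟨⟨?_, ?_⟩, ⟨?_, ?_⟩⟩
  · have e : r 0 1 - s 0 1 = ((r 0 0 - 1) * s 0 1 + r 0 1 * s 1 1 + r 0 2 * s 2 1) -
        ((s 0 0 - 1) * r 0 1 + s 0 1 * r 1 1 + s 0 2 * r 2 1) := by
      linear_combination -h01
    rw [e]
    exact B _ _ (A _ _ (A _ _ (Q _ _ r00 s01) (Q _ _ r01 s11)) (Q _ _ r02 s21))
      (A _ _ (A _ _ (Q _ _ s00 r01) (Q _ _ s01 r11)) (Q _ _ s02 r21))
  · have e : r 0 2 - s 0 2 = ((r 0 0 - 1) * s 0 2 + r 0 1 * s 1 2 + r 0 2 * s 2 2) -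
        ((s 0 0 - 1) * r 0 2 + s 0 1 * r 1 2 + s 0 2 * r 2 2) := by
      linear_combination -h02
    rw [e]
    exact B _ _ (A _ _ (A _ _ (Q _ _ r00 s02) (Q _ _ r01 s12)) (Q _ _ r02 s22))
      (A _ _ (A _ _ (Q _ _ s00 r02) (Q _ _ s01 r12)) (Q _ _ s02 r22))
  · have e : r 1 0 - s 1 0 = (s 1 0 * (r 0 0 - 1) + s 1 1 * r 1 0 + s 1 2 * r 2 0) -
        (r 1 0 * (s 0 0 - 1) + r 1 1 * s 1 0 + r 1 2 * s 2 0) := by
      linear_combination h10
    rw [e]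
    exact B _ _ (A _ _ (A _ _ (Q _ _ s10 r00) (Q _ _ s11 r10)) (Q _ _ s12 r20))
      (A _ _ (A _ _ (Q _ _ r10 s00) (Q _ _ r11 s10)) (Q _ _ r12 s20))
  · have e : r 2 0 - s 2 0 = (s 2 0 * (r 0 0 - 1) + s 2 1 * r 1 0 + s 2 2 * r 2 0) -
        (r 2 0 * (s 0 0 - 1) + r 2 1 * s 1 0 + r 2 2 * s 2 0) := by
      linear_combination h20
    rw [e]
    exact B _ _ (A _ _ (A _ _ (Q _ _ s20 r00) (Q _ _ s21 r10)) (Q _ _ s22 r20))
      (A _ _ (A _ _ (Q _ _ r20 s00) (Q _ _ r21 s10)) (Q _ _ r22 s20))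

end algebra

end Pool.Agent.H945R2
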