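import Mathlib
import Pool.Agent.H945R2.PlaneD

/-! The conormal bundle of the plane is trivial: assembly. -/

noncomputable section

namespace Pool.Agent.H945R2

open FanoFib.Tor

section generic
variable {K : Type*} [Field K] [Algebra ℂ K]

lemma sub_smul_mk (S : Submodule ℂ K) {a b : K} (c : ℂ) (ha : a ∈ S) (hb : b ∈ S)
    (h : a - c • b ∈ S) : (⟨a - c • b, h⟩ : S) = ⟨a, ha⟩ - c • ⟨b, hb⟩ := rfl

lemma coe_sub_alg {A : Subalgebra ℂ K} (a : A) (c : ℂ) :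
    ((a - algebraMap ℂ A c : A) : K) = (a : K) - algebraMap ℂ K c := rfl

lemma coe_incl_sub {A B : Subalgebra ℂ K} (a : A) (b : B) :
    ((Subalgebra.inclusion (le_sup_left : A ≤ A ⊔ B) a -
      Subalgebra.inclusion (le_sup_right : B ≤ A ⊔ B) b : (A ⊔ B : Subalgebra ℂ K)) : K) =
      (a : K) - (b : K) := rfl

lemma coe_sub_sub {A : Subalgebra ℂ K} (a b : A) : ((a - b : A) : K) = (a : K) - (b : K) := rfl

lemma incl_transfer {A B : Subalgebra ℂ K} {e l l' : K} (hl0 : l ≠ 0) (h1 : l / l' ∈ B)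
    (h2 : e / l ∈ A) (h3 : e / l' ∈ B) :
    Subalgebra.inclusion (le_sup_right : B ≤ A ⊔ B) ⟨e / l', h3⟩ =
      Subalgebra.inclusion (le_sup_right : B ≤ A ⊔ B) ⟨l / l', h1⟩ *
      Subalgebra.inclusion (le_sup_left : A ≤ A ⊔ B) ⟨e / l, h2⟩ := by
  apply Subtype.ext
  show e / l' = l / l' * (e / l)
  field_simp

lemma mk_div_self {A : Subalgebra ℂ K} {e : K} (he : e ≠ 0) (h : e / e ∈ A) :
    (⟨e / e, h⟩ : A) = 1 := Subtype.ext (div_self he)

/-- matrices over an intersection of charts -/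
lemma mat_comm {A B : Subalgebra ℂ K} {r : Matrix (Fin 3) (Fin 3) A} {s : Matrix (Fin 3) (Fin 3) B}
    {rk sk : Matrix (Fin 3) (Fin 3) K} (hr : ∀ i j, (r i j : K) = rk i j)
    (hs : ∀ i j, (s i j : K) = sk i j) (h : rk * sk = sk * rk) :
    (Matrix.of fun i j => Subalgebra.inclusion (le_sup_left : A ≤ A ⊔ B) (r i j)) *
      (Matrix.of fun i j => Subalgebra.inclusion (le_sup_right : B ≤ A ⊔ B) (s i j)) =
    (Matrix.of fun i j => Subalgebra.inclusion (le_sup_right : B ≤ A ⊔ B) (s i j)) *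
      (Matrix.of fun i j => Subalgebra.inclusion (le_sup_left : A ≤ A ⊔ B) (r i j)) := by
  ext1 i j
  apply Subtype.ext
  have h1 := congrFun (congrFun h i) j
  simp only [Matrix.mul_apply, Fin.sum_univ_three, ← hr, ← hs] at h1 ⊢
  push_cast
  exact h1

lemma map_E11 {A B : Type*} [CommRing A] [CommRing B] (f : A →+* B) (i j : Fin 3) :
    f (E11 i j) = E11 i j := by
  fin_cases i <;> fin_cases j <;> first | exact map_one f | exact map_zero f

lemma comm_diff' {A B : Subalgebra ℂ K} {J : Ideal (A ⊔ B : Subalgebra ℂ K)}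
    {r : Matrix (Fin 3) (Fin 3) A} {s : Matrix (Fin 3) (Fin 3) B}
    {rk sk : Matrix (Fin 3) (Fin 3) K} (hr : ∀ i j, (r i j : K) = rk i j)
    (hs : ∀ i j, (s i j : K) = sk i j) (h : rk * sk = sk * rk)
    (hr' : ∀ i j, Subalgebra.inclusion (le_sup_left : A ≤ A ⊔ B) (r i j - E11 i j) ∈ J)
    (hs' : ∀ i j, Subalgebra.inclusion (le_sup_right : B ≤ A ⊔ B) (s i j - E11 i j) ∈ J)
    {a : A} {b : B} (k : Fin 4)
    (ha : (a : K) = (![rk 0 1, rk 0 2, rk 1 0, rk 2 0] : Fin 4 → K) k)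
    (hb : (b : K) = (![sk 0 1, sk 0 2, sk 1 0, sk 2 0] : Fin 4 → K) k) :
    ∃ z ∈ J ^ 2, (z : K) = (a : K) - (b : K) := by
  obtain ⟨⟨a1, a2⟩, a3, a4⟩ := comm_diff (I := J) (mat_comm hr hs h)
    (fun i j => by
      have := hr' i j
      rw [map_sub] at this
      have e := map_E11 (Subalgebra.inclusion (le_sup_left : A ≤ A ⊔ B)).toRingHom i j
      exact (congrArg (fun t => _ - t ∈ J) e) ▸ this)
    (fun i j => by
      have := hs' i j
      rw [map_sub] at this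
      have e := map_E11 (Subalgebra.inclusion (le_sup_right : B ≤ A ⊔ B)).toRingHom i j
      exact (congrArg (fun t => _ - t ∈ J) e) ▸ this)
  rw [ha, hb]
  have key : ∀ i j, (((Matrix.of fun i j => Subalgebra.inclusion
        (le_sup_left : A ≤ A ⊔ B) (r i j)) i j -
      (Matrix.of fun i j => Subalgebra.inclusion
        (le_sup_right : B ≤ A ⊔ B) (s i j)) i j : (A ⊔ B : Subalgebra ℂ K)) : K) =
        rk i j - sk i j := by
    intro i j
    rw [← hr, ← hs]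
    rfl
  fin_cases k
  · exact ⟨_, a1, key 0 1⟩
  · exact ⟨_, a2, key 0 2⟩
  · exact ⟨_, a3, key 1 0⟩
  · exact ⟨_, a4, key 2 0⟩

lemma span_four_le {R : Type*} [CommRing R] {a b c d : R} {I : Ideal R} (ha : a ∈ I) (hb : b ∈ I)
    (hc : c ∈ I) (hd : d ∈ I) : Ideal.span (Set.range ![a, b, c, d]) ≤ I := by
  rw [Ideal.span_le]
  rintro _ ⟨k, rfl⟩
  fin_cases k
  · exact ha
  · exact hb
  · exact hc
  · exact hd

end generic

/-- off-diagonal entries -/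
def offd {R : Type*} (r : Matrix (Fin 3) (Fin 3) R) : Fin 4 → R := ![r 0 1, r 0 2, r 1 0, r 2 0]

/-- The chosen sections of the conormal sheaf. -/
def GoodG (l : K6) (g : Fin 4 → ringOf l) : Prop :=
  (Triv l ∧ g = 0) ∨ ∃ P v, Adp P v ∧ P.lam = l ∧ ∀ k, (g k : K6) = offd (rK P v) k

lemma coe_offd {P : Pres} {v : Fin 3 → ℂ} (k : Fin 4) :
    ((offd (rmat P v) k : ringOf P.lam) : K6) = offd (rK P v) k := by
  fin_cases k
  · exact coe_rmat 0 1
  · exact coe_rmat 0 2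
  · exact coe_rmat 1 0
  · exact coe_rmat 2 0

lemma exists_good {l : K6} (hl : l ∈ Idx) : ∃ g, GoodG l g := by
  rcases idx_cases hl with h | ⟨P, v, hP, rfl⟩
  · exact ⟨0, Or.inl ⟨h, rfl⟩⟩
  · exact ⟨offd (rmat P v), Or.inr ⟨P, v, hP, rfl, coe_offd⟩⟩

lemma Adp.rmat_projM {P : Pres} {v : Fin 3 → ℂ} (hP : Adp P v) :
    ∃ w0 w1 w2 u0 u1 : ringOf P.lam, w0 * u0 = 1 ∧ w1 * u1 = 1 ∧
    algebraMap ℂ _ (1 / v 0) = u0 ∧ rmat P v = projM w0 w1 w2 u1 P.xr := by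
  obtain ⟨w0, w1, w2, u0, u1, h0, h1, h2, h3⟩ := rmat_eq (P := P) (v := v)
  exact ⟨w0, w1, w2, u0, u1, h0 hP.h0, h1 hP.h1, h2, h3⟩

lemma Adp.rmat_mem {P : Pres} {v : Fin 3 → ℂ} (hP : Adp P v) (i j : Fin 3) :
    rmat P v i j - E11 i j ∈ LI P.lam := by
  obtain ⟨w0, w1, w2, u0, u1, h0, h1, h2, h3⟩ := hP.rmat_projM
  rw [h3]
  refine projM_mem h0 (hP.gens_mem 0) ?_ (hP.gens_mem 2) (hP.gens_mem 3) i j
  rw [← h2]
  exact hP.gens_mem 1

lemma good_mem {l : K6} {g : Fin 4 → ringOf l} (h : GoodG l g) (k : Fin 4) : g k ∈ LI l := by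
  rcases h with ⟨_, rfl⟩ | ⟨P, v, hP, rfl, hg⟩
  · exact (LI l).zero_mem
  · have h1 : g k = offd (rmat P v) k := Subtype.ext ((hg k).trans (coe_offd k).symm)
    rw [h1]
    fin_cases k
    · simpa [E11, offd] using hP.rmat_mem 0 1
    · simpa [E11, offd] using hP.rmat_mem 0 2
    · simpa [E11, offd] using hP.rmat_mem 1 0
    · simpa [E11, offd] using hP.rmat_mem 2 0

lemma good_gen {l : K6} (hl : l ∈ Idx) {g : Fin 4 → ringOf l} (h : GoodG l g) :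
    LI l ≤ Ideal.span (Set.range g) ⊔ (LI l) ^ 2 := by
  rcases h with ⟨ht, rfl⟩ | ⟨P, v, hP, rfl, hg⟩
  · rw [ht.top (Idx.mem_E hl) hl.1]
    simp [← Ideal.one_eq_top]
  · have h1 : g = offd (rmat P v) :=
      funext fun k => Subtype.ext ((hg k).trans (coe_offd k).symm)
    subst h1
    obtain ⟨w0, w1, w2, u0, u1, h0, h1, h2, h3⟩ := hP.rmat_projM
    set S := Ideal.span (Set.range (offd (rmat P v))) ⊔ (LI P.lam) ^ 2 with hS
    have hk : ∀ k, offd (rmat P v) k ∈ S := fun k =>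
      (le_sup_left : _ ≤ S) (Ideal.subset_span ⟨k, rfl⟩)
    have key := projM_gen (I := LI P.lam) (S := S) (w2 := w2) h0 h1 (h2 ▸ hP.gens_mem 1)
      (hP.gens_mem 2) (hP.gens_mem 3)
      (le_sup_right : _ ≤ S) (h3 ▸ hk 0) (h3 ▸ hk 1) (h3 ▸ hk 2) (h3 ▸ hk 3)
    refine hP.LI_le.trans ?_
    rw [Ideal.span_le]
    rintro _ ⟨k, rfl⟩
    fin_cases k
    · exact key.1
    · show P.xr 1 - algebraMap ℂ _ (1 / v 0) ∈ S
      rw [h2]
      exact key.2.1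
    · exact key.2.2.1
    · exact key.2.2.2

lemma rK_comm {P P' : Pres} {v v' : Fin 3 → ℂ} (hP : Adp P v) (hP' : Adp P' v') :
    rK P v * rK P' v' = rK P' v' * rK P v := by
  have h1 := hP.mat
  have h2 := hP'.mat
  have h3 := Mv_comm X6 (cst v) (cst v')
  rw [rK, rK]
  generalize Gm (cst v) * M2 P.x * Gi (cst v) = A at h1 ⊢
  generalize Gm (cst v') * M2 P'.x * Gi (cst v') = A' at h2 ⊢
  generalize Mv X6 (cst v) = E at h1 h3
  generalize Mv X6 (cst v') = E' at h2 h3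
  have h1' := mul_eq_one_comm.1 h1
  have h2' := mul_eq_one_comm.1 h2
  have h4 : A * A' = A' * A := by
    calc A * A' = A * A' * (E * (E' * A') * A) := by rw [h2', mul_one, h1', mul_one]
      _ = A * A' * (E * E') * A' * A := by simp only [mul_assoc]
      _ = A * (A' * E') * E * A' * A := by rw [h3]; simp only [mul_assoc]
      _ = A' * A := by rw [h2, mul_one, h1, one_mul]
  rw [Matrix.smul_mul, Matrix.mul_smul, Matrix.smul_mul, Matrix.mul_smul, h4, smul_comm]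

/-- the ideal of the plane in an intersection of two charts -/
def LJ (l l' : K6) : Ideal (ringOf l ⊔ ringOf l' : Subalgebra ℂ K6) :=
  (LI l).map (Subalgebra.inclusion (le_sup_left : ringOf l ≤ ringOf l ⊔ ringOf l'))

lemma incl_mem_LJ {l l' : K6} {f : ringOf l} (hf : f ∈ LI l) :
    Subalgebra.inclusion (le_sup_left : ringOf l ≤ ringOf l ⊔ ringOf l') f ∈ LJ l l' :=
  Ideal.mem_map_of_mem _ hf

lemma LJ_transfer {l l' : K6} (hl : l ∈ E6) (hl0 : l ≠ 0)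
    {e : K6} (he : e ∈ E6) (h : ∀ y : ringOf l →ₐ[ℂ] ℂ, InV y → ev y ⟨e, he⟩ = 0) :
    Subalgebra.inclusion (le_sup_right : ringOf l' ≤ ringOf l ⊔ ringOf l')
      ⟨e / l', div_mem_ringOf he⟩ ∈ LJ l l' := by
  have h1 := incl_mem_LJ (l' := l') (div_mem_LI he h)
  have h2 := (LJ l l').mul_mem_left (Subalgebra.inclusion
    (le_sup_right : ringOf l' ≤ ringOf l ⊔ ringOf l') ⟨l / l', div_mem_ringOf hl⟩) h1
  rw [incl_transfer hl0 (div_mem_ringOf hl) (div_mem_ringOf he)]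
  exact h2

lemma LJ_key {l : K6} (hl : l ∈ E6) (hl0 : l ≠ 0) {l' : K6}
    (e : K6) (he : e ∈ E6) (g : ringOf l') (hg : (g : K6) = e / l')
    (h : ∀ y : ringOf l →ₐ[ℂ] ℂ, InV y → ev y ⟨e, he⟩ = 0) :
    g ∈ (LJ l l').comap (Subalgebra.inclusion
          (le_sup_right : ringOf l' ≤ ringOf l ⊔ ringOf l')) := by
  have h2 : g = ⟨e / l', div_mem_ringOf he⟩ := Subtype.ext hg
  rw [Ideal.mem_comap, h2]
  exact LJ_transfer hl hl0 he h

lemma LJ_k0 {l : K6} (hl : l ∈ E6) (hl0 : l ≠ 0) {P' : Pres} {v' : Fin 3 → ℂ} (hP' : Adp P' v') :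
    P'.xr 0 ∈ (LJ l P'.lam).comap (Subalgebra.inclusion
          (le_sup_right : ringOf P'.lam ≤ ringOf l ⊔ ringOf P'.lam)) :=
  LJ_key hl hl0 _ (P'.x_mem 0) _ (mul_div_cancel_left₀ _ P'.lam_ne).symm
    fun y hy => (hP'.ev_x y hy).1

lemma LJ_k2 {l : K6} (hl : l ∈ E6) (hl0 : l ≠ 0) {P' : Pres} {v' : Fin 3 → ℂ} (hP' : Adp P' v') :
    P'.xr 2 ∈ (LJ l P'.lam).comap (Subalgebra.inclusion
          (le_sup_right : ringOf P'.lam ≤ ringOf l ⊔ ringOf P'.lam)) :=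
  LJ_key hl hl0 _ (P'.x_mem 2) _ (mul_div_cancel_left₀ _ P'.lam_ne).symm
    fun y hy => (hP'.ev_x y hy).2.2.1

lemma LJ_k3 {l : K6} (hl : l ∈ E6) (hl0 : l ≠ 0) {P' : Pres} {v' : Fin 3 → ℂ} (hP' : Adp P' v') :
    P'.xr 3 ∈ (LJ l P'.lam).comap (Subalgebra.inclusion
          (le_sup_right : ringOf P'.lam ≤ ringOf l ⊔ ringOf P'.lam)) :=
  LJ_key hl hl0 _ (P'.x_mem 3) _ (mul_div_cancel_left₀ _ P'.lam_ne).symm
    fun y hy => (hP'.ev_x y hy).2.2.2

lemma mem_E_k1 (P' : Pres) (c : ℂ) : P'.lam * P'.x 1 - c • P'.lam ∈ E6 :=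
  E6.sub_mem (P'.x_mem 1) (E6.smul_mem c P'.lam_mem)

lemma ev_k1 {l : K6} {P' : Pres} {v' : Fin 3 → ℂ} (hP' : Adp P' v') (y : ringOf l →ₐ[ℂ] ℂ)
    (hy : InV y) :
    ev y ⟨P'.lam * P'.x 1 - (1 / v' 0) • P'.lam, mem_E_k1 P' (1 / v' 0)⟩ = 0 := by
  rw [sub_smul_mk E6 (1 / v' 0) (P'.x_mem 1) P'.lam_mem, map_sub, map_smul,
    (hP'.ev_x y hy).2.1, smul_eq_mul, sub_self]

lemma alg_k1 (P' : Pres) (c : ℂ) : P'.x 1 - algebraMap ℂ K6 c =
    (P'.lam * P'.x 1 - c • P'.lam) / P'.lam := by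
  rw [Algebra.smul_def]
  have := P'.lam_ne
  field_simp

lemma LJ_k1 {l : K6} (hl : l ∈ E6) (hl0 : l ≠ 0) {P' : Pres} {v' : Fin 3 → ℂ} (hP' : Adp P' v') :
    P'.xr 1 - algebraMap ℂ _ (1 / v' 0) ∈ (LJ l P'.lam).comap (Subalgebra.inclusion
          (le_sup_right : ringOf P'.lam ≤ ringOf l ⊔ ringOf P'.lam)) :=
  LJ_key hl hl0 _ (mem_E_k1 P' (1 / v' 0)) _
    ((coe_sub_alg (P'.xr 1) (1 / v' 0)).trans (alg_k1 P' (1 / v' 0)))
    fun y hy => ev_k1 hP' y hy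

lemma LJ_le' {l : K6} (hl : l ∈ E6) (hl0 : l ≠ 0) {P' : Pres} {v' : Fin 3 → ℂ} (hP' : Adp P' v') :
    LI P'.lam ≤ (LJ l P'.lam).comap (Subalgebra.inclusion
      (le_sup_right : ringOf P'.lam ≤ ringOf l ⊔ ringOf P'.lam)) :=
  hP'.LI_le.trans (span_four_le (LJ_k0 hl hl0 hP') (LJ_k1 hl hl0 hP') (LJ_k2 hl hl0 hP')
    (LJ_k3 hl hl0 hP'))

lemma LJ_le {l : K6} (hl : l ∈ E6) (hl0 : l ≠ 0) {P' : Pres} {v' : Fin 3 → ℂ} (hP' : Adp P' v')
    {f : ringOf P'.lam} (hf : f ∈ LI P'.lam) :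
    Subalgebra.inclusion (le_sup_right : ringOf P'.lam ≤ ringOf l ⊔ ringOf P'.lam) f ∈
      LJ l P'.lam := Ideal.mem_comap.1 (LJ_le' hl hl0 hP' hf)

lemma good_glue {l l' : K6} (hl : l ∈ Idx) (hl' : l' ∈ Idx) {g : Fin 4 → ringOf l}
    {g' : Fin 4 → ringOf l'} (h : GoodG l g) (h' : GoodG l' g') (k : Fin 4) :
    ∃ z ∈ (LJ l l') ^ 2, (z : K6) = g k - g' k := by
  have hlE := Idx.mem_E hl
  have hlE' := Idx.mem_E hl'
  -- the case of the unit ideal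
  have htop : LJ l l' = ⊤ → ∃ z ∈ (LJ l l') ^ 2, (z : K6) = g k - g' k := by
    intro ht
    refine ⟨Subalgebra.inclusion (le_sup_left : ringOf l ≤ ringOf l ⊔ ringOf l') (g k) -
      Subalgebra.inclusion (le_sup_right : ringOf l' ≤ ringOf l ⊔ ringOf l') (g' k), ?_,
      coe_incl_sub _ _⟩
    rw [ht, ← Ideal.one_eq_top, one_pow, Ideal.one_eq_top]
    exact Submodule.mem_top
  rcases h with ⟨ht, _⟩ | ⟨P, v, hP, rfl, hg⟩
  · apply htop
    rw [Ideal.eq_top_iff_one]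
    have h1 := incl_mem_LJ (l := l) (l' := l') (f := 1) (by rw [ht.top hlE hl.1]; trivial)
    rwa [map_one] at h1
  · rcases h' with ⟨ht, _⟩ | ⟨P', v', hP', rfl, hg'⟩
    · apply htop
      rw [Ideal.eq_top_iff_one]
      have h1 := LJ_transfer (l := P.lam) (l' := l') hlE hl.1 hlE' fun y hy => ht.ev hlE' y hy
      rw [mk_div_self hl'.1] at h1
      rwa [map_one] at h1
    · -- both charts meet the plane
      exact comm_diff' (fun i j => coe_rmat i j) (fun i j => coe_rmat i j) (rK_comm hP hP')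
        (fun i j => incl_mem_LJ (hP.rmat_mem i j))
        (fun i j => LJ_le hlE hl.1 hP' (hP'.rmat_mem i j)) k (hg k) (hg' k)

lemma good_glue' {l l' : K6} (hl : l ∈ Idx) (hl' : l' ∈ Idx) {g : Fin 4 → ringOf l}
    {g' : Fin 4 → ringOf l'} (h : GoodG l g) (h' : GoodG l' g') (k : Fin 4) :
    Subalgebra.inclusion (le_sup_left : ringOf l ≤ ringOf l ⊔ ringOf l') (g k) -
      Subalgebra.inclusion (le_sup_right : ringOf l' ≤ ringOf l ⊔ ringOf l') (g' k) ∈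
      (LJ l l') ^ 2 := by
  obtain ⟨z, hz, hz'⟩ := good_glue hl hl' h h' k
  have h1 : Subalgebra.inclusion (le_sup_left : ringOf l ≤ ringOf l ⊔ ringOf l') (g k) -
      Subalgebra.inclusion (le_sup_right : ringOf l' ≤ ringOf l ⊔ ringOf l') (g' k) = z :=
    Subtype.ext ((coe_incl_sub _ _).trans hz'.symm)
  rw [h1]
  exact hz

theorem trivialConormal : X.TrivialConormal (emb.linIdeal plane) 4 := by
  have h : ∀ l : Idx, ∃ g : Fin 4 → ringOf l.1, GoodG l.1 g := fun l => exists_good l.2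
  choose g hg using h
  refine ⟨g, fun i k => ?_, fun i => ?_, fun i j k => ?_⟩
  · rw [linIdeal_eq]
    exact good_mem (hg i) k
  · rw [linIdeal_eq]
    exact good_gen i.2 (hg i)
  · rw [linIdeal_eq]
    exact good_glue' i.2 j.2 (hg i) (hg j) k

end Pool.Agent.H945R2
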