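import Mathlib
import Pool.Agent.H945R2.PlaneE

/-! The plane is contained in the sixfold. -/

noncomputable section

namespace Pool.Agent.H945R2

open FanoFib.Tor

lemma hom_scale {σ A : Type*} [CommRing A] [Algebra ℂ A] {F : MvPolynomial σ ℂ} {d : ℕ}
    (hF : F.IsHomogeneous d) (a : A) (x : σ → A) :
    MvPolynomial.aeval (fun i => a * x i) F = a ^ d * MvPolynomial.aeval x F := by
  rw [MvPolynomial.aeval_def, MvPolynomial.aeval_def, MvPolynomial.eval₂_eq, MvPolynomial.eval₂_eq,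
    Finset.mul_sum]
  refine Finset.sum_congr rfl fun m hm => ?_
  have h1 : m.degree = d := by
    have := hF (MvPolynomial.mem_support_iff.1 hm)
    rw [← this]
    exact DFunLike.congr_fun Finsupp.degree_eq_weight_one m
  have h2 : ∏ i ∈ m.support, (a * x i) ^ m i = a ^ d * ∏ i ∈ m.support, x i ^ m i := by
    simp only [mul_pow]
    rw [Finset.prod_mul_distrib, Finset.prod_pow_eq_pow_sum, ← h1]
    rfl
  rw [h2]
  ring

/-- parameters on the plane of the point with coordinates `d`, `g` of an adapted chart. -/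
def tt (v : Fin 3 → ℂ) (d g : ℂ) : Fin 3 → ℂ :=
  ![(1 - g * v 2 + d / v 0 * v 2 ^ 2) / (v 0 * v 1 ^ 2),
    (g - 2 * (d / v 0) * v 2) / (v 0 * v 1), d / v 0 ^ 2]

section pts
variable {P : Pres} {v : Fin 3 → ℂ} (hP : Adp P v)
include hP

lemma Adp.point (y : ringOf P.lam →ₐ[ℂ] ℂ) (h0 : y (P.xr 0) = 0) (h1 : y (P.xr 1) = 1 / v 0)
    (h2 : y (P.xr 2) = 0) (h3 : y (P.xr 3) = 0) :
    uF y = vecF (tt v (y (P.xr 4)) (y (P.xr 5))) ∧ uG y = vecG (tt v (y (P.xr 4)) (y (P.xr 5))) := by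
  have hv0 := hP.h0
  have hv1 := hP.h1
  have hu : (fun i => y (P.xr i)) = ![0, 1 / v 0, 0, 0, y (P.xr 4), y (P.xr 5)] := by
    funext i
    fin_cases i
    · exact h0
    · exact h1
    · exact h2
    · exact h3
    · rfl
    · rfl
  generalize y (P.xr 4) = d at hu ⊢
  generalize y (P.xr 5) = g at hu ⊢
  refine ⟨cub_inj fun z => ?_, cub_inj fun z => ?_⟩
  · rw [← ev_F0]
    have e : (⟨F0 z, F0_mem z⟩ : E6) =
        ⟨P.F ![z 1 / v 1, z 0 - z 1 / v 1 * v 0, z 2 - z 1 / v 1 * v 2], P.mF _⟩ := by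
      apply Subtype.ext
      show F0 z = P.F ![z 1 / v 1, z 0 - z 1 / v 1 * v 0, z 2 - z 1 / v 1 * v 2]
      rw [hP.F]
      congr 1
      funext i
      fin_cases i
      · simp
      · simp; field_simp
      · simp
    rw [e, P.ev_F, hu]
    simp only [cub, cf, vecF, tt, pp, qq, rr, Matrix.cons_val]
    field_simp
    ring
  · rw [← ev_G0]
    have e : (⟨G0 z, G0_mem z⟩ : E6) =
        ((v 1 ^ 2)⁻¹ : ℂ) • ⟨P.G ![v 1 * z 1 + v 0 * z 0 + v 2 * z 2, z 0, z 2], P.mG _⟩ := by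
      apply Subtype.ext
      show G0 z = ((v 1 ^ 2)⁻¹ : ℂ) • P.G ![v 1 * z 1 + v 0 * z 0 + v 2 * z 2, z 0, z 2]
      rw [hP.G, smul_smul, inv_mul_cancel₀ (pow_ne_zero 2 hv1), one_smul]
      congr 1
      funext i
      fin_cases i
      · simp
      · simp; field_simp; ring
      · simp
    rw [e, map_smul, P.ev_G, hu]
    simp only [cub, cg, vecG, tt, pp, qq, rr, Matrix.cons_val, smul_eq_mul]
    field_simp
    ring

end pts

lemma F0_ne {v : Fin 3 → ℂ} (h : v 0 ≠ 0) : F0 v ≠ 0 := by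
  intro h1
  have h2 : P0.Fr v = 0 := by
    apply Subtype.ext
    rw [P0.coe_Fr]
    show F0 v / _ = _
    rw [h1, zero_div]
    rfl
  have h3 := P0.evalPt_Fr 0 v
  rw [h2, map_zero] at h3
  have h4 : cub (cf (0 : Fin 6 → ℂ)) v = v 0 ^ 3 := by
    simp [cub, cf, pp, qq, rr]
  rw [h4] at h3
  exact pow_ne_zero 3 h h3.symm

/-- The affine points of the plane. -/
lemma eval_affine {F : MvPolynomial (Fin (19 + 1)) ℂ} {d : ℕ} (hF : F.IsHomogeneous d)
    (h : MvPolynomial.aeval (hc X6 : Fin (19 + 1) → K6) F = 0) (v : Fin 3 → ℂ) (h0 : v 0 ≠ 0)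
    (h1 : v 1 ≠ 0) (t : Fin 3 → ℂ)
    (ht : v 0 * (t 0 * v 1 ^ 2 + t 1 * v 1 * v 2 + t 2 * v 2 ^ 2) = 1) :
    MvPolynomial.eval (vecV t) F = 0 := by
  obtain ⟨P, hP⟩ := exists_adp v h0 h1 (F0_ne h0)
  set y := P.evalPt ![0, 1 / v 0, 0, 0, v 0 ^ 2 * t 2, v 0 * v 1 * t 1 + 2 * v 0 * v 2 * t 2]
    with hy
  have hyx := P.evalPt_xr ![0, 1 / v 0, 0, 0, v 0 ^ 2 * t 2,
    v 0 * v 1 * t 1 + 2 * v 0 * v 2 * t 2]
  obtain ⟨e1, e2⟩ := hP.point y (hyx 0) (hyx 1) (hyx 2) (hyx 3)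
  have h4 : y (P.xr 4) = v 0 ^ 2 * t 2 := hyx 4
  have h5 : y (P.xr 5) = v 0 * v 1 * t 1 + 2 * v 0 * v 2 * t 2 := hyx 5
  have ht' : tt v (y (P.xr 4)) (y (P.xr 5)) = t := by
    rw [h4, h5]
    funext i
    fin_cases i
    · simp only [tt, Matrix.cons_val, Fin.zero_eta]
      field_simp
      linear_combination -ht
    · simp only [tt, Matrix.cons_val, Fin.mk_one]
      field_simp
      ring
    · simp only [tt, Matrix.cons_val, Fin.reduceFinMk]
      field_simp
  rw [ht'] at e1 e2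
  -- the coordinates of the point
  let z : Fin (19 + 1) → ringOf P.lam := fun j => ⟨hc X6 j / P.lam, div_mem_ringOf (hc_mem_E j)⟩
  have hz : MvPolynomial.aeval z F = 0 := by
    apply Subtype.ext
    have h6 : ((MvPolynomial.aeval z F : ringOf P.lam) : K6) =
        MvPolynomial.aeval (fun j => (z j : K6)) F :=
      (MvPolynomial.aeval_algebraMap_apply (B := K6) z F).symm
    rw [h6]
    have h7 : (fun j => (z j : K6)) = fun j : Fin (19 + 1) => P.lam⁻¹ * hc X6 j := by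
      funext j
      show hc X6 j / P.lam = _
      rw [div_eq_inv_mul]
    rw [h7, hom_scale hF, h, mul_zero]
    rfl
  have h8 : vecV t = fun j => y (z j) := by
    apply fun20_ext
    · intro j
      rw [vecV_left, ← e1, ← ev_hc_left]
      rfl
    · intro j
      rw [vecV_right, ← e2, ← ev_hc_right]
      rfl
  have h9 : MvPolynomial.eval (fun j => y (z j)) F = y (MvPolynomial.aeval z F) := by
    have h10 : (MvPolynomial.aeval (fun j => y (z j)) : MvPolynomial (Fin (19 + 1)) ℂ →ₐ[ℂ] ℂ) =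
        y.comp (MvPolynomial.aeval z) := by
      apply MvPolynomial.algHom_ext
      intro i
      rw [MvPolynomial.aeval_X, AlgHom.comp_apply, MvPolynomial.aeval_X]
    have h11 := congrArg (fun φ => φ F) h10
    rw [← MvPolynomial.aeval_eq_eval]
    exact h11
  rw [h8, h9, hz, map_zero]

lemma vecV_smul (c : ℂ) (t : Fin 3 → ℂ) : vecV (c • t) = fun j => c * vecV t j := by
  have := parV.map_smul c t
  exact this

lemma eval_ne {F : MvPolynomial (Fin (19 + 1)) ℂ} {d : ℕ} (hF : F.IsHomogeneous d)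
    (h : MvPolynomial.aeval (hc X6 : Fin (19 + 1) → K6) F = 0) (t : Fin 3 → ℂ) (ht : t ≠ 0) :
    MvPolynomial.eval (vecV t) F = 0 := by
  obtain ⟨v, h0, h1, hv⟩ : ∃ v : Fin 3 → ℂ, v 0 ≠ 0 ∧ v 1 ≠ 0 ∧
      v 0 * (t 0 * v 1 ^ 2 + t 1 * v 1 * v 2 + t 2 * v 2 ^ 2) ≠ 0 := by
    by_contra hcon
    push Not at hcon
    have e0 := hcon ![1, 1, 0] (by simp) (by simp)
    have e1 := hcon ![1, 1, 1] (by simp) (by simp)
    have e2 := hcon ![1, 1, -1] (by simp) (by simp)
    simp only [Matrix.cons_val] at e0 e1 e2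
    apply ht
    funext i
    fin_cases i
    · show t 0 = 0
      linear_combination e0
    · show t 1 = 0
      linear_combination (1 / 2) * e1 - (1 / 2) * e2
    · show t 2 = 0
      linear_combination (1 / 2) * e1 + (1 / 2) * e2 - e0
  set c := v 0 * (t 0 * v 1 ^ 2 + t 1 * v 1 * v 2 + t 2 * v 2 ^ 2) with hc
  have h2 := eval_affine hF h v h0 h1 (c⁻¹ • t) (by
    simp only [Pi.smul_apply, smul_eq_mul]
    have : v 0 * (c⁻¹ * t 0 * v 1 ^ 2 + c⁻¹ * t 1 * v 1 * v 2 + c⁻¹ * t 2 * v 2 ^ 2) =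
      c⁻¹ * (v 0 * (t 0 * v 1 ^ 2 + t 1 * v 1 * v 2 + t 2 * v 2 ^ 2)) := by ring
    rw [this, ← hc, inv_mul_cancel₀ hv])
  have h3 : vecV t = fun j => c * vecV (c⁻¹ • t) j := by
    rw [← vecV_smul, smul_smul, mul_inv_cancel₀ hv, one_smul]
  have h4 := hom_scale hF c (vecV (c⁻¹ • t))
  rw [MvPolynomial.aeval_eq_eval, MvPolynomial.aeval_eq_eval] at h4
  rw [h3]
  exact h4.trans (by
    have : (MvPolynomial.eval (vecV (c⁻¹ • t))) F = 0 := h2
    exact (congrArg (fun s => c ^ d * s) this).trans (mul_zero _))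

theorem containsLinear : emb.ContainsLinear plane := by
  rintro F d hF h w ⟨t, rfl⟩
  show MvPolynomial.eval (vecV t) F = 0
  have h' : MvPolynomial.aeval (hc X6 : Fin (19 + 1) → K6) F = 0 := h
  by_cases ht : t = 0
  · have h1 := eval_ne hF h' ![1, 0, 0] (by
      intro h2
      have := congrFun h2 0
      simp at this)
    have h3 := hom_scale hF (0 : ℂ) (vecV ![1, 0, 0])
    have h4 : vecV t = fun j => (0 : ℂ) * vecV ![1, 0, 0] j := by
      rw [← vecV_smul, zero_smul, ht]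
    rw [h4]
    have h5 : (MvPolynomial.eval fun j => (0 : ℂ) * vecV ![1, 0, 0] j) F =
        (0 : ℂ) ^ d * MvPolynomial.eval (vecV ![1, 0, 0]) F := by
      rw [MvPolynomial.aeval_eq_eval, MvPolynomial.aeval_eq_eval] at h3
      exact h3
    rw [h5, h1, mul_zero]
  · exact eval_ne hF h' t ht

theorem trivialNormal : emb.TrivialNormalBundle plane := by
  have h : X.dim - (Module.finrank ℂ plane - 1) = 4 := by
    rw [finrank_plane]
    rfl
  rw [Variety.Embedding.TrivialNormalBundle, h]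
  exact trivialConormal

end Pool.Agent.H945R2
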